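import Pool.Agent.H7.FF.Tst

/-! A smooth triangle. -/

open MeasureTheory Filter Topology Real
open scoped ContDiff

namespace Pool.Agent.H7.LH

open Pool.Agent.Y744

/-- a smooth approximation of the triangle from below, with nonnegative transform -/
lemma exists_tri {ε : ℝ} (h0 : 0 < ε) (h1 : ε < 1 / 4) : ∃ G : ℝ → ℝ, TK (1 - ε) G ∧
    (∀ x, 0 ≤ G x) ∧ (∀ x, 0 ≤ ct G x) ∧ (∀ x, G x ≤ max (1 - ε - |x|) 0) ∧
    (1 - 3 * ε) ^ 2 ≤ ct G 0 := by
  let f : ContDiffBump (0 : ℝ) := ⟨(1 - 3 * ε) / 2, (1 - ε) / 2, by linarith, by linarith⟩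
  have hf : TK ((1 - ε) / 2) (fun x => f x) := by
    refine ⟨f.contDiff, fun x => f.neg x, fun x hx => ?_⟩
    by_contra hne
    have h1 : x ∈ Function.support f := hne
    rw [f.support_eq] at h1
    rw [Metric.mem_ball, Real.dist_eq, sub_zero] at h1
    exact absurd hx (not_lt.2 h1.le)
  set F : ℝ → ℝ := fun x => f x with hF
  set G : ℝ → ℝ := convolution F F (ContinuousLinearMap.mul ℝ ℝ) volume with hG
  have hGt : TK (1 - ε) G := by
    refine ⟨?_, fun x => ?_, fun x hx => ?_⟩
    · exact HasCompactSupport.contDiff_convolution_right _ hf.hcs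
        (hf.cont.locallyIntegrable) hf.smooth
    · rw [hG]
      unfold convolution
      rw [← integral_neg_eq_self]
      refine integral_congr_ae (Eventually.of_forall fun t => ?_)
      show F (-t) * F (-x - -t) = F t * F (x - t)
      rw [hf.even, ← hf.even (-x - -t)]
      congr 2
      ring
    · rw [hG]
      unfold convolution
      rw [integral_eq_zero_of_ae]
      refine Eventually.of_forall fun t => ?_
      show F t * F (x - t) = 0
      by_cases h1 : (1 - ε) / 2 < |t|
      · rw [hf.supp t h1, zero_mul]
      · rw [hf.supp (x - t), mul_zero]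
        have := abs_sub_abs_le_abs_sub x t
        linarith
  have key : ∀ x, ct G x = (ct F x) ^ 2 := by
    intro x
    set c : ℝ := 2 * π * x with hc
    set A : ℝ → ℝ := fun α => F α * Real.cos (c * α) with hA
    set B : ℝ → ℝ := fun α => F α * Real.sin (c * α) with hB
    have iA : Integrable A := hf.mul_int (by fun_prop)
    have iB : Integrable B := hf.mul_int (by fun_prop)
    have hAc : HasCompactSupport A := hf.hcs.mul_right
    have hBc : HasCompactSupport B := hf.hcs.mul_right
    have cA : Continuous A := hf.cont.mul (by fun_prop)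
    have cB : Continuous B := hf.cont.mul (by fun_prop)
    have e1 : ∀ α, G α * Real.cos (c * α) = convolution A A (ContinuousLinearMap.mul ℝ ℝ) volume α -
        convolution B B (ContinuousLinearMap.mul ℝ ℝ) volume α := by
      intro α
      rw [hG]
      unfold convolution
      have i1 : Integrable fun t => A t * A (α - t) :=
        (cA.mul (by fun_prop)).integrable_of_hasCompactSupport hAc.mul_right
      have i2 : Integrable fun t => B t * B (α - t) :=
        (cB.mul (by fun_prop)).integrable_of_hasCompactSupport hBc.mul_right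
      show (∫ t, F t * F (α - t)) * Real.cos (c * α) = (∫ t, A t * A (α - t)) -
        ∫ t, B t * B (α - t)
      rw [← integral_sub i1 i2, ← integral_mul_const]
      refine integral_congr_ae (Eventually.of_forall fun t => ?_)
      show F t * F (α - t) * Real.cos (c * α) = F t * Real.cos (c * t) *
        (F (α - t) * Real.cos (c * (α - t))) - F t * Real.sin (c * t) *
        (F (α - t) * Real.sin (c * (α - t)))
      have : c * α = c * t + c * (α - t) := by ring
      rw [this, Real.cos_add]
      ring
    have e2 : ct G x = (∫ α, convolution A A (ContinuousLinearMap.mul ℝ ℝ) volume α) -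
        ∫ α, convolution B B (ContinuousLinearMap.mul ℝ ℝ) volume α := by
      rw [← integral_sub (iA.integrable_convolution _ iA) (iB.integrable_convolution _ iB)]
      unfold ct
      exact integral_congr_ae (Eventually.of_forall fun α => e1 α)
    rw [e2, integral_convolution _ iA iA, integral_convolution _ iB iB]
    have e3 : ∫ α, B α = 0 := hf.sin_zero c
    rw [e3]
    show (∫ α, A α) * (∫ α, A α) - 0 * 0 = (ct F x) ^ 2
    have e4 : ∫ α, A α = ct F x := rfl
    rw [e4]
    ring
  have hF1 : ∀ t, F t ≤ 1 := fun t => f.le_one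
  have hFn : ∀ t, 0 ≤ F t := fun t => f.nonneg
  have hFint : Integrable F := hf.cont.integrable_of_hasCompactSupport hf.hcs
  have hF0 : 1 - 3 * ε ≤ ct F 0 := by
    unfold ct
    have : ∫ α, F α * Real.cos (2 * π * 0 * α) = ∫ α, F α := by simp
    rw [this]
    have h2 : ∫ t in Set.Icc (-((1 - 3 * ε) / 2)) ((1 - 3 * ε) / 2), (1 : ℝ) ≤ ∫ t, F t := by
      refine le_trans (le_of_eq ?_) (setIntegral_le_integral
        (s := Set.Icc (-((1 - 3 * ε) / 2)) ((1 - 3 * ε) / 2)) hFint
        (Eventually.of_forall hFn))
      refine setIntegral_congr_fun measurableSet_Icc fun t ht => ?_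
      have h3 : F t = 1 := f.one_of_mem_closedBall (by
        rw [Metric.mem_closedBall, Real.dist_eq, sub_zero, abs_le]
        exact ⟨ht.1, ht.2⟩)
      exact h3.symm
    rw [setIntegral_const] at h2
    simp only [Measure.real, Real.volume_Icc, smul_eq_mul, mul_one] at h2
    rw [ENNReal.toReal_ofReal (by linarith)] at h2
    linarith
  refine ⟨G, hGt, fun x => ?_, fun x => by rw [key]; positivity, fun x => ?_, ?_⟩
  · rw [hG]
    unfold convolution
    refine integral_nonneg fun t => ?_
    show 0 ≤ F t * F (x - t)
    exact mul_nonneg f.nonneg f.nonneg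
  · have e : G x = ∫ t, F t * F (x - t) := rfl
    rw [e]
    have h2 : ∫ t, F t * F (x - t) ≤
        ∫ t, Set.indicator (Set.Icc (max (-((1 - ε) / 2)) (x - (1 - ε) / 2))
          (min ((1 - ε) / 2) (x + (1 - ε) / 2))) (fun _ => (1 : ℝ)) t := by
      refine integral_mono_of_nonneg (Eventually.of_forall fun t => ?_) ?_
        (Eventually.of_forall fun t => ?_)
      · exact mul_nonneg (hFn _) (hFn _)
      · exact (integrable_indicator_iff measurableSet_Icc).2
          (integrableOn_const (by simp [Real.volume_Icc]))
      · show F t * F (x - t) ≤ _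
        by_cases ht : t ∈ Set.Icc (max (-((1 - ε) / 2)) (x - (1 - ε) / 2))
            (min ((1 - ε) / 2) (x + (1 - ε) / 2))
        · rw [Set.indicator_of_mem ht]
          exact mul_le_one₀ (hF1 _) (hFn _) (hF1 _)
        · rw [Set.indicator_of_notMem ht]
          refine le_of_eq ?_
          by_cases ha : (1 - ε) / 2 < |t|
          · rw [hf.supp t ha, zero_mul]
          · by_cases hb : (1 - ε) / 2 < |x - t|
            · rw [hf.supp (x - t) hb, mul_zero]
            · exfalso
              apply ht
              rw [not_lt, abs_le] at ha hb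
              exact ⟨max_le (by linarith) (by linarith), le_min (by linarith) (by linarith)⟩
    refine h2.trans ?_
    rw [integral_indicator measurableSet_Icc, setIntegral_const]
    simp only [Measure.real, Real.volume_Icc, smul_eq_mul, mul_one]
    rw [ENNReal.toReal_ofReal']
    refine max_le_max ?_ le_rfl
    rcases abs_cases x with ⟨h3, h4⟩ | ⟨h3, h4⟩
    · rw [h3]
      have := min_le_left ((1 - ε) / 2) (x + (1 - ε) / 2)
      have := le_max_right (-((1 - ε) / 2)) (x - (1 - ε) / 2)
      linarith
    · rw [h3]
      have := min_le_right ((1 - ε) / 2) (x + (1 - ε) / 2)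
      have := le_max_left (-((1 - ε) / 2)) (x - (1 - ε) / 2)
      linarith
  · rw [key]
    exact pow_le_pow_left₀ (by linarith) hF0 2

end Pool.Agent.H7.LH
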