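import Pool.Agent.H7.LH.Blk2
import Pool.Agent.H7.LH.Phi
import Pool.Agent.H7.PS.Lim1

/-! Positivity of the pair sums over windows. -/

open MeasureTheory Filter Topology Real
open scoped ENNReal ContDiff

namespace Pool.Agent.H7.LH

open H370 TH803TW Pool.Agent.Y744 Pool.Agent.H7.PS Pool.Agent.H7.FF

variable {κ : ℝ} {K : ℝ → ℝ}

/-- positivity of the pair sums for nonnegative weights -/
lemma QS_nonneg (hK : TK κ K) (hpos : ∀ x, 0 ≤ K x) (Z : Finset ℂ) (L : ℝ) :
    0 ≤ QS Z Z mz (fun s => s.im) (ct K) L := by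
  have e : QS Z Z mz (fun s => s.im) (ct K) L =
      ∫ α, K α * ((∑ s ∈ Z, mz s * Real.cos (s.im * L * α)) ^ 2 +
      (∑ s ∈ Z, mz s * Real.sin (s.im * L * α)) ^ 2) := by
    have hi : ∀ s s' : ℂ, Integrable fun α => mz s * mz s' *
        (K α * Real.cos (2 * π * ((s.im - s'.im) * L / (2 * π)) * α)) := fun s s' =>
      (hK.mul_int (by fun_prop)).const_mul _
    unfold QS ct
    have e1 : ∀ s s' : ℂ, mz s * mz s' * ∫ α, K α * Real.cos (2 * π *
        ((s.im - s'.im) * L / (2 * π)) * α) = ∫ α, mz s * mz s' *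
        (K α * Real.cos (2 * π * ((s.im - s'.im) * L / (2 * π)) * α)) := fun s s' => by
      rw [integral_const_mul]
    simp_rw [e1]
    have e2 : ∀ s : ℂ, ∑ s' ∈ Z, ∫ α, mz s * mz s' *
        (K α * Real.cos (2 * π * ((s.im - s'.im) * L / (2 * π)) * α)) =
        ∫ α, ∑ s' ∈ Z, mz s * mz s' *
          (K α * Real.cos (2 * π * ((s.im - s'.im) * L / (2 * π)) * α)) := fun s =>
      (integral_finsetSum _ fun s' _ => hi s s').symm
    simp_rw [e2]
    rw [← integral_finsetSum _ fun s _ => integrable_finsetSum _ fun s' _ => hi s s']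
    refine integral_congr_ae (Eventually.of_forall fun α => ?_)
    show ∑ s ∈ Z, ∑ s' ∈ Z, mz s * mz s' *
          (K α * Real.cos (2 * π * ((s.im - s'.im) * L / (2 * π)) * α)) =
      K α * ((∑ s ∈ Z, mz s * Real.cos (s.im * L * α)) ^ 2 +
      (∑ s ∈ Z, mz s * Real.sin (s.im * L * α)) ^ 2)
    rw [sq, sq, Finset.sum_mul_sum, Finset.sum_mul_sum, ← Finset.sum_add_distrib, Finset.mul_sum]
    refine Finset.sum_congr rfl fun s _ => ?_
    rw [← Finset.sum_add_distrib, Finset.mul_sum]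
    refine Finset.sum_congr rfl fun s' _ => ?_
    have e3 : 2 * π * ((s.im - s'.im) * L / (2 * π)) * α = s.im * L * α - s'.im * L * α := by
      have := Real.pi_pos
      field_simp
    rw [e3, Real.cos_sub]
    ring
  rw [e]
  exact integral_nonneg fun α => mul_nonneg (hpos α) (by positivity)

/-- the diagonal -/
lemma QS_diag (hpos : ∀ y, 0 ≤ ct K y) (Z : Finset ℂ) (L : ℝ) :
    ct K 0 * ∑ s ∈ Z, mz s ≤ QS Z Z mz (fun s => s.im) (ct K) L := by
  unfold QS
  rw [Finset.mul_sum]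
  refine Finset.sum_le_sum fun s hs => ?_
  have h1 : ct K 0 * mz s ≤ mz s * mz s * ct K ((s.im - s.im) * L / (2 * π)) := by
    rw [sub_self, zero_mul, zero_div]
    unfold mz
    have h2 := hpos 0
    rcases Nat.eq_zero_or_pos (mult riemannZeta s) with h5 | h5
    · rw [h5]; simp
    · have h6 : (1 : ℝ) ≤ (mult riemannZeta s : ℝ) := by exact_mod_cast h5
      nlinarith [mul_nonneg h2 (by linarith : (0 : ℝ) ≤ (mult riemannZeta s : ℝ) - 1),
        mul_nonneg (mul_nonneg h2 (by linarith : (0 : ℝ) ≤ (mult riemannZeta s : ℝ) - 1))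
          (by linarith : (0 : ℝ) ≤ (mult riemannZeta s : ℝ))]
  refine h1.trans (Finset.single_le_sum (f := fun s' => mz s * mz s' *
    ct K ((s.im - s'.im) * L / (2 * π))) (fun s' _ => ?_) hs)
  exact mul_nonneg (mul_nonneg (mz_nonneg _) (mz_nonneg _)) (hpos _)

/-- the near part -/
lemma QS_near (RH : RiemannHypothesis) (hK : TK κ K) : ∃ C V0 : ℝ, 0 < C ∧ 10 ≤ V0 ∧
    ∀ V : ℝ, V0 ≤ V → ∀ P Q : ℝ, V ≤ P → Q ≤ 2 * V → ∀ L : ℝ, Real.log V / 2 ≤ L →
      QS (Zb P Q) (Zb P Q) mz (fun s => s.im) (ct K) L ≤ C * (V * Real.log V) := by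
  obtain ⟨C, B0, V0, hC, hB0, hV0, hblk, -⟩ := PP_bound RH
  obtain ⟨D, hD0, hD⟩ := hK.decay 1
  refine ⟨12800 * D * C + 1, V0, by positivity, by linarith, fun V hV P Q hP hQ L hL => ?_⟩
  have hV20 : 20 ≤ V := hV0.trans hV
  have hl : 1 ≤ Real.log V := by
    rw [Real.le_log_iff_exp_le (by linarith)]
    linarith [Real.exp_one_lt_d9]
  have hL0 : 0 < L := by linarith
  obtain ⟨r, hr⟩ : ∃ r, r = L / Real.log V := ⟨_, rfl⟩
  have hr2 : 1 / 2 ≤ r := by
    rw [hr, le_div_iff₀ (by linarith)]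
    linarith
  have e : QS (Zb P Q) (Zb P Q) mz (fun s => s.im) (ct K) L =
      QS (Zb P Q) (Zb P Q) mz (fun s => s.im) (fun x => ct K (r * x)) (Real.log V) := by
    unfold QS
    refine Finset.sum_congr rfl fun s _ => Finset.sum_congr rfl fun s' _ => ?_
    congr 2
    rw [hr]
    field_simp
  rw [e]
  have h1 := QS_le_abs (x := fun s : ℂ => s.im) (Zb P Q) (Zb P Q) mz_nonneg
    (fun x => ct K (r * x)) (Real.log V)
  have h2 := QS_abs_bound (x := fun s : ℂ => s.im) (Zb P Q) (Zb P Q) mz_nonneg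
    (f := fun x => ct K (r * x)) (K := 4 * D) (fun x => by
      have h3 := hD (r * x)
      rw [pow_one] at h3
      refine h3.trans ?_
      rw [div_le_div_iff₀ (by positivity) (by positivity)]
      have h4 : x ^ 2 ≤ 4 * (r * x) ^ 2 := by
        have : 1 / 4 ≤ r ^ 2 := by nlinarith
        nlinarith [sq_nonneg x, mul_le_mul_of_nonneg_right this (sq_nonneg x)]
      nlinarith) (Λ := Real.log V) (by linarith) one_pos
  have h5 : PP1 (Zb P Q) mz (fun s => s.im) (Real.log V) ≤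
      PP1 (Zb V (2 * V)) mz (fun s => s.im) (Real.log V) := by
    refine PP1_mono (fun s hs => ?_) mz_nonneg _
    rw [mem_Zb (by linarith)] at hs ⊢
    exact ⟨hs.1, hs.2.1, by linarith [hs.2.2.1], by linarith [hs.2.2.2.1], hs.2.2.2.2⟩
  have h6 := hblk V hV
  have h7 := le_abs_self (QS (Zb P Q) (Zb P Q) mz (fun s => s.im) (fun x => ct K (r * x))
    (Real.log V))
  have h8 : 0 ≤ V * Real.log V := mul_nonneg (by linarith) (by linarith)
  have h9 : 1600 * (4 * D) * (1 * PP1 (Zb P Q) mz (fun s => s.im) (Real.log V) +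
      1 / 1 * PP1 (Zb P Q) mz (fun s => s.im) (Real.log V)) ≤
      1600 * (4 * D) * (2 * (C * (V * Real.log V))) := by
    refine mul_le_mul_of_nonneg_left ?_ (by positivity)
    linarith
  nlinarith

/-- the number of the zeros in a window -/
lemma count_ge {a b ε : ℝ} (ha : 0 < a) (hab : a < b) (hε : 0 < ε) :
    ∀ᶠ T : ℝ in atTop, (b - a - ε) * Xf T ≤ ∑ s ∈ Zb (a * T) (b * T), mz s := by
  have hb : 0 < b := by linarith
  obtain ⟨T0, hT0, h⟩ := Pool.Agent.W54.TCF.NT_asymp' (ε / (4 * (b + 1))) (by positivity)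
  have h2 := (tendsto_order.1 (Xf_ratio hb)).1 (b - ε / 4) (by linarith)
  have h3 := (tendsto_order.1 (Xf_ratio ha)).2 (a + min (ε / 4) 1) (by
    have : 0 < min (ε / 4) 1 := lt_min (by positivity) one_pos
    linarith)
  have h4 := (tendsto_order.1 (Xf_ratio hb)).2 (b + 1) (by linarith)
  filter_upwards [h2, h3, h4, eventually_gt_atTop 1, eventually_ge_atTop (T0 / a),
    eventually_ge_atTop (T0 / b)] with T h2 h3 h4 hT hTa hTb
  rw [div_le_iff₀ ha] at hTa
  rw [div_le_iff₀ hb] at hTb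
  have hX := Xf_pos hT
  have hA : 1 ≤ a * T := by linarith
  have hAB : a * T ≤ b * T := mul_le_mul_of_nonneg_right hab.le (by linarith)
  have e : ∑ s ∈ Zb (a * T) (b * T), mz s =
      (NN riemannZeta 0 (b * T) : ℝ) - (NN riemannZeta 0 (a * T) : ℝ) := by
    rw [← sum_Zt, ← sum_Zt, Zt_split hA hAB, Finset.sum_union (Zt_disj hA)]
    ring
  rw [e]
  have k1 := (h (b * T) (by linarith)).1
  have k2 := (h (a * T) (by linarith)).2
  have m1 := min_le_left (ε / 4) 1
  have m2 := min_le_right (ε / 4) 1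
  rw [div_lt_iff₀ hX] at h3 h4
  rw [lt_div_iff₀ hX] at h2
  have x1 : (b * T) / (2 * π) * Real.log (b * T) = Xf (b * T) := by unfold Xf; ring
  have x2 : (a * T) / (2 * π) * Real.log (a * T) = Xf (a * T) := by unfold Xf; ring
  rw [x1] at k1
  rw [x2] at k2
  obtain ⟨η, hη⟩ : ∃ η, η = ε / (4 * (b + 1)) := ⟨_, rfl⟩
  rw [← hη] at k1 k2
  have hη0 : 0 < η := by rw [hη]; positivity
  have hη2 : η * (b + 1) = ε / 4 := by rw [hη]; field_simp
  have n1 : η * Xf (b * T) ≤ ε / 4 * Xf T := by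
    rw [← hη2, mul_assoc]
    exact mul_le_mul_of_nonneg_left h4.le hη0.le
  have n2 : η * Xf (a * T) ≤ ε / 4 * Xf T := by
    rw [← hη2, mul_assoc]
    refine mul_le_mul_of_nonneg_left (h3.le.trans ?_) hη0.le
    exact mul_le_mul_of_nonneg_right (by linarith) hX.le
  have n3 : Xf (a * T) ≤ (a + ε / 4) * Xf T := by
    refine h3.le.trans ?_
    exact mul_le_mul_of_nonneg_right (by linarith) hX.le
  nlinarith

/-- the cutoff -/
noncomputable def ch (A α : ℝ) : ℝ :=
  Real.smoothTransition (((A + 1) ^ 2 - α ^ 2) / ((A + 1) ^ 2 - A ^ 2))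

lemma ch_nonneg (A α : ℝ) : 0 ≤ ch A α := Real.smoothTransition.nonneg _

lemma ch_le (A α : ℝ) : ch A α ≤ 1 := Real.smoothTransition.le_one _

lemma ch_one {A α : ℝ} (hA : 0 ≤ A) (h : |α| ≤ A) : ch A α = 1 := by
  refine Real.smoothTransition.one_of_one_le ?_
  rw [le_div_iff₀ (by nlinarith), one_mul]
  have : α ^ 2 ≤ A ^ 2 := by
    rw [← sq_abs]
    exact pow_le_pow_left₀ (abs_nonneg _) h 2
  linarith

lemma ch_TK {A : ℝ} (hA : 0 ≤ A) : TK (A + 1) (ch A) := by
  refine ⟨?_, fun x => ?_, fun x hx => ?_⟩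
  · unfold ch
    exact Real.smoothTransition.contDiff.comp
      ((contDiff_const.sub (contDiff_id.pow 2)).div_const _)
  · unfold ch
    rw [neg_sq]
  · refine Real.smoothTransition.zero_of_nonpos ?_
    refine div_nonpos_of_nonpos_of_nonneg ?_ (by nlinarith)
    have : (A + 1) ^ 2 ≤ x ^ 2 := by
      rw [← sq_abs x]
      exact pow_le_pow_left₀ (by linarith) hx.le 2
    linarith

/-- the weight -/
noncomputable def Kb (G : ℝ → ℝ) (A b α : ℝ) : ℝ := str G b α * (1 - ch A α)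

variable {G : ℝ → ℝ} {ε A b : ℝ}

lemma Kb_TK (hG : TK κ G) (hA : 0 ≤ A) (hb : 0 < b) : TK (b * κ) (Kb G A b) := by
  have h := str_TK hG hb
  refine ⟨h.smooth.mul (contDiff_const.sub (ch_TK hA).smooth), fun x => ?_, fun x hx => ?_⟩
  · show str G b (-x) * (1 - ch A (-x)) = str G b x * (1 - ch A x)
    rw [h.even, (ch_TK hA).even]
  · show str G b x * (1 - ch A x) = 0
    rw [h.supp x hx, zero_mul]

lemma Kb_nonneg (hG0 : ∀ x, 0 ≤ G x) (hb : 0 < b) (α : ℝ) : 0 ≤ Kb G A b α := by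
  unfold Kb
  rw [str_val G hb]
  exact mul_nonneg (hG0 _) (by linarith [ch_le A α])

lemma Kb_zero {α : ℝ} (hA : 0 ≤ A) (h : |α| ≤ A) : Kb G A b α = 0 := by
  unfold Kb
  rw [ch_one hA h, sub_self, mul_zero]

lemma Kb_le (hG0 : ∀ x, 0 ≤ G x) (hb : 0 < b) (α : ℝ) : Kb G A b α ≤ G (b⁻¹ * α) := by
  unfold Kb
  rw [str_val G hb]
  exact mul_le_of_le_one_right (hG0 _) (by linarith [ch_nonneg A α])

/-- the lower bound for the pair sums of a window -/
lemma QS_Kb0 (hG : TK κ G) (hκ : κ ≤ 1) (hG0 : ∀ x, 0 ≤ G x) (hG1 : ∀ x, G x ≤ 1)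
    (hA : 0 ≤ A) (hb : A + 1 ≤ b) (Z : Finset ℂ) (L : ℝ) :
    QS Z Z mz (fun s => s.im) (ct (str G b)) L - QS Z Z mz (fun s => s.im) (ct (ch A)) L ≤
      QS Z Z mz (fun s => s.im) (ct (Kb G A b)) L := by
  have hb0 : 0 < b := by linarith
  have t1 : TK b (Kb G A b) := (Kb_TK hG hA hb0).mono (by nlinarith)
  have t2 : TK b (str G b) := (str_TK hG hb0).mono (by nlinarith)
  have t3 : TK b (ch A) := (ch_TK hA).mono hb
  have t4 : TK b (fun α => Kb G A b α - (fun α => str G b α - ch A α) α) :=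
    TK_sub t1 (TK_sub t2 t3)
  have h1 : ∀ x, 0 ≤ Kb G A b x - (str G b x - ch A x) := by
    intro x
    unfold Kb
    rw [str_val G hb0]
    have := hG0 (b⁻¹ * x)
    have := hG1 (b⁻¹ * x)
    have := ch_nonneg A x
    nlinarith
  have h2 := QS_nonneg t4 h1 Z L
  have e : QS Z Z mz (fun s => s.im) (ct (fun α => Kb G A b α -
      (fun α => str G b α - ch A α) α)) L =
      QS Z Z mz (fun s => s.im) (ct (Kb G A b)) L - (QS Z Z mz (fun s => s.im) (ct (str G b)) L -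
        QS Z Z mz (fun s => s.im) (ct (ch A)) L) := by
    unfold QS
    rw [← Finset.sum_sub_distrib, ← Finset.sum_sub_distrib]
    refine Finset.sum_congr rfl fun s _ => ?_
    rw [← Finset.sum_sub_distrib, ← Finset.sum_sub_distrib]
    refine Finset.sum_congr rfl fun s' _ => ?_
    rw [ct_sub t1 (TK_sub t2 t3), ct_sub t2 t3]
    ring
  rw [e] at h2
  linarith

lemma str_ct_nonneg (hct : ∀ x, 0 ≤ ct G x) (hb : 0 < b) (y : ℝ) : 0 ≤ ct (str G b) y := by
  rw [str_ct G hb]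
  exact mul_nonneg hb.le (hct _)

lemma QS_Kb (hG : TK κ G) (hκ : κ ≤ 1) (hG0 : ∀ x, 0 ≤ G x) (hG1 : ∀ x, G x ≤ 1)
    (hct : ∀ x, 0 ≤ ct G x) (hA : 0 ≤ A) (hb : A + 1 ≤ b) (Z : Finset ℂ) (L : ℝ) :
    b * ct G 0 * (∑ s ∈ Z, mz s) - QS Z Z mz (fun s => s.im) (ct (ch A)) L ≤
      QS Z Z mz (fun s => s.im) (ct (Kb G A b)) L := by
  have hb0 : 0 < b := by linarith
  have h2 := QS_Kb0 hG hκ hG0 hG1 hA hb Z L
  have h4 := QS_diag (str_ct_nonneg hct hb0) Z L
  rw [str_ct G hb0, mul_zero] at h4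
  linarith

end Pool.Agent.H7.LH
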