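import Pool.Agent.H7.LH.Pos
import Pool.Agent.H7.PS.PUp
import Pool.Graph.R_seed8.W190.A17

/-! The error terms under the Riemann hypothesis. -/

open MeasureTheory Filter Topology Real
open scoped ENNReal

namespace Pool.Agent.H7.LH

open Pool.Agent.H7.PS Pool.Agent.Y744

lemma zf_rh (RH : RiemannHypothesis) : ∀ s : ℂ, 1 / 2 < s.re → riemannZeta s ≠ 0 := by
  intro s hs h0
  have h1 : s ≠ 1 := fun h => by
    rw [h] at h0
    exact riemannZeta_one_ne_zero h0
  have h2 : ¬∃ n : ℕ, s = -2 * (n + 1) := by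
    rintro ⟨n, hn⟩
    rw [hn] at hs
    have e : (-2 * ((n : ℂ) + 1)).re = -2 * ((n : ℝ) + 1) := by simp
    rw [e] at hs
    have : (0 : ℝ) ≤ n := Nat.cast_nonneg n
    linarith
  have h3 := RH s h0 h2 h1
  linarith

lemma psi_small {y : ℝ} (hy : y < 1) : Chebyshev.psi y = 0 :=
  Chebyshev.psi_eq_zero_of_lt_two (by linarith)

/-- the local mean squares under the Riemann hypothesis -/
lemma qd_rh (RH : RiemannHypothesis) {ε : ℝ} (hε : 0 < ε) (hε1 : ε ≤ 1 / 2) : ∃ C : ℝ, 0 < C ∧
    ∀ s : ℝ, 0 < s → s ≤ 1 → ∀ w : ℝ, qd (w, s) ≤ ENNReal.ofReal (C * Real.exp (2 * ε * |w|)) := by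
  obtain ⟨C, hC, h⟩ := Pool.Agent.W190.psi_of_free (1 / 2) le_rfl (zf_rh RH) (1 / 2 + ε)
    (by linarith) (by linarith)
  have hE : ∀ w : ℝ, 0 ≤ w → |Chebyshev.psi (Real.exp w) - Real.exp w| ≤
      C * Real.exp ((1 / 2 + ε) * w) := by
    intro w hw
    have h1 := h (Real.exp w) (Real.one_le_exp_iff.2 hw)
    rwa [← Real.exp_mul, mul_comm w] at h1
  have he : 0 < Real.exp 1 := Real.exp_pos 1
  have he1 : 1 ≤ Real.exp 1 := by linarith [Real.add_one_le_exp (1 : ℝ)]
  refine ⟨4 * C ^ 2 * Real.exp 2 + Real.exp 2 + Real.exp 1 * (C * Real.exp 1 + 1) ^ 2,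
    by positivity, fun s hs hs1 w => ?_⟩
  unfold qd
  refine ENNReal.ofReal_le_ofReal ?_
  show Real.exp (-w) * dn w s ^ 2 ≤ _
  have hexp : 1 ≤ Real.exp (2 * ε * |w|) := Real.one_le_exp_iff.2 (by positivity)
  rcases le_or_gt 0 w with hw | hw
  · have h1 : |dn w s| ≤ 2 * C * Real.exp ((1 / 2 + ε) * w + 1) := by
      have a1 := hE w hw
      have a2 := hE (w + s) (by linarith)
      have a3 : Real.exp ((1 / 2 + ε) * (w + s)) ≤ Real.exp ((1 / 2 + ε) * w + 1) :=
        Real.exp_le_exp.2 (by nlinarith)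
      have a4 : Real.exp ((1 / 2 + ε) * w) ≤ Real.exp ((1 / 2 + ε) * w + 1) :=
        Real.exp_le_exp.2 (by linarith)
      have a5 : dn w s = (Chebyshev.psi (Real.exp (w + s)) - Real.exp (w + s)) -
          (Chebyshev.psi (Real.exp w) - Real.exp w) := by unfold dn; ring
      rw [a5]
      refine (abs_sub _ _).trans ?_
      nlinarith
    have h2 : dn w s ^ 2 ≤ (2 * C * Real.exp ((1 / 2 + ε) * w + 1)) ^ 2 := by
      rw [← sq_abs]
      exact pow_le_pow_left₀ (abs_nonneg _) h1 2
    have h3 : Real.exp (-w) * (2 * C * Real.exp ((1 / 2 + ε) * w + 1)) ^ 2 =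
        4 * C ^ 2 * Real.exp 2 * Real.exp (2 * ε * |w|) := by
      rw [abs_of_nonneg hw, mul_pow, ← Real.exp_nat_mul]
      have e1 : Real.exp (-w) * ((2 * C) ^ 2 * Real.exp ((2 : ℕ) * ((1 / 2 + ε) * w + 1))) =
          4 * C ^ 2 * (Real.exp (-w) * Real.exp ((2 : ℕ) * ((1 / 2 + ε) * w + 1))) := by ring
      rw [e1, ← Real.exp_add, mul_assoc (4 * C ^ 2), ← Real.exp_add]
      congr 2
      push_cast
      ring
    calc Real.exp (-w) * dn w s ^ 2 ≤ Real.exp (-w) *
          (2 * C * Real.exp ((1 / 2 + ε) * w + 1)) ^ 2 :=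
          mul_le_mul_of_nonneg_left h2 (Real.exp_pos _).le
      _ = 4 * C ^ 2 * Real.exp 2 * Real.exp (2 * ε * |w|) := h3
      _ ≤ _ := by
          refine mul_le_mul_of_nonneg_right ?_ (Real.exp_pos _).le
          have : 0 < Real.exp 2 + Real.exp 1 * (C * Real.exp 1 + 1) ^ 2 := by positivity
          linarith
  · have hew : Real.exp w < 1 := (Real.exp_lt_exp.2 hw).trans_eq Real.exp_zero
    rcases lt_or_ge (w + s) 0 with h0 | h0
    · have hews : Real.exp (w + s) < 1 := (Real.exp_lt_exp.2 h0).trans_eq Real.exp_zero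
      have h1 : |dn w s| ≤ Real.exp (w + 1) := by
        unfold dn
        rw [psi_small hew, psi_small hews, abs_le]
        have a1 := Real.exp_pos w
        have a2 : Real.exp w ≤ Real.exp (w + s) := Real.exp_le_exp.2 (by linarith)
        have a3 : Real.exp (w + s) ≤ Real.exp (w + 1) := Real.exp_le_exp.2 (by linarith)
        constructor <;> linarith
      have h2 : dn w s ^ 2 ≤ (Real.exp (w + 1)) ^ 2 := by
        rw [← sq_abs]
        exact pow_le_pow_left₀ (abs_nonneg _) h1 2
      have h3 : Real.exp (-w) * (Real.exp (w + 1)) ^ 2 ≤ Real.exp 2 := by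
        rw [← Real.exp_nat_mul, ← Real.exp_add]
        refine Real.exp_le_exp.2 ?_
        push_cast
        linarith
      have h4 : Real.exp (-w) * dn w s ^ 2 ≤ Real.exp 2 :=
        (mul_le_mul_of_nonneg_left h2 (Real.exp_pos _).le).trans h3
      have h5 : 0 < 4 * C ^ 2 * Real.exp 2 + Real.exp 1 * (C * Real.exp 1 + 1) ^ 2 := by positivity
      have h6 := Real.exp_pos 2
      nlinarith
    · have h1 : |dn w s| ≤ C * Real.exp 1 + 1 := by
        have a2 := hE (w + s) h0
        have a3 : Real.exp ((1 / 2 + ε) * (w + s)) ≤ Real.exp 1 :=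
          Real.exp_le_exp.2 (by nlinarith)
        have a5 : dn w s = (Chebyshev.psi (Real.exp (w + s)) - Real.exp (w + s)) -
            (Chebyshev.psi (Real.exp w) - Real.exp w) := by unfold dn; ring
        rw [a5, psi_small hew]
        refine (abs_sub _ _).trans ?_
        rw [zero_sub, abs_neg, abs_of_pos (Real.exp_pos w)]
        have a6 : C * Real.exp ((1 / 2 + ε) * (w + s)) ≤ C * Real.exp 1 :=
          mul_le_mul_of_nonneg_left a3 hC.le
        linarith
      have h2 : dn w s ^ 2 ≤ (C * Real.exp 1 + 1) ^ 2 := by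
        rw [← sq_abs]
        exact pow_le_pow_left₀ (abs_nonneg _) h1 2
      have h3 : Real.exp (-w) ≤ Real.exp 1 := Real.exp_le_exp.2 (by linarith)
      have h4 : Real.exp (-w) * dn w s ^ 2 ≤ Real.exp 1 * (C * Real.exp 1 + 1) ^ 2 :=
        mul_le_mul h3 h2 (by positivity) he.le
      have h5 : 0 < 4 * C ^ 2 * Real.exp 2 + Real.exp 2 := by positivity
      have h6 : 0 < Real.exp 1 * (C * Real.exp 1 + 1) ^ 2 := by positivity
      nlinarith

/-- the error integral -/
lemma err_int (RH : RiemannHypothesis) {κ b : ℝ} {K : ℝ → ℝ} (hK : TK κ K) (hκ : κ ≤ b)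
    (hb : 1 ≤ b) (hK1 : ∀ x, K x ≤ 1) : ∃ C : ℝ, 0 < C ∧ ∀ T : ℝ, 1 < T → ∀ s : ℝ, 0 < s → s ≤ 1 →
    ∫⁻ w, Om1 (kT K T) w * qd (w, s) ≤ ENNReal.ofReal (C * (Real.log T * Real.sqrt T)) := by
  have hb0 : 0 < b := by linarith
  obtain ⟨C, hC, hq⟩ := qd_rh RH (ε := 1 / (4 * b)) (by positivity) (by
    rw [div_le_div_iff₀ (by positivity) (by norm_num)]
    linarith)
  refine ⟨b * (4 * C * Real.exp 1 * Real.sqrt (4 * π)), by positivity, fun T hT s hs hs1 => ?_⟩
  have hL : 0 < Real.log T := Real.log_pos hT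
  have hk : Measurable (kT K T) := by
    unfold kT
    exact (hK.cont.comp (by fun_prop : Continuous fun u : ℝ =>
      u / Real.log T)).measurable.ennreal_ofReal
  have h1 : ∫⁻ w, Om1 (kT K T) w * qd (w, s) ≤ ∫⁻ w, ∫⁻ u in Set.Ioi (0 : ℝ), kT K T u *
      (ENNReal.ofReal (4 * Real.exp (-(u - w) ^ 2 / 2)) *
        ENNReal.ofReal (C * Real.exp (2 * (1 / (4 * b)) * |w|))) := by
    refine lintegral_mono fun w => ?_
    refine (mul_le_mul_right (hq s hs hs1 w) _).trans (le_of_eq ?_)
    unfold Om1
    rw [← lintegral_mul_const' _ _ ENNReal.ofReal_ne_top]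
    refine lintegral_congr fun u => ?_
    ring
  refine h1.trans ?_
  rw [lintegral_lintegral_swap]
  · have h2 : ∀ u ∈ Set.Ioi (0 : ℝ), ∫⁻ w, kT K T u *
        (ENNReal.ofReal (4 * Real.exp (-(u - w) ^ 2 / 2)) *
          ENNReal.ofReal (C * Real.exp (2 * (1 / (4 * b)) * |w|))) ≤
        Set.indicator (Set.Ioc 0 (b * Real.log T)) (fun _ => ENNReal.ofReal
          (4 * C * Real.exp 1 * Real.sqrt (4 * π) * Real.sqrt T)) u := by
      intro u hu
      have hu0 : (0 : ℝ) < u := hu
      by_cases hub : u ≤ b * Real.log T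
      · rw [Set.indicator_of_mem (show u ∈ Set.Ioc 0 (b * Real.log T) from ⟨hu0, hub⟩)]
        have h3 : ∀ w, kT K T u * (ENNReal.ofReal (4 * Real.exp (-(u - w) ^ 2 / 2)) *
            ENNReal.ofReal (C * Real.exp (2 * (1 / (4 * b)) * |w|))) ≤
            ENNReal.ofReal (4 * C * Real.exp 1 * Real.sqrt T) *
              ENNReal.ofReal (Real.exp (-(1 / 4) * (w - u) ^ 2)) := by
          intro w
          have h4 : kT K T u ≤ 1 := by
            unfold kT
            exact ENNReal.ofReal_le_one.2 (hK1 _)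
          have h5 : 4 * Real.exp (-(u - w) ^ 2 / 2) * (C * Real.exp (2 * (1 / (4 * b)) * |w|)) ≤
              4 * C * Real.exp 1 * Real.sqrt T * Real.exp (-(1 / 4) * (w - u) ^ 2) := by
            have hsq : Real.sqrt T = Real.exp (Real.log T / 2) := by
              rw [Real.sqrt_eq_rpow, Real.rpow_def_of_pos (by linarith)]
              congr 1
              ring
            have e1 : 4 * Real.exp (-(u - w) ^ 2 / 2) *
                (C * Real.exp (2 * (1 / (4 * b)) * |w|)) =
                4 * C * Real.exp (-(u - w) ^ 2 / 2 + 2 * (1 / (4 * b)) * |w|) := by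
              rw [Real.exp_add]; ring
            have e2 : 4 * C * Real.exp 1 * Real.sqrt T * Real.exp (-(1 / 4) * (w - u) ^ 2) =
                4 * C * Real.exp (1 + Real.log T / 2 + -(1 / 4) * (w - u) ^ 2) := by
              rw [Real.exp_add, Real.exp_add, hsq]; ring
            rw [e1, e2]
            refine mul_le_mul_of_nonneg_left (Real.exp_le_exp.2 ?_) (by positivity)
            have a1 : |w| ≤ u + |w - u| := by
              have := abs_add_le (w - u) u
              rw [sub_add_cancel, abs_of_pos hu0] at this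
              linarith
            have a2 : 2 * (1 / (4 * b)) * |w| ≤ 2 * (1 / (4 * b)) * u +
                2 * (1 / (4 * b)) * |w - u| := by
              have : 0 ≤ 2 * (1 / (4 * b)) := by positivity
              nlinarith
            have a3 : 2 * (1 / (4 * b)) * u ≤ Real.log T / 2 := by
              have : 2 * (1 / (4 * b)) * u = u / (2 * b) := by
                field_simp
                ring
              rw [this, div_le_iff₀ (by positivity)]
              linarith
            have a4 : 2 * (1 / (4 * b)) * |w - u| ≤ 1 * |w - u| := by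
              refine mul_le_mul_of_nonneg_right ?_ (abs_nonneg _)
              have : 2 * (1 / (4 * b)) = 1 / (2 * b) := by
                field_simp
                ring
              rw [this, div_le_one (by positivity)]
              linarith
            have a5 : |w - u| ≤ 1 + (w - u) ^ 2 / 4 := by
              nlinarith [sq_nonneg (|w - u| / 2 - 1), sq_abs (w - u)]
            have a6 : (u - w) ^ 2 = (w - u) ^ 2 := by ring
            rw [a6]
            linarith
          calc kT K T u * (ENNReal.ofReal (4 * Real.exp (-(u - w) ^ 2 / 2)) *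
                ENNReal.ofReal (C * Real.exp (2 * (1 / (4 * b)) * |w|))) ≤
                1 * ENNReal.ofReal (4 * Real.exp (-(u - w) ^ 2 / 2) *
                  (C * Real.exp (2 * (1 / (4 * b)) * |w|))) := by
                rw [← ENNReal.ofReal_mul (by positivity)]
                exact mul_le_mul_left h4 _
            _ ≤ ENNReal.ofReal (4 * C * Real.exp 1 * Real.sqrt T) *
              ENNReal.ofReal (Real.exp (-(1 / 4) * (w - u) ^ 2)) := by
                rw [one_mul, ← ENNReal.ofReal_mul (by positivity)]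
                exact ENNReal.ofReal_le_ofReal h5
        refine (lintegral_mono h3).trans (le_of_eq ?_)
        rw [lintegral_const_mul' _ _ ENNReal.ofReal_ne_top, gauss_lint (by norm_num),
          ← ENNReal.ofReal_mul (by positivity)]
        congr 1
        have e : π / (1 / 4) = 4 * π := by ring
        rw [e]
        ring
      · have h3 : kT K T u = 0 := by
          unfold kT
          rw [hK.supp, ENNReal.ofReal_zero]
          rw [abs_of_pos (by positivity), lt_div_iff₀ hL]
          push Not at hub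
          nlinarith
        simp_rw [h3, zero_mul]
        rw [lintegral_zero]
        exact zero_le
    refine (setLIntegral_mono' measurableSet_Ioi h2).trans ?_
    refine (setLIntegral_le_lintegral _ _).trans (le_of_eq ?_)
    rw [lintegral_indicator measurableSet_Ioc, setLIntegral_const, Real.volume_Ioc,
      ← ENNReal.ofReal_mul (by positivity)]
    congr 1
    ring
  · have : Measurable fun p : ℝ × ℝ => kT K T p.2 *
      (ENNReal.ofReal (4 * Real.exp (-(p.2 - p.1) ^ 2 / 2)) *
        ENNReal.ofReal (C * Real.exp (2 * (1 / (4 * b)) * |p.1|))) := by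
      have m1 : Measurable fun p : ℝ × ℝ => ENNReal.ofReal (4 * Real.exp (-(p.2 - p.1) ^ 2 / 2)) :=
        (Continuous.measurable (by fun_prop)).ennreal_ofReal
      have m2 : Measurable fun p : ℝ × ℝ =>
          ENNReal.ofReal (C * Real.exp (2 * (1 / (4 * b)) * |p.1|)) :=
        (Continuous.measurable (by fun_prop)).ennreal_ofReal
      exact (hk.comp measurable_snd).mul (m1.mul m2)
    exact this.aemeasurable

end Pool.Agent.H7.LH
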