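import Pool.Agent.H7.LH.Ker1
import Pool.Agent.H7.PS.Zer2

/-! Riemann sums of the kernel. -/

open MeasureTheory Filter Topology Real
open scoped ENNReal

namespace Pool.Agent.H7.LH

open Pool.Agent.H7.PS

/-- the kernel -/
noncomputable def fej (τ : ℝ) : ℝ := (2 - 2 * Real.cos τ) / τ ^ 2

lemma fej_nonneg (τ : ℝ) : 0 ≤ fej τ := by
  unfold fej
  have := Real.cos_le_one τ
  exact div_nonneg (by linarith) (by positivity)

lemma fej_le (τ : ℝ) : fej τ ≤ 1 := by
  unfold fej
  have := Real.one_sub_sq_div_two_le_cos (x := τ)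
  refine div_le_one_of_le₀ ?_ (by positivity)
  linarith

lemma fej_meas : Measurable fej := by
  unfold fej
  exact Measurable.div (Continuous.measurable (by fun_prop)) (measurable_id.pow_const 2)

lemma fej_scale {δ t : ℝ} (hδ : 0 < δ) (ht : 0 < t) :
    (2 - 2 * Real.cos (δ * t)) / t ^ 2 = δ ^ 2 * fej (δ * t) := by
  unfold fej
  field_simp

lemma gam_lint : ∫⁻ δ in Set.Ioi (0 : ℝ), ENNReal.ofReal (Real.exp (-δ) * δ) = 1 := by
  have h1 := Real.integral_rpow_mul_exp_neg_mul_Ioi (a := 2) (r := 1) (by norm_num) one_pos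
  have h2 : ∫ t : ℝ in Set.Ioi 0, Real.exp (-t) * t = 1 := by
    have h3 : ∫ t : ℝ in Set.Ioi 0, Real.exp (-t) * t =
        ∫ t : ℝ in Set.Ioi 0, t ^ ((2 : ℝ) - 1) * Real.exp (-(1 * t)) := by
      refine setIntegral_congr_fun measurableSet_Ioi fun t ht => ?_
      show Real.exp (-t) * t = t ^ ((2 : ℝ) - 1) * Real.exp (-(1 * t))
      norm_num
      ring
    rw [h3, h1, Real.Gamma_two]
    norm_num
  have hi : IntegrableOn (fun t : ℝ => Real.exp (-t) * t) (Set.Ioi 0) := by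
    by_contra hc
    rw [integral_undef hc] at h2
    exact zero_ne_one h2
  rw [← ofReal_integral_eq_lintegral_ofReal hi
    ((ae_restrict_iff' measurableSet_Ioi).2 (Eventually.of_forall fun t ht => by
      have : (0 : ℝ) < t := ht
      positivity)), h2, ENNReal.ofReal_one]

lemma fej_lint : ∫⁻ τ in Set.Ioi (0 : ℝ), ENNReal.ofReal (fej τ) = ENNReal.ofReal π := by
  obtain ⟨J, hJ⟩ : ∃ J, J = ∫⁻ τ in Set.Ioi (0 : ℝ), ENNReal.ofReal (fej τ) := ⟨_, rfl⟩
  have h1 : ∫⁻ t in Set.Ioi (0 : ℝ), ∫⁻ δ in Set.Ioi (0 : ℝ),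
      ENNReal.ofReal ((1 : ℝ) ^ 2 * Real.exp (-1 * δ)) *
      ENNReal.ofReal ((2 - 2 * Real.cos (δ * t)) / t ^ 2) = ENNReal.ofReal π := by
    have h2 : ∫⁻ t in Set.Ioi (0 : ℝ), ∫⁻ δ in Set.Ioi (0 : ℝ),
        ENNReal.ofReal ((1 : ℝ) ^ 2 * Real.exp (-1 * δ)) *
        ENNReal.ofReal ((2 - 2 * Real.cos (δ * t)) / t ^ 2) =
        ∫⁻ t in Set.Ioi (0 : ℝ), ENNReal.ofReal (2 * (1 + t ^ 2)⁻¹) := by
      refine setLIntegral_congr_fun measurableSet_Ioi fun t ht => ?_
      have ht0 : (t : ℝ) ≠ 0 := ne_of_gt ht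
      show ∫⁻ δ in Set.Ioi (0 : ℝ), ENNReal.ofReal ((1 : ℝ) ^ 2 * Real.exp (-1 * δ)) *
        ENNReal.ofReal ((2 - 2 * Real.cos (δ * t)) / t ^ 2) = ENNReal.ofReal (2 * (1 + t ^ 2)⁻¹)
      rw [kap_lint one_pos ht0]
      congr 1
      rw [one_pow, mul_one, div_eq_mul_inv]
    rw [h2, ← ofReal_integral_eq_lintegral_ofReal]
    · rw [integral_const_mul, integral_Ioi_inv_one_add_sq, Real.arctan_zero]
      congr 1
      ring
    · exact (integrable_inv_one_add_sq.integrableOn).const_mul _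
    · exact Eventually.of_forall fun t => by positivity
  rw [lintegral_lintegral_swap] at h1
  · have h3 : ∫⁻ δ in Set.Ioi (0 : ℝ), ∫⁻ t in Set.Ioi (0 : ℝ),
        ENNReal.ofReal ((1 : ℝ) ^ 2 * Real.exp (-1 * δ)) *
        ENNReal.ofReal ((2 - 2 * Real.cos (δ * t)) / t ^ 2) =
        ∫⁻ δ in Set.Ioi (0 : ℝ), ENNReal.ofReal (Real.exp (-δ) * δ) * J := by
      refine setLIntegral_congr_fun measurableSet_Ioi fun δ hδ => ?_
      have hδ0 : (0 : ℝ) < δ := hδ
      show ∫⁻ t in Set.Ioi (0 : ℝ), ENNReal.ofReal ((1 : ℝ) ^ 2 * Real.exp (-1 * δ)) *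
        ENNReal.ofReal ((2 - 2 * Real.cos (δ * t)) / t ^ 2) = ENNReal.ofReal (Real.exp (-δ) * δ) * J
      rw [lintegral_const_mul' _ _ ENNReal.ofReal_ne_top]
      have h4 : ∫⁻ t in Set.Ioi (0 : ℝ), ENNReal.ofReal ((2 - 2 * Real.cos (δ * t)) / t ^ 2) =
          ENNReal.ofReal δ * J := by
        have h5 : ∫⁻ t in Set.Ioi (0 : ℝ), ENNReal.ofReal ((2 - 2 * Real.cos (δ * t)) / t ^ 2) =
            ∫⁻ t in Set.Ioi (0 : ℝ), ENNReal.ofReal (δ ^ 2) *
              (fun x => ENNReal.ofReal (fej x)) (t * δ) := by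
          refine setLIntegral_congr_fun measurableSet_Ioi fun t ht => ?_
          have ht0 : (0 : ℝ) < t := ht
          show ENNReal.ofReal ((2 - 2 * Real.cos (δ * t)) / t ^ 2) = ENNReal.ofReal (δ ^ 2) *
            ENNReal.ofReal (fej (t * δ))
          rw [fej_scale hδ0 ht0, ENNReal.ofReal_mul (by positivity), mul_comm t]
        rw [h5, lintegral_const_mul' _ _ ENNReal.ofReal_ne_top,
          scale_lint hδ0 (fun x => ENNReal.ofReal (fej x)), ← hJ, ← mul_assoc,
          ← ENNReal.ofReal_mul (by positivity)]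
        congr 2
        field_simp
      rw [h4, ← mul_assoc, ← ENNReal.ofReal_mul (by positivity)]
      congr 2
      norm_num
    rw [h3, lintegral_mul_const, gam_lint, one_mul] at h1
    · rw [← hJ, h1]
    · exact (Continuous.measurable (by fun_prop)).ennreal_ofReal
  · have : Measurable fun p : ℝ × ℝ => ENNReal.ofReal ((1 : ℝ) ^ 2 * Real.exp (-1 * p.2)) *
        ENNReal.ofReal ((2 - 2 * Real.cos (p.2 * p.1)) / p.1 ^ 2) := by
      refine Measurable.mul (Continuous.measurable (by fun_prop)).ennreal_ofReal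
        (Measurable.ennreal_ofReal ?_)
      exact Measurable.div (Continuous.measurable (by fun_prop)) (measurable_fst.pow_const 2)
    exact this.aemeasurable

lemma fej_int : IntegrableOn fej (Set.Ioi 0) := by
  refine ⟨fej_meas.aestronglyMeasurable, ?_⟩
  unfold HasFiniteIntegral
  have : ∫⁻ a in Set.Ioi (0 : ℝ), ‖fej a‖ₑ = ENNReal.ofReal π := by
    rw [← fej_lint]
    refine lintegral_congr fun t => ?_
    rw [Real.enorm_eq_ofReal (fej_nonneg t)]
  rw [this]
  exact ENNReal.ofReal_lt_top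

lemma fej_integral : ∫ τ in Set.Ioi (0 : ℝ), fej τ = π := by
  rw [integral_eq_lintegral_of_nonneg_ae (Eventually.of_forall fej_nonneg)
    fej_meas.aestronglyMeasurable, fej_lint, ENNReal.toReal_ofReal Real.pi_pos.le]

lemma fej_ii {a b : ℝ} (ha : 0 ≤ a) (hb : 0 ≤ b) : IntervalIntegrable fej volume a b := by
  rw [intervalIntegrable_iff]
  refine fej_int.mono_set fun x hx => ?_
  have := hx.1
  exact lt_of_le_of_lt (le_min ha hb) this

lemma fej_big {d : ℝ} (hd : 0 < d) : ∃ a R : ℝ, 0 < a ∧ a < R ∧ a ≤ d / 2 ∧ 2 ≤ R ∧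
    π - d ≤ ∫ τ in a..R, fej τ := by
  have h1 := intervalIntegral_tendsto_integral_Ioi 0 fej_int tendsto_id
  rw [fej_integral] at h1
  obtain ⟨R, hR1, hR3⟩ := (((tendsto_order.1 h1).1 (π - d / 2) (by linarith)).and
    (eventually_ge_atTop (2 : ℝ))).exists
  have hR2 : 0 < R := by linarith
  have hmin : 0 < min (d / 2) (R / 2) := lt_min (by linarith) (by linarith)
  refine ⟨min (d / 2) (R / 2), R, hmin, lt_of_le_of_lt (min_le_right _ _) (by linarith),
    min_le_left _ _, hR3, ?_⟩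
  have h2 : (∫ τ in (0 : ℝ)..(min (d / 2) (R / 2)), fej τ) +
      ∫ τ in (min (d / 2) (R / 2))..R, fej τ = ∫ τ in (0 : ℝ)..R, fej τ :=
    intervalIntegral.integral_add_adjacent_intervals (fej_ii le_rfl hmin.le)
      (fej_ii hmin.le hR2.le)
  have h3 : ∫ τ in (0 : ℝ)..(min (d / 2) (R / 2)), fej τ ≤ ∫ τ in (0 : ℝ)..(min (d / 2) (R / 2)),
      (1 : ℝ) := intervalIntegral.integral_mono_on hmin.le (fej_ii le_rfl hmin.le)
        (by simp) fun x _ => fej_le x
  rw [intervalIntegral.integral_const, smul_eq_mul, mul_one, sub_zero] at h3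
  have h4 := min_le_left (d / 2) (R / 2)
  simp only [id] at hR1
  linarith

lemma fej_lip {α x y : ℝ} (hα : 0 < α) (hx : α ≤ x) (hy : α ≤ y) :
    |fej x - fej y| ≤ (2 / α ^ 2 + 8 / α ^ 3) * |x - y| := by
  have hx0 : 0 < x := by linarith
  have hy0 : 0 < y := by linarith
  have e : fej x - fej y = 2 * (Real.cos y - Real.cos x) * (1 / x ^ 2) +
      (2 - 2 * Real.cos y) * ((y - x) * (1 / (x * y ^ 2) + 1 / (x ^ 2 * y))) := by
    unfold fej
    field_simp
    ring
  rw [e]
  have h1 : |Real.cos y - Real.cos x| ≤ |x - y| := by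
    rw [abs_sub_comm x y]
    exact Real.abs_cos_sub_cos_le y x
  have h2 : 1 / x ^ 2 ≤ 1 / α ^ 2 :=
    one_div_le_one_div_of_le (by positivity) (pow_le_pow_left₀ hα.le hx 2)
  have h3 : 1 / (x * y ^ 2) ≤ 1 / α ^ 3 := by
    refine one_div_le_one_div_of_le (by positivity) ?_
    calc α ^ 3 = α * α ^ 2 := by ring
      _ ≤ x * y ^ 2 := mul_le_mul hx (pow_le_pow_left₀ hα.le hy 2) (by positivity) hx0.le
  have h4 : 1 / (x ^ 2 * y) ≤ 1 / α ^ 3 := by
    refine one_div_le_one_div_of_le (by positivity) ?_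
    calc α ^ 3 = α ^ 2 * α := by ring
      _ ≤ x ^ 2 * y := mul_le_mul (pow_le_pow_left₀ hα.le hx 2) hy hα.le (by positivity)
  have h5 : |2 - 2 * Real.cos y| ≤ 4 := by
    rw [abs_le]
    have := Real.cos_le_one y
    have := Real.neg_one_le_cos y
    constructor <;> linarith
  refine (abs_add_le _ _).trans ?_
  have a1 : |2 * (Real.cos y - Real.cos x) * (1 / x ^ 2)| ≤ 2 / α ^ 2 * |x - y| := by
    rw [abs_mul, abs_mul, abs_of_pos (by norm_num : (0 : ℝ) < 2),
      abs_of_pos (by positivity : 0 < 1 / x ^ 2)]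
    calc 2 * |Real.cos y - Real.cos x| * (1 / x ^ 2) ≤ 2 * |x - y| * (1 / α ^ 2) :=
          mul_le_mul (by linarith) h2 (by positivity) (by positivity)
      _ = _ := by ring
  have a2 : |(2 - 2 * Real.cos y) * ((y - x) * (1 / (x * y ^ 2) + 1 / (x ^ 2 * y)))| ≤
      8 / α ^ 3 * |x - y| := by
    rw [abs_mul, abs_mul, abs_of_pos (by positivity : 0 < 1 / (x * y ^ 2) + 1 / (x ^ 2 * y)),
      abs_sub_comm y x]
    calc |2 - 2 * Real.cos y| * (|x - y| * (1 / (x * y ^ 2) + 1 / (x ^ 2 * y))) ≤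
          4 * (|x - y| * (1 / α ^ 3 + 1 / α ^ 3)) := by
          refine mul_le_mul h5 ?_ (by positivity) (by norm_num)
          exact mul_le_mul_of_nonneg_left (add_le_add h3 h4) (abs_nonneg _)
      _ = _ := by ring
  linarith

lemma fej_low {τ : ℝ} (h0 : 0 < τ) (h1 : τ ≤ 1) : 2 / 5 ≤ fej τ := by
  have h2 := Real.mul_le_sin (x := τ / 2) (by linarith) (by linarith [Real.pi_gt_three])
  have h3 : 1 - Real.cos τ = 2 * Real.sin (τ / 2) ^ 2 := by
    have := Real.cos_sq' (τ / 2)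
    have h4 := Real.cos_two_mul (τ / 2)
    rw [mul_div_cancel₀ _ (by norm_num : (2 : ℝ) ≠ 0)] at h4
    rw [h4, this]
    ring
  have hpi := Real.pi_pos
  have h4 : (2 / π * (τ / 2)) ^ 2 ≤ Real.sin (τ / 2) ^ 2 :=
    pow_le_pow_left₀ (by positivity) h2 2
  have h5 : (2 / π * (τ / 2)) ^ 2 = τ ^ 2 / π ^ 2 := by
    field_simp
  have h6 : π ^ 2 ≤ 10 := by nlinarith [Real.pi_lt_d2]
  have h7 : τ ^ 2 / 10 ≤ τ ^ 2 / π ^ 2 :=
    div_le_div_of_nonneg_left (by positivity) (by positivity) h6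
  unfold fej
  rw [le_div_iff₀ (by positivity)]
  nlinarith

lemma riem {d : ℝ} (hd : 0 < d) (hd1 : d ≤ 1 / 5) : ∃ (a h : ℝ) (N : ℕ) (m : ℕ → ℝ),
    0 < h ∧ h ≤ a ∧ a ≤ 1 / 4 ∧ h ≤ d ∧ 1 ≤ a + N * h ∧ (∀ j : ℕ, a + j * h ≤ 1 → 1 / 4 ≤ m j) ∧
    (∀ j, 0 ≤ m j) ∧ π * (1 - d) ≤ h * ∑ j ∈ Finset.range N, m j ∧
    ∀ᶠ T : ℝ in atTop, ∀ j < N, ∀ t ∈ Set.Ioc ((a + j * h) * T) ((a + j * h + h) * T),
      ENNReal.ofReal (m j / T ^ 2) ≤ wd (Real.log (1 + 1 / T)) t := by
  obtain ⟨e, he⟩ : ∃ e, e = d / 2 := ⟨_, rfl⟩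
  have he0 : 0 < e := by linarith
  obtain ⟨a, R, ha, haR, hae, hR2, hint⟩ := fej_big he0
  obtain ⟨B, hB⟩ : ∃ B, B = 2 / (a / 2) ^ 2 + 8 / (a / 2) ^ 3 := ⟨_, rfl⟩
  have hB0 : 0 < B := by rw [hB]; positivity
  obtain ⟨N, hN⟩ := exists_nat_gt ((R - a) / a + 3 * B * (R - a) ^ 2 / e)
  have hRa : 0 < R - a := by linarith
  have hq1 : 0 < (R - a) / a := by positivity
  have hq2 : 0 < 3 * B * (R - a) ^ 2 / e := by positivity
  have hNp : (0 : ℝ) < N := by linarith
  obtain ⟨h, hh⟩ : ∃ h, h = (R - a) / N := ⟨_, rfl⟩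
  have hh0 : 0 < h := by rw [hh]; positivity
  have hNh : N * h = R - a := by rw [hh]; field_simp
  have hha : h ≤ a := by
    have : (R - a) / a < N := by linarith
    rw [div_lt_iff₀ ha] at this
    rw [hh, div_le_iff₀ hNp]
    linarith
  have hhe : 3 * B * h * (R - a) ≤ e := by
    have : 3 * B * (R - a) ^ 2 / e < N := by linarith
    rw [div_lt_iff₀ he0] at this
    rw [hh]
    have e1 : 3 * B * ((R - a) / N) * (R - a) = 3 * B * (R - a) ^ 2 / N := by ring
    rw [e1, div_le_iff₀ hNp]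
    linarith
  have hτ : ∀ j : ℕ, a ≤ a + j * h := fun j => by
    have : 0 ≤ (j : ℝ) * h := by positivity
    linarith
  refine ⟨a, h, N, fun j => (1 - e) * max (fej (a + j * h) - 2 * B * h) 0, hh0, hha,
    by linarith, by linarith, by rw [hNh]; linarith, fun j hj => ?_, fun j =>
    mul_nonneg (by linarith) (le_max_right _ _), ?_, ?_⟩
  · have h1 := fej_low (τ := a + j * h) (by linarith [hτ j]) hj
    have h2 : 2 * B * h ≤ e := by
      have : 0 < B * h := by positivity
      nlinarith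
    have h3 := le_max_left (fej (a + j * h) - 2 * B * h) 0
    show 1 / 4 ≤ (1 - e) * max (fej (a + j * h) - 2 * B * h) 0
    nlinarith
  · rw [← Finset.mul_sum]
    have h1 : ∀ j : ℕ, (∫ τ in (a + j * h)..(a + (j + 1 : ℕ) * h), fej τ) ≤
        h * (fej (a + j * h) + B * h) := by
      intro j
      have e1 : a + (j + 1 : ℕ) * h = a + j * h + h := by push_cast; ring
      rw [e1]
      have hj := hτ j
      have h2 : ∫ τ in (a + j * h)..(a + j * h + h), fej τ ≤
          ∫ τ in (a + j * h)..(a + j * h + h), (fej (a + j * h) + B * h) := by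
        refine intervalIntegral.integral_mono_on (by linarith) (fej_ii (by linarith)
          (by linarith)) (by simp) fun x hx => ?_
        have h3 := fej_lip (α := a / 2) (by linarith) (by linarith [hx.1] : a / 2 ≤ x)
          (by linarith : a / 2 ≤ a + j * h)
        rw [← hB] at h3
        have h4 : |x - (a + j * h)| ≤ h := by
          rw [abs_le]
          constructor <;> linarith [hx.1, hx.2]
        have h5 := le_abs_self (fej x - fej (a + j * h))
        have h6 : B * |x - (a + j * h)| ≤ B * h := mul_le_mul_of_nonneg_left h4 hB0.le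
        linarith
      refine h2.trans (le_of_eq ?_)
      rw [intervalIntegral.integral_const, smul_eq_mul]
      ring
    have h2 : ∑ j ∈ Finset.range N, (∫ τ in (a + j * h)..(a + (j + 1 : ℕ) * h), fej τ) =
        ∫ τ in a..R, fej τ := by
      have := intervalIntegral.sum_integral_adjacent_intervals (f := fej) (μ := volume)
        (a := fun j : ℕ => a + j * h) (n := N) fun k _ => fej_ii (by linarith [hτ k])
          (by linarith [hτ (k + 1)])
      rw [this]
      simp only [Nat.cast_zero, zero_mul, add_zero]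
      rw [hNh]
      congr 1
      ring
    have h3 : ∑ j ∈ Finset.range N, (∫ τ in (a + j * h)..(a + (j + 1 : ℕ) * h), fej τ) ≤
        ∑ j ∈ Finset.range N, (h * max (fej (a + j * h) - 2 * B * h) 0 + 3 * B * h ^ 2) := by
      refine Finset.sum_le_sum fun j _ => (h1 j).trans ?_
      have : h * (fej (a + j * h) - 2 * B * h) ≤ h * max (fej (a + j * h) - 2 * B * h) 0 :=
        mul_le_mul_of_nonneg_left (le_max_left _ _) hh0.le
      nlinarith
    rw [h2, Finset.sum_add_distrib, ← Finset.mul_sum, Finset.sum_const, Finset.card_range,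
      nsmul_eq_mul] at h3
    have h4 : (N : ℝ) * (3 * B * h ^ 2) = 3 * B * h * (R - a) := by
      rw [← hNh]
      ring
    rw [h4] at h3
    obtain ⟨S, hS⟩ : ∃ S, S = ∑ j ∈ Finset.range N, max (fej (a + j * h) - 2 * B * h) 0 :=
      ⟨_, rfl⟩
    rw [← hS] at h3 ⊢
    have h5 : π - 2 * e ≤ h * S := by linarith
    have hpi := Real.pi_gt_three
    have h6 : (1 - e) * (π - 2 * e) ≤ (1 - e) * (h * S) :=
      mul_le_mul_of_nonneg_left h5 (by linarith)
    have h7 : π * (1 - d) ≤ (1 - e) * (π - 2 * e) := by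
      have : d = 2 * e := by linarith
      rw [this]
      nlinarith
    linarith
  · filter_upwards [eventually_ge_atTop (2 / e), eventually_ge_atTop (R / h),
      eventually_ge_atTop 2] with T hT1 hT2 hT3 j hj t ht
    rw [div_le_iff₀ he0] at hT1
    rw [div_le_iff₀ hh0] at hT2
    have hTp : 0 < T := by linarith
    obtain ⟨δ, hδ⟩ : ∃ δ, δ = Real.log (1 + 1 / T) := ⟨_, rfl⟩
    rw [← hδ]
    have hu : δ * T ≤ 1 := by
      have h1 := Real.log_le_sub_one_of_pos (x := 1 + 1 / T) (by positivity)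
      have h2 : δ ≤ 1 / T := by rw [hδ]; linarith
      have h3 := mul_le_mul_of_nonneg_right h2 hTp.le
      rwa [one_div, inv_mul_cancel₀ hTp.ne'] at h3
    have hl : 1 - 1 / T ≤ δ * T := by
      have h1 := Real.one_sub_inv_le_log_of_pos (x := 1 + 1 / T) (by positivity)
      rw [← hδ] at h1
      have h2 : 1 - (1 + 1 / T)⁻¹ = 1 / (T + 1) := by
        field_simp
        ring
      rw [h2] at h1
      have h3 := mul_le_mul_of_nonneg_right h1 hTp.le
      refine le_trans ?_ h3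
      rw [one_div_mul_eq_div, le_div_iff₀ (by linarith)]
      have : (1 - 1 / T) * (T + 1) = T - 1 / T := by
        field_simp
        ring
      rw [this]
      have : 0 < 1 / T := by positivity
      linarith
    have h1T : 1 / T ≤ e / 2 := by
      rw [div_le_iff₀ hTp]
      linarith
    have h1T2 : 1 / T ≤ 1 / 2 := one_div_le_one_div_of_le (by norm_num) hT3
    have hδ0 : 0 < δ := by
      by_contra hc
      have : δ * T ≤ 0 := mul_nonpos_of_nonpos_of_nonneg (not_lt.1 hc) hTp.le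
      linarith
    have hjN : (j : ℝ) + 1 ≤ N := by exact_mod_cast hj
    have hτR : a + j * h + h ≤ R := by nlinarith
    obtain ⟨τ, hτe⟩ : ∃ τ, τ = a + j * h := ⟨_, rfl⟩
    have hτa : a ≤ τ := by rw [hτe]; exact hτ j
    rw [← hτe] at ht hτR ⊢
    have ht0 : 0 < t := lt_of_le_of_lt (mul_nonneg (by linarith) hTp.le) ht.1
    have k1 : δ * t ≤ τ + h := by
      have : δ * t ≤ δ * ((τ + h) * T) := mul_le_mul_of_nonneg_left ht.2 hδ0.le
      have h5 : δ * ((τ + h) * T) = (τ + h) * (δ * T) := by ring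
      have h6 : (τ + h) * (δ * T) ≤ (τ + h) * 1 := mul_le_mul_of_nonneg_left hu (by linarith)
      linarith
    have k2 : τ - h ≤ δ * t := by
      have h4 : δ * (τ * T) ≤ δ * t := mul_le_mul_of_nonneg_left ht.1.le hδ0.le
      have h5 : δ * (τ * T) = τ * (δ * T) := by ring
      have h6 : τ * (1 - 1 / T) ≤ τ * (δ * T) := mul_le_mul_of_nonneg_left hl (by linarith)
      have h7 : τ * (1 / T) ≤ h := by
        rw [mul_one_div, div_le_iff₀ hTp]
        nlinarith
      linarith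
    have k3 : a / 2 ≤ δ * t := by
      have h4 : δ * (τ * T) ≤ δ * t := mul_le_mul_of_nonneg_left ht.1.le hδ0.le
      have h5 : δ * (τ * T) = τ * (δ * T) := by ring
      have h6 : τ * (1 / 2) ≤ τ * (δ * T) := mul_le_mul_of_nonneg_left (by linarith) (by linarith)
      linarith
    have k4 := fej_lip (α := a / 2) (by linarith) k3 (by linarith : a / 2 ≤ τ)
    rw [← hB] at k4
    have k5 : |δ * t - τ| ≤ h := by
      rw [abs_le]
      constructor <;> linarith
    have k6 : B * |δ * t - τ| ≤ B * h := mul_le_mul_of_nonneg_left k5 hB0.le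
    have k7 := neg_abs_le (fej (δ * t) - fej τ)
    have k8 : max (fej τ - 2 * B * h) 0 ≤ fej (δ * t) := by
      refine max_le ?_ (fej_nonneg _)
      have : 0 < B * h := by positivity
      linarith
    have k9 : (1 - e) / T ^ 2 ≤ δ ^ 2 := by
      rw [div_le_iff₀ (by positivity)]
      have : δ ^ 2 * T ^ 2 = (δ * T) ^ 2 := by ring
      rw [this]
      nlinarith
    unfold wd
    rw [fej_scale hδ0 ht0]
    refine ENNReal.ofReal_le_ofReal ?_
    calc (1 - e) * max (fej τ - 2 * B * h) 0 / T ^ 2 =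
          (1 - e) / T ^ 2 * max (fej τ - 2 * B * h) 0 := by ring
      _ ≤ δ ^ 2 * fej (δ * t) := mul_le_mul k9 k8 (le_max_right _ _) (by positivity)

end Pool.Agent.H7.LH
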