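import Pool.Agent.H7.PS.Ker

/-! The mean square of the transform of the primes against the kernel of one window. -/

open MeasureTheory Filter Topology Real
open scoped ENNReal

namespace Pool.Agent.H7.LH

open Pool.Agent.H7.PS

/-- the kernel of the window -/
noncomputable def wd (δ t : ℝ) : ℝ≥0∞ := ENNReal.ofReal ((2 - 2 * Real.cos (δ * t)) / t ^ 2)

lemma wd_meas (δ : ℝ) : Measurable (wd δ) :=
  (Measurable.div (Continuous.measurable (by fun_prop)) (measurable_id.pow_const 2)).ennreal_ofReal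

lemma wd_neg (δ t : ℝ) : wd δ (-t) = wd δ t := by
  unfold wd
  rw [mul_neg, Real.cos_neg, neg_sq]

lemma bessel_delta (m1 m2 : Measure ℝ) [IsFiniteMeasure m1] [IsFiniteMeasure m2] {δ : ℝ}
    (hδ : 0 < δ) : ∫⁻ t, wd δ t * ‖charFun m1 t - charFun m2 t‖ₑ ^ 2 ≤
      ENNReal.ofReal (2 * π) * ∫⁻ v, ENNReal.ofReal ((bm m1 δ v - bm m2 δ v) ^ 2) := by
  have hE := (bm_int m1 hδ).sub (bm_int m2 hδ)
  have h1 := bessel hE ((bm_meas m1 δ).sub (bm_meas m2 δ))
  refine le_trans (le_of_eq ?_) h1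
  refine lintegral_congr_ae ?_
  have hn0 : ∀ᵐ x : ℝ, x ≠ 0 := by
    rw [ae_iff]
    simp
  filter_upwards [hn0] with t ht
  have h2 : ft (bm m1 δ - bm m2 δ) t = kap δ t * (charFun m1 t - charFun m2 t) := by
    have h3 : ft (bm m1 δ - bm m2 δ) t = ft (bm m1 δ) t - ft (bm m2 δ) t := by
      unfold ft
      rw [← integral_sub (ft_int (bm_int m1 hδ) t) (ft_int (bm_int m2 hδ) t)]
      refine integral_congr_ae (Eventually.of_forall fun v => ?_)
      show ((bm m1 δ - bm m2 δ) v : ℂ) * _ = _ - _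
      rw [Pi.sub_apply]
      push_cast
      ring
    rw [h3, ft_bm m1 hδ, ft_bm m2 hδ]
    ring
  rw [h2, enorm_mul, mul_pow]
  congr 1
  unfold wd
  rw [← kap_sq hδ ht, ENNReal.ofReal_pow (norm_nonneg _), ofReal_norm]

/-- the bound for one centre -/
lemma one_delta (u : ℝ) {δ η : ℝ} (hδ : 0 < δ) (hη : 0 < η) :
    ∫⁻ t in Set.Ioi (0 : ℝ), wd δ t * PH (u, t) ≤
      ENNReal.ofReal π * (ENNReal.ofReal (1 + η) * (∫⁻ v, w0 u v * qd (v, δ)) +
        ENNReal.ofReal (1 + 1 / η) * (ENNReal.ofReal δ *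
          ∫⁻ s in Set.Ioc 0 δ, ∫⁻ w, w1 u w * qd (w, s))) := by
  have h0 := half_line (f := fun t => wd δ t * PH (u, t)) (fun t => by
    show wd δ (-t) * PH (u, -t) = _
    unfold PH
    rw [ph_neg, wd_neg])
  have h1 := h0.trans (bessel_delta (mu rho1 u) (mu rho2 u) hδ)
  have e2 : ENNReal.ofReal (2 * π) = 2 * ENNReal.ofReal π := by
    rw [ENNReal.ofReal_mul (by norm_num), ENNReal.ofReal_ofNat]
  rw [e2, mul_assoc] at h1
  have h2 := (ENNReal.mul_le_mul_iff_right (by norm_num) (by norm_num)).1 h1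
  refine h2.trans (mul_le_mul_right ?_ _)
  obtain ⟨Φ, hΦ⟩ : ∃ Φ : ℝ → ℝ → ℝ≥0∞, Φ = fun w s => w1 u w * qd (w, s) := ⟨_, rfl⟩
  have hΦm : Measurable (Function.uncurry Φ) := by
    simp only [hΦ, Function.uncurry_def]
    exact (w1_meas.comp (measurable_const.prodMk measurable_fst)).mul qd_meas
  obtain ⟨q0, hq0⟩ : ∃ q0 : ℝ → ℝ≥0∞, q0 = fun v => w0 u v * qd (v, δ) := ⟨_, rfl⟩
  have hq1 : Measurable q0 := by
    rw [hq0]
    exact (w0_meas.comp (measurable_const.prodMk measurable_id)).mul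
      (qd_meas.comp (measurable_id.prodMk measurable_const))
  obtain ⟨Ψ, hΨ⟩ : ∃ Ψ : ℝ → ℝ≥0∞, Ψ = fun s => ∫⁻ w, Φ w s := ⟨_, rfl⟩
  have hin : ∫⁻ v, ∫⁻ r in Set.Ioc 0 δ, Φ (v + r) (δ - r) ≤ ∫⁻ s in Set.Ioc 0 δ, Ψ s := by
    rw [lintegral_lintegral_swap]
    · have h1 : ∀ r : ℝ, ∫⁻ v, Φ (v + r) (δ - r) = Ψ (δ - r) := fun r => by
        rw [hΨ]
        exact lintegral_add_right_eq_self (μ := volume) (fun v => Φ v (δ - r)) r
      simp_rw [h1]
      have h2 : ∫⁻ r in Set.Ioc 0 δ, Ψ (δ - r) = ∫⁻ s in Set.Ico 0 δ, Ψ s := by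
        rw [← lintegral_indicator measurableSet_Ioc, ← lintegral_indicator measurableSet_Ico]
        refine Eq.trans ?_ (lintegral_sub_left_eq_self ((Set.Ico 0 δ).indicator Ψ) δ)
        refine lintegral_congr fun r => ?_
        by_cases hr : r ∈ Set.Ioc 0 δ
        · rw [Set.indicator_of_mem hr, Set.indicator_of_mem
            (show δ - r ∈ Set.Ico 0 δ from ⟨by linarith [hr.2], by linarith [hr.1]⟩)]
        · rw [Set.indicator_of_notMem hr, Set.indicator_of_notMem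
            (show δ - r ∉ Set.Ico 0 δ from fun h => hr ⟨by linarith [h.2], by linarith [h.1]⟩)]
      rw [h2, setLIntegral_congr Ico_ae_eq_Ioc]
    · have : Measurable fun p : ℝ × ℝ => Φ (p.1 + p.2) (δ - p.2) :=
        hΦm.comp ((measurable_fst.add measurable_snd).prodMk (measurable_const.sub measurable_snd))
      exact this.aemeasurable
  have h3 : ∫⁻ v, ENNReal.ofReal ((bm (mu rho1 u) δ v - bm (mu rho2 u) δ v) ^ 2) ≤
      ∫⁻ v, (ENNReal.ofReal (1 + η) * q0 v + ENNReal.ofReal (1 + 1 / η) * (ENNReal.ofReal δ *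
        ∫⁻ r in Set.Ioc 0 δ, Φ (v + r) (δ - r))) := by
    refine lintegral_mono fun v => ?_
    rw [hq0, hΦ]
    exact win_le u v hδ hη
  refine h3.trans ?_
  rw [lintegral_add_left (hq1.const_mul _), lintegral_const_mul _ hq1,
    lintegral_const_mul' _ _ ENNReal.ofReal_ne_top,
    lintegral_const_mul' _ _ ENNReal.ofReal_ne_top]
  have h4 : ∫⁻ s in Set.Ioc 0 δ, Ψ s = ∫⁻ s in Set.Ioc 0 δ, ∫⁻ w, w1 u w * qd (w, s) := by
    rw [hΨ, hΦ]
  have h5 : ∫⁻ v, q0 v = ∫⁻ v, w0 u v * qd (v, δ) := by rw [hq0]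
  rw [← h4, ← h5]
  exact add_le_add le_rfl (mul_le_mul_right (mul_le_mul_right hin _) _)

/-- **the bound for superpositions** -/
theorem ker_one {δ η : ℝ} (hδ : 0 < δ) (hη : 0 < η) {k : ℝ → ℝ≥0∞} (hk : Measurable k) :
    ∫⁻ t in Set.Ioi (0 : ℝ), wd δ t * ∫⁻ u in Set.Ioi (0 : ℝ), k u * PH (u, t) ≤
      ENNReal.ofReal π * (ENNReal.ofReal (1 + η) * (∫⁻ v, Om0 k v * qd (v, δ)) +
        ENNReal.ofReal (1 + 1 / η) * (ENNReal.ofReal δ *
          ∫⁻ s in Set.Ioc 0 δ, ∫⁻ w, Om1 k w * qd (w, s))) := by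
  have hP := PH_meas
  have hq := qd_meas
  have e1 : ∫⁻ t in Set.Ioi (0 : ℝ), wd δ t * ∫⁻ u in Set.Ioi (0 : ℝ), k u * PH (u, t) =
      ∫⁻ u in Set.Ioi (0 : ℝ), k u * ∫⁻ t in Set.Ioi (0 : ℝ), wd δ t * PH (u, t) := by
    have a1 : ∀ t, wd δ t * ∫⁻ u in Set.Ioi (0 : ℝ), k u * PH (u, t) =
        ∫⁻ u in Set.Ioi (0 : ℝ), wd δ t * (k u * PH (u, t)) := fun t => by
      have m1 : Measurable fun u : ℝ => k u * PH (u, t) :=
        hk.mul (hP.comp (measurable_id.prodMk measurable_const))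
      rw [lintegral_const_mul _ m1]
    simp_rw [a1]
    rw [lintegral_lintegral_swap]
    · refine lintegral_congr fun u => ?_
      have m1 : Measurable fun t : ℝ => wd δ t * PH (u, t) :=
        (wd_meas δ).mul (hP.comp (measurable_const.prodMk measurable_id))
      rw [← lintegral_const_mul _ m1]
      refine lintegral_congr fun t => ?_
      ring
    · have : Measurable fun p : ℝ × ℝ => wd δ p.1 * (k p.2 * PH (p.2, p.1)) :=
        ((wd_meas δ).comp measurable_fst).mul ((hk.comp measurable_snd).mul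
          (hP.comp (measurable_snd.prodMk measurable_fst)))
      exact this.aemeasurable
  have e2 : ∀ (w : ℝ → ℝ → ℝ≥0∞) (_ : Measurable fun p : ℝ × ℝ => w p.1 p.2) (s : ℝ),
      ∫⁻ u in Set.Ioi (0 : ℝ), k u * ∫⁻ v, w u v * qd (v, s) =
      ∫⁻ v, (∫⁻ u in Set.Ioi (0 : ℝ), k u * w u v) * qd (v, s) := by
    intro w hw s
    have a1 : ∀ u, k u * ∫⁻ v, w u v * qd (v, s) = ∫⁻ v, k u * (w u v * qd (v, s)) := fun u => by
      have m1 : Measurable fun v : ℝ => w u v * qd (v, s) :=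
        (hw.comp (measurable_const.prodMk measurable_id)).mul
          (hq.comp (measurable_id.prodMk measurable_const))
      rw [lintegral_const_mul _ m1]
    simp_rw [a1]
    rw [lintegral_lintegral_swap]
    · refine lintegral_congr fun v => ?_
      have m1 : Measurable fun u : ℝ => k u * w u v :=
        hk.mul (hw.comp (measurable_id.prodMk measurable_const))
      rw [← lintegral_mul_const _ m1]
      refine lintegral_congr fun u => ?_
      ring
    · have : Measurable fun p : ℝ × ℝ => k p.1 * (w p.1 p.2 * qd (p.2, s)) :=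
        (hk.comp measurable_fst).mul (hw.mul (hq.comp (measurable_snd.prodMk measurable_const)))
      exact this.aemeasurable
  rw [e1]
  have m0 : Measurable fun u => ∫⁻ v, w0 u v * qd (v, δ) := by
    have : Measurable fun p : ℝ × ℝ => w0 p.1 p.2 * qd (p.2, δ) :=
      w0_meas.mul (hq.comp (measurable_snd.prodMk measurable_const))
    exact this.lintegral_prod_right'
  have m1 : Measurable fun u => ∫⁻ s in Set.Ioc 0 δ, ∫⁻ w, w1 u w * qd (w, s) := by
    have h1 : Measurable fun p : (ℝ × ℝ) × ℝ => w1 p.1.1 p.2 * qd (p.2, p.1.2) :=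
      (w1_meas.comp ((measurable_fst.comp measurable_fst).prodMk measurable_snd)).mul
        (hq.comp (measurable_snd.prodMk (measurable_snd.comp measurable_fst)))
    have h2 : Measurable fun p : ℝ × ℝ => ∫⁻ w, w1 p.1 w * qd (w, p.2) := h1.lintegral_prod_right'
    exact h2.lintegral_prod_right'
  have e3 : ∫⁻ u in Set.Ioi (0 : ℝ), k u * ∫⁻ s in Set.Ioc 0 δ, ∫⁻ w, w1 u w * qd (w, s) =
      ∫⁻ s in Set.Ioc 0 δ, ∫⁻ w, Om1 k w * qd (w, s) := by
    obtain ⟨G, hG⟩ : ∃ G : ℝ → ℝ → ℝ≥0∞, ∀ u s, G u s = ∫⁻ w, w1 u w * qd (w, s) :=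
      ⟨_, fun _ _ => rfl⟩
    have h2 : Measurable fun p : ℝ × ℝ => G p.1 p.2 := by
      have h1 : Measurable fun p : (ℝ × ℝ) × ℝ => w1 p.1.1 p.2 * qd (p.2, p.1.2) :=
        (w1_meas.comp ((measurable_fst.comp measurable_fst).prodMk measurable_snd)).mul
          (hq.comp (measurable_snd.prodMk (measurable_snd.comp measurable_fst)))
      have h3 : Measurable fun p : ℝ × ℝ => ∫⁻ w, w1 p.1 w * qd (w, p.2) :=
        h1.lintegral_prod_right'
      have h4 : (fun p : ℝ × ℝ => G p.1 p.2) = fun p : ℝ × ℝ => ∫⁻ w, w1 p.1 w * qd (w, p.2) := by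
        funext p
        exact hG _ _
      rw [h4]
      exact h3
    simp_rw [← hG]
    have a1 : ∀ u, k u * ∫⁻ s in Set.Ioc 0 δ, G u s =
        ∫⁻ s in Set.Ioc 0 δ, k u * G u s := fun u => by
      have h3 : Measurable fun s : ℝ => G u s :=
        h2.comp (measurable_const.prodMk measurable_id)
      rw [lintegral_const_mul _ h3]
    simp_rw [a1]
    rw [lintegral_lintegral_swap]
    · refine lintegral_congr fun s => ?_
      have h5 := e2 w1 w1_meas s
      have h6 : ∀ v, ∫⁻ u in Set.Ioi (0 : ℝ), k u * w1 u v = Om1 k v := fun v => rfl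
      simp_rw [h6, ← hG] at h5
      exact h5
    · have : Measurable fun p : ℝ × ℝ => k p.1 * G p.1 p.2 :=
        (hk.comp measurable_fst).mul h2
      exact this.aemeasurable
  calc ∫⁻ u in Set.Ioi (0 : ℝ), k u * ∫⁻ t in Set.Ioi (0 : ℝ), wd δ t * PH (u, t) ≤
      ∫⁻ u in Set.Ioi (0 : ℝ), (ENNReal.ofReal π * ENNReal.ofReal (1 + η) *
        (k u * ∫⁻ v, w0 u v * qd (v, δ)) + ENNReal.ofReal π * (ENNReal.ofReal (1 + 1 / η) *
        ENNReal.ofReal δ) * (k u * ∫⁻ s in Set.Ioc 0 δ, ∫⁻ w, w1 u w * qd (w, s))) := by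
        refine lintegral_mono fun u => ?_
        refine (mul_le_mul_right (one_delta u hδ hη) _).trans (le_of_eq ?_)
        ring
    _ = ENNReal.ofReal π * ENNReal.ofReal (1 + η) *
        (∫⁻ u in Set.Ioi (0 : ℝ), k u * ∫⁻ v, w0 u v * qd (v, δ)) +
        ENNReal.ofReal π * (ENNReal.ofReal (1 + 1 / η) * ENNReal.ofReal δ) *
        ∫⁻ u in Set.Ioi (0 : ℝ), k u * ∫⁻ s in Set.Ioc 0 δ, ∫⁻ w, w1 u w * qd (w, s) := by
        have n0 : Measurable fun u => k u * ∫⁻ v, w0 u v * qd (v, δ) := hk.mul m0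
        have n1 : Measurable fun u => k u * ∫⁻ s in Set.Ioc 0 δ, ∫⁻ w, w1 u w * qd (w, s) :=
          hk.mul m1
        have n2 : Measurable fun u => ENNReal.ofReal π * ENNReal.ofReal (1 + η) *
          (k u * ∫⁻ v, w0 u v * qd (v, δ)) := n0.const_mul _
        rw [lintegral_add_left n2, lintegral_const_mul _ n0, lintegral_const_mul _ n1]
    _ = _ := by
        rw [e3, e2 w0 w0_meas δ]
        have e4 : ∀ v, ∫⁻ u in Set.Ioi (0 : ℝ), k u * w0 u v = Om0 k v := fun v => rfl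
        simp_rw [e4]
        ring

end Pool.Agent.H7.LH
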