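import Pool.Agent.H7.LH.Pos
import Pool.Agent.H7.LH.Ker1

/-! The lower bound for one window. -/

open MeasureTheory Filter Topology Real
open scoped ENNReal ContDiff

namespace Pool.Agent.H7.LH

open H370 TH803TW Pool.Agent.Y744 Pool.Agent.H7.PS Pool.Agent.H7.FF

variable {κ : ℝ} {K G : ℝ → ℝ}

lemma kT_measw (hK : TK κ K) (T : ℝ) : Measurable (kT K T) := by
  unfold kT
  exact (hK.cont.comp (by fun_prop : Continuous fun u : ℝ =>
    u / Real.log T)).measurable.ennreal_ofReal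

lemma block_swapw (hK : TK κ K) {T : ℝ} (hT : 1 < T) (P Q : ℝ) :
    ∫⁻ α in Set.Ioi (0 : ℝ), ENNReal.ofReal (K α) *
      ∫⁻ t in Set.Ioc P Q, PH (α * Real.log T, t) =
    ENNReal.ofReal (Real.log T)⁻¹ * ∫⁻ t in Set.Ioc P Q,
      ∫⁻ u in Set.Ioi (0 : ℝ), kT K T u * PH (u, t) := by
  have hL : 0 < Real.log T := Real.log_pos hT
  have h1 := scale_lint hL (fun u => kT K T u * ∫⁻ t in Set.Ioc P Q, PH (u, t))
  have h2 : ∀ α, kT K T (α * Real.log T) = ENNReal.ofReal (K α) := by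
    intro α
    unfold kT
    congr 2
    field_simp
  simp only [h2] at h1
  rw [h1]
  congr 1
  have hk := kT_measw hK T
  have hm : Measurable fun p : ℝ × ℝ => kT K T p.1 * PH p := (hk.comp measurable_fst).mul PH_meas
  rw [← lintegral_lintegral_swap]
  · refine lintegral_congr fun u => ?_
    rw [lintegral_const_mul]
    exact PH_meas.comp (measurable_const.prodMk measurable_id)
  · exact hm.aemeasurable

lemma win_gen (RH : RiemannHypothesis) (hG : TK κ G) (hκ0 : 0 ≤ κ) (hκ : κ ≤ 1)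
    (hG0 : ∀ x, 0 ≤ G x) (hG1 : ∀ x, G x ≤ 1) {A : ℝ} (hA : 1 ≤ A) {a c η : ℝ} (ha : 0 < a)
    (hac : a < c) (hc2 : c ≤ 2 * a) (hη : 0 < η) : ∃ C1 : ℝ, 0 < C1 ∧ ∀ b : ℝ, A + 1 ≤ b →
    ∀ᶠ T : ℝ in atTop,
      ENNReal.ofReal ((QS (Zb (a * T) (c * T)) (Zb (a * T) (c * T)) mz (fun s => s.im)
        (ct (str G b)) (Real.log T) / (T * Real.log T) - C1) * (T * Real.log T ^ 2)) ≤
      ENNReal.ofReal ((1 + η) / (π * Real.sqrt π)) * ∫⁻ t in Set.Ioc (a * T) (c * T),
        ∫⁻ u in Set.Ioi (0 : ℝ), kT (Kb G A b) T u * PH (u, t) := by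
  obtain ⟨C2, V2, hC2, hV2, hnear⟩ := QS_near RH (ch_TK (A := A) (by linarith))
  refine ⟨2 * C2 * a + 1, by positivity, fun b hb => ?_⟩
  have hb0 : 0 < b := by linarith
  obtain ⟨C3, V3, hC3, hV3, hwin⟩ := QS_win RH (Kb_TK hG (by linarith : 0 ≤ A) hb0) (by positivity)
    (Kb_nonneg hG0 hb0) (fun x hx1 hx2 => Kb_zero (by linarith)
      (by rw [abs_of_pos hx1]; linarith)) hη
  have hlo := Real.isLittleO_log_id_atTop.bound (c := (c - a) / 4) (by linarith)
  filter_upwards [log_ratio ha, eventually_ge_atTop (V2 / a),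
    eventually_ge_atTop (V3 / a), Real.tendsto_log_atTop.eventually_ge_atTop (C3 * a),
    hlo, eventually_gt_atTop 1] with T hlr hT2 hT3 hTl hlo hT
  obtain ⟨l1, l2, l3⟩ := hlr
  rw [div_le_iff₀ ha] at hT2 hT3
  have hTpos : 0 < T := by linarith
  have hL : 0 < Real.log T := Real.log_pos hT
  have hpi := Real.pi_pos
  have haT : 10 ≤ a * T := by linarith
  have hacT : c * T ≤ 2 * (a * T) := by nlinarith
  rw [Real.norm_eq_abs, abs_of_pos hL, id, Real.norm_eq_abs, abs_of_pos hTpos] at hlo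
  have hPQ : a * T + 2 * Real.log (a * T) ≤ c * T := by linarith
  have h1 := hwin (a * T) (by linarith) (a * T) (c * T) le_rfl hacT hPQ (Real.log T) l1 l2
  rw [block_swapw (Kb_TK hG (by linarith : 0 ≤ A) hb0) hT] at h1
  have h2 := QS_Kb0 hG hκ hG0 hG1 (by linarith : 0 ≤ A) hb (Zb (a * T) (c * T)) (Real.log T)
  have h3 := hnear (a * T) (by linarith) (a * T) (c * T) le_rfl hacT (Real.log T) l1
  obtain ⟨I, hI⟩ : ∃ I, I = ∫⁻ t in Set.Ioc (a * T) (c * T), ∫⁻ u in Set.Ioi (0 : ℝ),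
      kT (Kb G A b) T u * PH (u, t) := ⟨_, rfl⟩
  rw [← hI] at h1 ⊢
  obtain ⟨Y, hY⟩ : ∃ Y, Y = QS (Zb (a * T) (c * T)) (Zb (a * T) (c * T)) mz (fun s => s.im)
        (ct (str G b)) (Real.log T) := ⟨_, rfl⟩
  rw [← hY] at h2 ⊢
  obtain ⟨X, hX⟩ : ∃ X, X = Y - 2 * C2 * a * (T * Real.log T) := ⟨_, rfl⟩
  have h4 : X ≤ QS (Zb (a * T) (c * T)) (Zb (a * T) (c * T)) mz (fun s => s.im)
      (ct (Kb G A b)) (Real.log T) := by
    have k2 : C2 * (a * T * Real.log (a * T)) ≤ C2 * (a * T * (2 * Real.log T)) := by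
      refine mul_le_mul_of_nonneg_left (mul_le_mul_of_nonneg_left l3 (by positivity)) hC2.le
    have k3 : X = Y - C2 * (a * T * (2 * Real.log T)) := by
      rw [hX]
      ring
    linarith
  have h5 : ENNReal.ofReal (X - C3 * (a * T)) ≤ ENNReal.ofReal ((1 + η) / (π * Real.sqrt π)) *
      (ENNReal.ofReal (Real.log T)⁻¹ * I) := by
    rw [ENNReal.ofReal_sub _ (by positivity)]
    exact tsub_le_iff_right.2 ((ENNReal.ofReal_le_ofReal h4).trans h1)
  have h6 : (Y / (T * Real.log T) - (2 * C2 * a + 1)) * (T * Real.log T ^ 2) ≤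
      Real.log T * (X - C3 * (a * T)) := by
    have k1 : C3 * (a * T) ≤ Real.log T * T := by
      rw [← mul_assoc]
      exact mul_le_mul_of_nonneg_right hTl hTpos.le
    have k2 : (Y / (T * Real.log T) - (2 * C2 * a + 1)) * (T * Real.log T ^ 2) =
        Real.log T * (X - Real.log T * T) := by
      rw [hX]
      field_simp
      ring
    rw [k2]
    exact mul_le_mul_of_nonneg_left (by linarith) hL.le
  calc ENNReal.ofReal ((Y / (T * Real.log T) - (2 * C2 * a + 1)) *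
        (T * Real.log T ^ 2)) ≤ ENNReal.ofReal (Real.log T * (X - C3 * (a * T))) :=
        ENNReal.ofReal_le_ofReal h6
    _ = ENNReal.ofReal (Real.log T) * ENNReal.ofReal (X - C3 * (a * T)) :=
        ENNReal.ofReal_mul hL.le
    _ ≤ ENNReal.ofReal (Real.log T) * (ENNReal.ofReal ((1 + η) / (π * Real.sqrt π)) *
      (ENNReal.ofReal (Real.log T)⁻¹ * I)) := mul_le_mul_right h5 _
    _ = (ENNReal.ofReal (Real.log T) * ENNReal.ofReal (Real.log T)⁻¹) *
        (ENNReal.ofReal ((1 + η) / (π * Real.sqrt π)) * I) := by ring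
    _ = _ := by
        rw [← ENNReal.ofReal_mul hL.le, mul_inv_cancel₀ hL.ne', ENNReal.ofReal_one, one_mul]

/-- the lower bound for the pair sums of one window -/
lemma QS_count (hct : ∀ x, 0 ≤ ct G x) {a c η : ℝ} (ha : 0 < a) (hac : a < c) (hη : 0 < η) :
    ∀ᶠ T : ℝ in atTop, ∀ b : ℝ, 0 < b → b * ct G 0 * (c - a - η) / (2 * π) ≤
      QS (Zb (a * T) (c * T)) (Zb (a * T) (c * T)) mz (fun s => s.im)
        (ct (str G b)) (Real.log T) / (T * Real.log T) := by
  filter_upwards [count_ge ha hac hη, eventually_gt_atTop 1] with T hcount hT b hb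
  have hTpos : 0 < T := by linarith
  have hL : 0 < Real.log T := Real.log_pos hT
  have hpi := Real.pi_pos
  have h4 := QS_diag (str_ct_nonneg hct hb) (Zb (a * T) (c * T)) (Real.log T)
  rw [str_ct G hb, mul_zero] at h4
  have hct0 := hct 0
  have k1 : b * ct G 0 * ((c - a - η) * Xf T) ≤ b * ct G 0 *
      ∑ s ∈ Zb (a * T) (c * T), mz s := mul_le_mul_of_nonneg_left hcount (by positivity)
  rw [le_div_iff₀ (by positivity)]
  refine le_trans (le_of_eq ?_) (k1.trans h4)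
  unfold Xf
  ring

end Pool.Agent.H7.LH
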