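import Pool.Agent.H7.LH.Win
import Pool.Agent.H7.LH.Rsm
import Pool.Agent.H7.LH.Err

/-! The lower bound under the Riemann hypothesis. -/

open MeasureTheory Filter Topology Real
open scoped ENNReal

namespace Pool.Agent.H7.LH

open H370 TH803TW Pool.Agent.Y744 Pool.Agent.H7.PS Pool.Agent.H7.FF

variable {G : ℝ → ℝ} {ε A b : ℝ}

lemma Om0_tri (hG0 : ∀ x, 0 ≤ G x) (hGt : ∀ x, G x ≤ max (1 - ε - |x|) 0) (hε : 0 < ε)
    (hε1 : ε < 1 / 4) (hA : 0 ≤ A) (hb : 1 ≤ b) {T : ℝ} (hT : 1 < T) (v : ℝ) :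
    Om0 (kT (Kb G (A + 1) b) T) v ≤ (Set.Ioi (A * Real.log T)).indicator (fun v => ENNReal.ofReal (Real.sqrt π) *
      ENNReal.ofReal (1 - v / (b * Real.log T))) v +
      ENNReal.ofReal (Real.exp (-(ε * Real.log T) ^ 2 / 2)) * Om1 (kT (Kb G (A + 1) b) T) v := by
  have hL : 0 < Real.log T := Real.log_pos hT
  have hb0 : 0 < b := by linarith
  obtain ⟨Z, hZ⟩ : ∃ Z, Z = (Set.Ioi (A * Real.log T)).indicator (fun v =>
      ENNReal.ofReal (1 - v / (b * Real.log T))) v := ⟨_, rfl⟩
  have hZ2 : (Set.Ioi (A * Real.log T)).indicator (fun v => ENNReal.ofReal (Real.sqrt π) *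
      ENNReal.ofReal (1 - v / (b * Real.log T))) v = ENNReal.ofReal (Real.sqrt π) * Z := by
    rw [hZ]
    by_cases h : v ∈ Set.Ioi (A * Real.log T)
    · rw [Set.indicator_of_mem h, Set.indicator_of_mem h]
    · rw [Set.indicator_of_notMem h, Set.indicator_of_notMem h, mul_zero]
  rw [hZ2]
  have hZtop : Z ≠ ⊤ := by
    rw [hZ]
    by_cases h : v ∈ Set.Ioi (A * Real.log T)
    · rw [Set.indicator_of_mem h]; exact ENNReal.ofReal_ne_top
    · rw [Set.indicator_of_notMem h]; exact ENNReal.zero_ne_top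
  unfold Om0 Om1
  have key : ∀ u ∈ Set.Ioi (0 : ℝ), kT (Kb G (A + 1) b) T u * ENNReal.ofReal (Real.exp (-(u - v) ^ 2)) ≤
      ENNReal.ofReal (Real.exp (-1 * (u - v) ^ 2)) * Z +
      ENNReal.ofReal (Real.exp (-(ε * Real.log T) ^ 2 / 2)) * (kT (Kb G (A + 1) b) T u *
        ENNReal.ofReal (4 * Real.exp (-(u - v) ^ 2 / 2))) := by
    intro u hu
    have hu0 : (0 : ℝ) < u := hu
    rcases le_or_gt |u - v| (ε * Real.log T) with h1 | h1
    · refine le_add_right ?_
      rw [mul_comm, neg_one_mul]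
      refine mul_le_mul_right ?_ _
      by_cases hz : Kb G (A + 1) b (u / Real.log T) = 0
      · unfold kT
        rw [hz, ENNReal.ofReal_zero]
        exact zero_le
      · have h2 : A + 1 < u / Real.log T := by
          by_contra hc
          refine hz (Kb_zero (by linarith) ?_)
          rw [abs_of_pos (by positivity)]
          exact not_lt.1 hc
        rw [lt_div_iff₀ hL] at h2
        have h3 := (abs_le.1 h1).2
        have hv : A * Real.log T < v := by nlinarith
        rw [hZ, Set.indicator_of_mem (show v ∈ Set.Ioi (A * Real.log T) from hv)]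
        unfold kT
        have h4 := (Kb_le (A := A + 1) hG0 hb0 (u / Real.log T)).trans (hGt _)
        have h5 : 1 - ε - |b⁻¹ * (u / Real.log T)| ≤ 1 - v / (b * Real.log T) := by
          rw [abs_of_pos (by positivity)]
          have h6 : b⁻¹ * (u / Real.log T) = u / (b * Real.log T) := by
            field_simp
          have h7 : v / (b * Real.log T) ≤ u / (b * Real.log T) + ε := by
            rw [div_add' _ _ _ (by positivity)]
            refine div_le_div_of_nonneg_right ?_ (by positivity)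
            have h8 := (abs_le.1 h1).1
            have h9 : ε * Real.log T ≤ ε * (b * Real.log T) := by
              refine mul_le_mul_of_nonneg_left ?_ hε.le
              nlinarith
            linarith
          rw [h6]
          linarith
        have h6 := h4.trans (max_le_max h5 le_rfl)
        refine (ENNReal.ofReal_le_ofReal h6).trans (le_of_eq ?_)
        rcases le_total (1 - v / (b * Real.log T)) 0 with h7 | h7
        · rw [max_eq_right h7, ENNReal.ofReal_zero, ENNReal.ofReal_of_nonpos h7]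
        · rw [max_eq_left h7]
    · refine le_add_left ?_
      rw [mul_left_comm]
      refine mul_le_mul_right ?_ _
      rw [← ENNReal.ofReal_mul (Real.exp_pos _).le]
      refine ENNReal.ofReal_le_ofReal ?_
      have h2 : (ε * Real.log T) ^ 2 ≤ (u - v) ^ 2 := by
        rw [← sq_abs (u - v)]
        exact pow_le_pow_left₀ (by positivity) h1.le 2
      have h3 : Real.exp (-(u - v) ^ 2) ≤ Real.exp (-(ε * Real.log T) ^ 2 / 2) *
          Real.exp (-(u - v) ^ 2 / 2) := by
        rw [← Real.exp_add]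
        exact Real.exp_le_exp.2 (by linarith)
      have h4 : 0 < Real.exp (-(ε * Real.log T) ^ 2 / 2) * Real.exp (-(u - v) ^ 2 / 2) := by
        positivity
      linarith
  refine (setLIntegral_mono' measurableSet_Ioi key).trans ?_
  have m1 : Measurable fun u => ENNReal.ofReal (Real.exp (-1 * (u - v) ^ 2)) * Z :=
    (Continuous.measurable (by fun_prop)).ennreal_ofReal.mul_const _
  rw [lintegral_add_left m1, lintegral_mul_const' _ _ hZtop,
    lintegral_const_mul' _ _ ENNReal.ofReal_ne_top]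
  refine add_le_add (mul_le_mul_left ?_ _) le_rfl
  refine (setLIntegral_le_lintegral _ _).trans (le_of_eq ?_)
  rw [gauss_lint one_pos, div_one]

lemma ofReal_sum_le {N : ℕ} (f : ℕ → ℝ) : ENNReal.ofReal (∑ j ∈ Finset.range N, f j) ≤
    ∑ j ∈ Finset.range N, ENNReal.ofReal (f j) := by
  induction N with
  | zero => simp
  | succ n ih =>
    rw [Finset.sum_range_succ, Finset.sum_range_succ]
    exact ENNReal.ofReal_add_le.trans (add_le_add ih le_rfl)

/-- the windows -/
lemma sum_wd {δ T : ℝ} {N : ℕ} {m aw cw : ℕ → ℝ} (ha : ∀ j, 0 ≤ aw j * T)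
    (hw : ∀ t, ∑ j ∈ Finset.range N, (Set.Ioc (aw j * T) (cw j * T)).indicator
      (fun _ => ENNReal.ofReal (m j / T ^ 2)) t ≤ wd δ t) {F : ℝ → ℝ≥0∞} (hF : Measurable F) :
    ∑ j ∈ Finset.range N, ENNReal.ofReal (m j / T ^ 2) *
      ∫⁻ t in Set.Ioc (aw j * T) (cw j * T), F t ≤
      ∫⁻ t in Set.Ioi (0 : ℝ), wd δ t * F t := by
  have h1 : ∀ j, ENNReal.ofReal (m j / T ^ 2) * ∫⁻ t in Set.Ioc (aw j * T) (cw j * T), F t ≤
      ∫⁻ t in Set.Ioi (0 : ℝ), (Set.Ioc (aw j * T) (cw j * T)).indicator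
        (fun _ => ENNReal.ofReal (m j / T ^ 2)) t * F t := by
    intro j
    rw [← lintegral_const_mul' _ _ ENNReal.ofReal_ne_top]
    refine le_trans ?_ (lintegral_mono_set (s := Set.Ioc (aw j * T) (cw j * T))
      fun t ht => lt_of_le_of_lt (ha j) ht.1)
    refine setLIntegral_mono' measurableSet_Ioc fun t ht => ?_
    rw [Set.indicator_of_mem ht]
  refine (Finset.sum_le_sum fun j _ => h1 j).trans ?_
  rw [← lintegral_finsetSum]
  · refine lintegral_mono fun t => ?_
    show ∑ j ∈ Finset.range N, (Set.Ioc (aw j * T) (cw j * T)).indicator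
        (fun _ => ENNReal.ofReal (m j / T ^ 2)) t * F t ≤ wd δ t * F t
    rw [← Finset.sum_mul]
    exact mul_le_mul_left (hw t) _
  · intro j _
    exact (measurable_const.indicator measurableSet_Ioc).mul hF

/-- at most one window contains a given point -/
lemma pt_one {a h T : ℝ} (hh : 0 < h) (hT : 0 < T) (N : ℕ) (f : ℕ → ℝ≥0∞) (t : ℝ) :
    ((∀ j < N, t ∉ Set.Ioc ((a + j * h) * T) ((a + j * h + h) * T)) ∧
      ∑ j ∈ Finset.range N, (Set.Ioc ((a + j * h) * T) ((a + j * h + h) * T)).indicator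
        (fun _ => f j) t = 0) ∨
    ∃ j < N, t ∈ Set.Ioc ((a + j * h) * T) ((a + j * h + h) * T) ∧
      ∑ j ∈ Finset.range N, (Set.Ioc ((a + j * h) * T) ((a + j * h + h) * T)).indicator
        (fun _ => f j) t = f j := by
  by_cases hc : ∃ j < N, t ∈ Set.Ioc ((a + j * h) * T) ((a + j * h + h) * T)
  · right
    obtain ⟨j, hj, ht⟩ := hc
    refine ⟨j, hj, ht, ?_⟩
    rw [Finset.sum_eq_single j]
    · rw [Set.indicator_of_mem ht]
    · intro i _ hij
      refine Set.indicator_of_notMem (fun h1 => ?_) _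
      have hlt : ∀ i j : ℕ, i < j → t ∈ Set.Ioc ((a + i * h) * T) ((a + i * h + h) * T) →
          t ∈ Set.Ioc ((a + j * h) * T) ((a + j * h + h) * T) → False := by
        intro i j hij h1 h2
        have h3 : (i : ℝ) + 1 ≤ j := by exact_mod_cast hij
        have h4 : a + i * h + h ≤ a + j * h := by nlinarith
        have h5 : (a + i * h + h) * T ≤ (a + j * h) * T := mul_le_mul_of_nonneg_right h4 hT.le
        linarith [h1.2, h2.1]
      rcases lt_or_gt_of_ne hij with h2 | h2
      · exact hlt i j h2 h1 ht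
      · exact hlt j i h2 ht h1
    · intro h1
      exact absurd (Finset.mem_range.2 hj) h1
  · left
    push Not at hc
    refine ⟨hc, Finset.sum_eq_zero fun j hj => ?_⟩
    exact Set.indicator_of_notMem (hc j (Finset.mem_range.1 hj)) _

/-- the normalised pair sum of a window -/
noncomputable def Pw (G : ℝ → ℝ) (a c b T : ℝ) : ℝ :=
  QS (Zb (a * T) (c * T)) (Zb (a * T) (c * T)) mz (fun s => s.im)
        (ct (str G b)) (Real.log T) / (T * Real.log T)

/-- the average over the scales -/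
noncomputable def Jf (A b T : ℝ) : ℝ≥0∞ :=
  ∫⁻ v in Set.Ioi (A * Real.log T), ENNReal.ofReal (1 - v / (b * Real.log T)) *
        qd (v, Real.log (1 + 1 / T))

/-- **from the pair sums to the primes** -/
theorem rh_gen (RH : RiemannHypothesis) (hA : 0 ≤ A) (hε : 0 < ε) (hε1 : ε < 1 / 4)
    (hG : TK (1 - ε) G) (hG0 : ∀ x, 0 ≤ G x)
    (hGt : ∀ x, G x ≤ max (1 - ε - |x|) 0) {η : ℝ} (hη0 : 0 < η) {N : ℕ} {m aw cw : ℕ → ℝ}
    (ha : ∀ j, 0 < aw j) (hac : ∀ j, aw j < cw j) (hc2 : ∀ j, cw j ≤ 2 * aw j)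
    (hm : ∀ j, 0 ≤ m j)
    (hev : ∀ᶠ T : ℝ in atTop, ∀ t, ∑ j ∈ Finset.range N,
      (Set.Ioc (aw j * T) (cw j * T)).indicator (fun _ => ENNReal.ofReal (m j / T ^ 2)) t ≤
        wd (Real.log (1 + 1 / T)) t) :
    ∃ C1 : ℕ → ℝ, (∀ j, 0 < C1 j) ∧ ∀ b : ℝ, A + 2 ≤ b → ∀ᶠ T : ℝ in atTop,
      ENNReal.ofReal (Real.log T ^ 2 / T * (∑ j ∈ Finset.range N, m j *
        (Pw G (aw j) (cw j) b T - C1 j) - 1)) ≤
      ENNReal.ofReal ((1 + η) ^ 2) * Jf A b T := by
  have hG1 : ∀ x, G x ≤ 1 := fun x => (hGt x).trans (max_le (by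
    have := abs_nonneg x
    linarith) (by norm_num))
  have hwl : ∀ j : ℕ, ∃ C1 : ℝ, 0 < C1 ∧ ∀ b : ℝ, A + 1 + 1 ≤ b → ∀ᶠ T : ℝ in atTop,
      ENNReal.ofReal ((Pw G (aw j) (cw j) b T - C1) *
        (T * Real.log T ^ 2)) ≤
      ENNReal.ofReal ((1 + η) / (π * Real.sqrt π)) *
        ∫⁻ t in Set.Ioc ((aw j) * T) ((cw j) * T),
        ∫⁻ u in Set.Ioi (0 : ℝ), kT (Kb G (A + 1) b) T u * PH (u, t) := fun j =>
    win_gen RH hG (by linarith) (by linarith) hG0 hG1 (A := A + 1) (by linarith) (ha j) (hac j)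
      (hc2 j) hη0
  choose C1 hC1 hwin using hwl
  refine ⟨C1, hC1, fun b hb => ?_⟩
  have hbA : A + 1 + 1 ≤ b := by linarith
  have hb1 : 1 ≤ b := by linarith
  have hb0 : 0 < b := by linarith
  obtain ⟨C, hC, herr⟩ := err_int RH (b := b) (Kb_TK hG (by linarith : 0 ≤ A + 1) hb0)
    (by nlinarith) hb1 (fun x => (Kb_le hG0 hb0 x).trans (hG1 _))
  have hall : ∀ᶠ T : ℝ in atTop, ∀ j ∈ Finset.range N,
      ENNReal.ofReal ((Pw G (aw j) (cw j) b T - C1 j) *
        (T * Real.log T ^ 2)) ≤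
      ENNReal.ofReal ((1 + η) / (π * Real.sqrt π)) *
        ∫⁻ t in Set.Ioc ((aw j) * T) ((cw j) * T),
        ∫⁻ u in Set.Ioi (0 : ℝ), kT (Kb G (A + 1) b) T u * PH (u, t) :=
    (Filter.eventually_all_finset _).2 fun j _ => hwin j b hbA
  -- the error terms are small
  have t1 : ∀ᶠ T : ℝ in atTop, (1 + η) / Real.sqrt π * ((1 + η) *
      (Real.exp (-(ε * Real.log T) ^ 2 / 2) * (C * (Real.log T * Real.sqrt T))) +
      (1 + 1 / η) * (C * (Real.log T * Real.sqrt T) / T ^ 2)) ≤ Real.log T ^ 2 / T := by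
    obtain ⟨B, hB⟩ : ∃ B, B = (1 + η) / Real.sqrt π * ((1 + η) * C + (1 + 1 / η) * C) := ⟨_, rfl⟩
    have hpi := Real.pi_pos
    have hB0 : 0 < B := by rw [hB]; positivity
    have s1 : Tendsto (fun T : ℝ => Real.sqrt T) atTop atTop := by
      simp_rw [Real.sqrt_eq_rpow]
      exact tendsto_rpow_atTop (by norm_num)
    filter_upwards [s1.eventually_ge_atTop B, Real.tendsto_log_atTop.eventually_ge_atTop 1,
      Real.tendsto_log_atTop.eventually_ge_atTop (4 / ε ^ 2), eventually_ge_atTop 1]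
      with T hs hl hl2 hT
    have hTp : 0 < T := by linarith
    rw [div_le_iff₀ (by positivity)] at hl2
    have x1 : Real.exp (-(ε * Real.log T) ^ 2 / 2) ≤ 1 / T ^ 2 := by
      have : 1 / T ^ 2 = Real.exp (-(2 * Real.log T)) := by
        rw [Real.exp_neg, mul_comm, Real.exp_mul, Real.exp_log hTp, one_div, Real.rpow_two]
      rw [this]
      refine Real.exp_le_exp.2 ?_
      have : 4 * Real.log T ≤ (ε * Real.log T) ^ 2 := by nlinarith
      linarith
    have hsq : Real.sqrt T * Real.sqrt T = T := Real.mul_self_sqrt hTp.le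
    have hst : 0 < Real.sqrt T := Real.sqrt_pos.2 hTp
    have x2 : (1 + η) / Real.sqrt π * ((1 + η) *
        (Real.exp (-(ε * Real.log T) ^ 2 / 2) * (C * (Real.log T * Real.sqrt T))) +
        (1 + 1 / η) * (C * (Real.log T * Real.sqrt T) / T ^ 2)) ≤
        B * (Real.log T * Real.sqrt T / T ^ 2) := by
      have x3 : Real.exp (-(ε * Real.log T) ^ 2 / 2) * (C * (Real.log T * Real.sqrt T)) ≤
          1 / T ^ 2 * (C * (Real.log T * Real.sqrt T)) :=
        mul_le_mul_of_nonneg_right x1 (by positivity)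
      have x4 : (1 + η) * (Real.exp (-(ε * Real.log T) ^ 2 / 2) *
          (C * (Real.log T * Real.sqrt T))) ≤ (1 + η) * (1 / T ^ 2 *
          (C * (Real.log T * Real.sqrt T))) := mul_le_mul_of_nonneg_left x3 (by positivity)
      have x5 : B * (Real.log T * Real.sqrt T / T ^ 2) = (1 + η) / Real.sqrt π * ((1 + η) *
          (1 / T ^ 2 * (C * (Real.log T * Real.sqrt T))) +
          (1 + 1 / η) * (C * (Real.log T * Real.sqrt T) / T ^ 2)) := by
        rw [hB]
        ring
      rw [x5]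
      refine mul_le_mul_of_nonneg_left (by linarith) (by positivity)
    refine x2.trans ?_
    rw [← mul_div_assoc, div_le_div_iff₀ (by positivity) hTp]
    have x6 : B * (Real.log T * Real.sqrt T) * T ≤ Real.sqrt T * (Real.log T * Real.sqrt T) * T := by
      refine mul_le_mul_of_nonneg_right (mul_le_mul_of_nonneg_right hs (by positivity)) hTp.le
    have x7 : Real.sqrt T * (Real.log T * Real.sqrt T) * T = Real.log T * T ^ 2 := by
      calc _ = Real.log T * (Real.sqrt T * Real.sqrt T) * T := by ring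
        _ = _ := by rw [hsq]; ring
    have x8 : Real.log T * T ^ 2 ≤ Real.log T ^ 2 * T ^ 2 := by
      refine mul_le_mul_of_nonneg_right ?_ (by positivity)
      nlinarith
    linarith
  filter_upwards [hall, hev, t1, eventually_gt_atTop 1] with T hall hev t1 hT
  have hTp : 0 < T := by linarith
  have hL : 0 < Real.log T := Real.log_pos hT
  have hpi := Real.pi_pos
  have hsp : 0 < Real.sqrt π := Real.sqrt_pos.2 hpi
  obtain ⟨δ, hδ⟩ : ∃ δ, δ = Real.log (1 + 1 / T) := ⟨_, rfl⟩
  unfold Jf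
  rw [← hδ] at hev ⊢
  have hδ0 : 0 < δ := by
    rw [hδ]
    refine Real.log_pos ?_
    have : 0 < 1 / T := by positivity
    linarith
  have hδT : δ ≤ 1 / T := by
    have h1 := Real.log_le_sub_one_of_pos (x := 1 + 1 / T) (by positivity)
    rw [hδ]
    linarith
  have hδ1 : δ ≤ 1 := hδT.trans (by
    rw [div_le_one hTp]
    exact hT.le)
  obtain ⟨k, hk⟩ : ∃ k, k = kT (Kb G (A + 1) b) T := ⟨_, rfl⟩
  have hkm : Measurable k := by rw [hk]; exact kT_measw (Kb_TK hG (by linarith : 0 ≤ A + 1) hb0) T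
  rw [← hk] at hall
  obtain ⟨F, hF⟩ : ∃ F : ℝ → ℝ≥0∞, F = fun t => ∫⁻ u in Set.Ioi (0 : ℝ), k u * PH (u, t) :=
    ⟨_, rfl⟩
  have hFm : Measurable F := by
    rw [hF]
    have m1 : Measurable fun p : ℝ × ℝ => k p.2 * PH (p.2, p.1) :=
      (hkm.comp measurable_snd).mul (PH_meas.comp measurable_swap)
    exact m1.lintegral_prod_right'
  obtain ⟨J, hJ⟩ : ∃ J, J = ∫⁻ v in Set.Ioi (A * Real.log T),
      ENNReal.ofReal (1 - v / (b * Real.log T)) * qd (v, δ) := ⟨_, rfl⟩
  have hker := ker_one hδ0 hη0 hkm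
  have hker' : ∫⁻ t in Set.Ioi (0 : ℝ), wd δ t * F t ≤
      ENNReal.ofReal π * (ENNReal.ofReal (1 + η) * (∫⁻ v, Om0 k v * qd (v, δ)) +
        ENNReal.ofReal (1 + 1 / η) * (ENNReal.ofReal δ *
          ∫⁻ s in Set.Ioc 0 δ, ∫⁻ w, Om1 k w * qd (w, s))) := by
    rw [hF]
    exact hker
  -- the prime side
  have p1 : ∫⁻ v, Om0 k v * qd (v, δ) ≤ ENNReal.ofReal (Real.sqrt π) * J +
      ENNReal.ofReal (Real.exp (-(ε * Real.log T) ^ 2 / 2) *
        (C * (Real.log T * Real.sqrt T))) := by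
    have q1 : ∫⁻ v, Om0 k v * qd (v, δ) ≤ ∫⁻ v, ((Set.Ioi (A * Real.log T)).indicator (fun v =>
        ENNReal.ofReal (Real.sqrt π) * (ENNReal.ofReal (1 - v / (b * Real.log T)) *
          qd (v, δ))) v +
        ENNReal.ofReal (Real.exp (-(ε * Real.log T) ^ 2 / 2)) * (Om1 k v * qd (v, δ))) := by
      refine lintegral_mono fun v => ?_
      have h1 := Om0_tri (b := b) hG0 hGt hε hε1 hA hb1 hT v
      rw [← hk] at h1
      refine (mul_le_mul_left h1 _).trans (le_of_eq ?_)
      rw [add_mul]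
      congr 1
      · by_cases hv : v ∈ Set.Ioi (A * Real.log T)
        · rw [Set.indicator_of_mem hv, Set.indicator_of_mem hv]
          ring
        · rw [Set.indicator_of_notMem hv, Set.indicator_of_notMem hv, zero_mul]
      · ring
    refine q1.trans ?_
    have m2 : Measurable fun v => Om1 k v * qd (v, δ) :=
      (Om1_meas hkm).mul (qd_meas.comp (measurable_id.prodMk measurable_const))
    rw [lintegral_add_right _ (m2.const_mul _), lintegral_indicator measurableSet_Ioi,
      lintegral_const_mul' _ _ ENNReal.ofReal_ne_top, lintegral_const_mul' _ _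
      ENNReal.ofReal_ne_top, ← hJ]
    refine add_le_add le_rfl ?_
    have h2 := herr T hT δ hδ0 hδ1
    rw [← hk] at h2
    refine (mul_le_mul_right h2 _).trans (le_of_eq ?_)
    rw [← ENNReal.ofReal_mul (Real.exp_pos _).le]
  have p2 : ENNReal.ofReal δ * ∫⁻ s in Set.Ioc 0 δ, ∫⁻ w, Om1 k w * qd (w, s) ≤
      ENNReal.ofReal (C * (Real.log T * Real.sqrt T) / T ^ 2) := by
    have h1 : ∫⁻ s in Set.Ioc 0 δ, ∫⁻ w, Om1 k w * qd (w, s) ≤
        ∫⁻ s in Set.Ioc 0 δ, ENNReal.ofReal (C * (Real.log T * Real.sqrt T)) := by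
      refine setLIntegral_mono' measurableSet_Ioc fun s hs => ?_
      have h2 := herr T hT s hs.1 (hs.2.trans hδ1)
      rw [← hk] at h2
      exact h2
    rw [setLIntegral_const, Real.volume_Ioc, sub_zero] at h1
    refine (mul_le_mul_right h1 _).trans ?_
    rw [← ENNReal.ofReal_mul (by positivity), ← ENNReal.ofReal_mul (by positivity)]
    refine ENNReal.ofReal_le_ofReal ?_
    have h3 : δ * δ ≤ 1 / T * (1 / T) := mul_le_mul hδT hδT hδ0.le (by positivity)
    have h4 : 0 ≤ C * (Real.log T * Real.sqrt T) := by positivity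
    calc δ * (C * (Real.log T * Real.sqrt T) * δ) = C * (Real.log T * Real.sqrt T) * (δ * δ) := by
          ring
      _ ≤ C * (Real.log T * Real.sqrt T) * (1 / T * (1 / T)) := mul_le_mul_of_nonneg_left h3 h4
      _ = _ := by ring
  -- the side of the zeros
  have z1 : ∑ j ∈ Finset.range N, ENNReal.ofReal (m j / T ^ 2) *
      ENNReal.ofReal ((Pw G (aw j) (cw j) b T - C1 j) *
        (T * Real.log T ^ 2)) ≤ ENNReal.ofReal ((1 + η) / (π * Real.sqrt π)) *
      ∫⁻ t in Set.Ioi (0 : ℝ), wd δ t * F t := by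
    refine le_trans ?_ (mul_le_mul_right (sum_wd (fun j => (mul_pos (ha j) hTp).le) hev hFm) _)
    rw [Finset.mul_sum]
    refine Finset.sum_le_sum fun j hj => ?_
    refine (mul_le_mul_right (hall j hj) _).trans (le_of_eq ?_)
    rw [hF]
    ring
  obtain ⟨B, hB⟩ : ∃ B, B = ∑ j ∈ Finset.range N, m j *
        (Pw G (aw j) (cw j) b T - C1 j) := ⟨_, rfl⟩
  rw [← hB]
  have z2 : ENNReal.ofReal (Real.log T ^ 2 / T * B) ≤ ∑ j ∈ Finset.range N,
      ENNReal.ofReal (m j / T ^ 2) *
      ENNReal.ofReal ((Pw G (aw j) (cw j) b T - C1 j) *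
        (T * Real.log T ^ 2)) := by
    have h1 := ofReal_sum_le (N := N) (fun j => m j / T ^ 2 *
      ((Pw G (aw j) (cw j) b T - C1 j) * (T * Real.log T ^ 2)))
    have h2 : ∑ j ∈ Finset.range N, ENNReal.ofReal (m j / T ^ 2 *
        ((Pw G (aw j) (cw j) b T - C1 j) *
        (T * Real.log T ^ 2))) = ∑ j ∈ Finset.range N,
      ENNReal.ofReal (m j / T ^ 2) *
      ENNReal.ofReal ((Pw G (aw j) (cw j) b T - C1 j) *
        (T * Real.log T ^ 2)) := by
      refine Finset.sum_congr rfl fun j _ => ?_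
      rw [ENNReal.ofReal_mul (div_nonneg (hm j) (by positivity))]
    rw [h2] at h1
    refine le_trans (ENNReal.ofReal_le_ofReal (le_of_eq ?_)) h1
    rw [hB, Finset.mul_sum]
    refine Finset.sum_congr rfl fun j _ => ?_
    field_simp
  have f1 : ENNReal.ofReal (Real.log T ^ 2 / T * B) ≤ ENNReal.ofReal ((1 + η) ^ 2) * J +
      ENNReal.ofReal (Real.log T ^ 2 / T) := by
    have h1 := z2.trans (z1.trans (mul_le_mul_right hker' _))
    refine h1.trans ?_
    have h2 : ENNReal.ofReal (1 + η) * (∫⁻ v, Om0 k v * qd (v, δ)) +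
        ENNReal.ofReal (1 + 1 / η) * (ENNReal.ofReal δ *
          ∫⁻ s in Set.Ioc 0 δ, ∫⁻ w, Om1 k w * qd (w, s)) ≤
        ENNReal.ofReal (1 + η) * (ENNReal.ofReal (Real.sqrt π) * J +
          ENNReal.ofReal (Real.exp (-(ε * Real.log T) ^ 2 / 2) *
          (C * (Real.log T * Real.sqrt T)))) + ENNReal.ofReal (1 + 1 / η) *
          ENNReal.ofReal (C * (Real.log T * Real.sqrt T) / T ^ 2) :=
      add_le_add (mul_le_mul_right p1 _) (mul_le_mul_right p2 _)
    refine (mul_le_mul_right (mul_le_mul_right h2 _) _).trans ?_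
    have e1 : ENNReal.ofReal ((1 + η) / (π * Real.sqrt π)) * (ENNReal.ofReal π *
        (ENNReal.ofReal (1 + η) * (ENNReal.ofReal (Real.sqrt π) * J +
          ENNReal.ofReal (Real.exp (-(ε * Real.log T) ^ 2 / 2) *
          (C * (Real.log T * Real.sqrt T)))) + ENNReal.ofReal (1 + 1 / η) *
          ENNReal.ofReal (C * (Real.log T * Real.sqrt T) / T ^ 2))) =
        (ENNReal.ofReal ((1 + η) / (π * Real.sqrt π)) * ENNReal.ofReal π *
          ENNReal.ofReal (1 + η) * ENNReal.ofReal (Real.sqrt π)) * J +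
        (ENNReal.ofReal ((1 + η) / (π * Real.sqrt π)) * ENNReal.ofReal π) *
          (ENNReal.ofReal (1 + η) * ENNReal.ofReal (Real.exp (-(ε * Real.log T) ^ 2 / 2) *
          (C * (Real.log T * Real.sqrt T))) + ENNReal.ofReal (1 + 1 / η) *
          ENNReal.ofReal (C * (Real.log T * Real.sqrt T) / T ^ 2)) := by ring
    rw [e1]
    refine add_le_add (le_of_eq ?_) ?_
    · rw [← ENNReal.ofReal_mul (by positivity), ← ENNReal.ofReal_mul (by positivity),
        ← ENNReal.ofReal_mul (by positivity)]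
      congr 2
      field_simp
    · rw [← ENNReal.ofReal_mul (by positivity), ← ENNReal.ofReal_mul (by positivity),
        ← ENNReal.ofReal_mul (by positivity), ← ENNReal.ofReal_add (by positivity) (by positivity),
        ← ENNReal.ofReal_mul (by positivity)]
      refine ENNReal.ofReal_le_ofReal (le_trans (le_of_eq ?_) t1)
      field_simp
  have h1 : Real.log T ^ 2 / T * (B - 1) = Real.log T ^ 2 / T * B - Real.log T ^ 2 / T := by ring
  rw [h1, ENNReal.ofReal_sub _ (by positivity), ← hJ]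
  exact tsub_le_iff_right.2 f1

/-- **the lower bound under the Riemann hypothesis** -/
theorem rh_true (RH : RiemannHypothesis) {A : ℝ} (hA : 0 ≤ A) {d : ℝ} (hd : 0 < d) (hd1 : d < 1) :
    ∃ b0 : ℝ, 1 ≤ b0 ∧ ∀ b : ℝ, b0 ≤ b → ∀ᶠ T : ℝ in atTop,
      ENNReal.ofReal ((1 - d) * (b / 2) * (Real.log T ^ 2 / T)) ≤ Jf A b T := by
  obtain ⟨e, he⟩ : ∃ e, e = d / 10 := ⟨_, rfl⟩
  have he0 : 0 < e := by linarith
  have he1 : e < 1 / 10 := by linarith
  obtain ⟨G, hG, hG0, hct, hGt, hctG⟩ := exists_tri (ε := e / 6) (by linarith) (by linarith)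
  obtain ⟨a, h, N, m, hh, hha, -, -, -, -, hm, hsum, hev⟩ := riem he0 (by linarith)
  have ha : 0 < a := by linarith
  obtain ⟨η, hη⟩ : ∃ η, η = e * min h 1 := ⟨_, rfl⟩
  have hmin : 0 < min h 1 := lt_min hh one_pos
  have hη0 : 0 < η := by rw [hη]; positivity
  have hηe : η ≤ e := by
    rw [hη]
    exact mul_le_of_le_one_right he0.le (min_le_right _ _)
  have hηh : η ≤ e * h := by
    rw [hη]
    exact mul_le_mul_of_nonneg_left (min_le_left _ _) he0.le
  have hjh : ∀ j : ℕ, 0 ≤ (j : ℝ) * h := fun j => by positivity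
  have hev2 : ∀ᶠ T : ℝ in atTop, ∀ t, ∑ j ∈ Finset.range N,
      (Set.Ioc ((a + j * h) * T) ((a + j * h + h) * T)).indicator
        (fun _ => ENNReal.ofReal (m j / T ^ 2)) t ≤ wd (Real.log (1 + 1 / T)) t := by
    filter_upwards [hev, eventually_gt_atTop 0] with T h1 hT t
    rcases pt_one hh hT N (fun j => ENNReal.ofReal (m j / T ^ 2)) t with ⟨-, h2⟩ | ⟨j, hj, ht, h2⟩
    · rw [h2]
      exact zero_le
    · rw [h2]
      exact h1 j hj t ht
  obtain ⟨C1, hC1, hgen⟩ := rh_gen RH hA (by linarith) (by linarith) hG hG0 hGt hη0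
    (aw := fun j => a + j * h) (cw := fun j => a + j * h + h) (fun j => by linarith [hjh j])
    (fun j => by linarith) (fun j => by linarith [hjh j]) hm hev2
  obtain ⟨C2, hC2⟩ : ∃ C2, C2 = ∑ j ∈ Finset.range N, m j * C1 j := ⟨_, rfl⟩
  have hC20 : 0 ≤ C2 := by
    rw [hC2]
    exact Finset.sum_nonneg fun j _ => mul_nonneg (hm j) (hC1 j).le
  refine ⟨max (A + 2) (4 * (C2 + 1) / d), le_trans (by linarith) (le_max_left _ _),
    fun b hb => ?_⟩
  have hbA : A + 2 ≤ b := (le_max_left _ _).trans hb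
  have hb2 : 4 * (C2 + 1) / d ≤ b := (le_max_right _ _).trans hb
  rw [div_le_iff₀ hd] at hb2
  have hb0 : 0 < b := by linarith
  have hall : ∀ᶠ T : ℝ in atTop, ∀ j ∈ Finset.range N, ∀ b : ℝ, 0 < b →
      b * ct G 0 * ((a + j * h + h) - (a + j * h) - η) / (2 * π) ≤
        Pw G (a + j * h) (a + j * h + h) b T :=
    (Filter.eventually_all_finset _).2 fun j _ => by
      have hj : 0 ≤ (j : ℝ) * h := by positivity
      exact QS_count (a := a + j * h) (c := a + j * h + h) hct (by linarith) (by linarith) hη0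
  filter_upwards [hall, hgen b hbA, eventually_gt_atTop 1] with T hall hgen hT
  have hTp : 0 < T := by linarith
  have hL : 0 < Real.log T := Real.log_pos hT
  have hpi := Real.pi_pos
  obtain ⟨B, hB⟩ : ∃ B, B = (b / 2) * ((1 - e) ^ 2 * (1 - e)) - C2 := ⟨_, rfl⟩
  have z2 : B ≤ ∑ j ∈ Finset.range N, m j * (Pw G (a + j * h) (a + j * h + h) b T - C1 j) := by
    have h3 : b * ct G 0 * (h - η) / (2 * π) * (∑ j ∈ Finset.range N, m j) - C2 ≤
        ∑ j ∈ Finset.range N, m j * (Pw G (a + j * h) (a + j * h + h) b T - C1 j) := by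
      rw [hC2, Finset.mul_sum, ← Finset.sum_sub_distrib]
      refine Finset.sum_le_sum fun j hj => ?_
      have k1 := mul_le_mul_of_nonneg_left (hall j hj b hb0) (hm j)
      have k2 : (a + j * h + h) - (a + j * h) - η = h - η := by ring
      rw [k2] at k1
      linarith
    refine le_trans ?_ h3
    rw [hB]
    obtain ⟨S, hS⟩ : ∃ S, S = ∑ j ∈ Finset.range N, m j := ⟨_, rfl⟩
    rw [← hS] at hsum ⊢
    have hS0 : 0 ≤ S := by rw [hS]; exact Finset.sum_nonneg fun j _ => hm j
    have h4 : (1 - e) * (h * S) ≤ (h - η) * S := by nlinarith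
    have h5 : (1 - e) * (π * (1 - e)) ≤ (1 - e) * (h * S) :=
      mul_le_mul_of_nonneg_left hsum (by linarith)
    have h6 : 1 - e ≤ ct G 0 := by
      refine le_trans ?_ hctG
      nlinarith
    have h7 : (1 - e) * ((1 - e) * (π * (1 - e))) ≤ ct G 0 * ((h - η) * S) :=
      mul_le_mul h6 (h5.trans h4) (by
        have : 0 < 1 - e := by linarith
        positivity) (by linarith)
    have h8 : b * ct G 0 * (h - η) / (2 * π) * S = b / (2 * π) * (ct G 0 * ((h - η) * S)) := by
      ring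
    rw [h8]
    have h9 : b / (2 * π) * ((1 - e) * ((1 - e) * (π * (1 - e)))) ≤
        b / (2 * π) * (ct G 0 * ((h - η) * S)) := mul_le_mul_of_nonneg_left h7 (by positivity)
    have h10 : b / (2 * π) * ((1 - e) * ((1 - e) * (π * (1 - e)))) =
        b / 2 * ((1 - e) ^ 2 * (1 - e)) := by
      field_simp
    linarith
  have h20 : 0 ≤ Real.log T ^ 2 / T := by positivity
  have f2 : ENNReal.ofReal (Real.log T ^ 2 / T * (B - 1)) ≤ ENNReal.ofReal ((1 + η) ^ 2) *
      Jf A b T :=
    (ENNReal.ofReal_le_ofReal (mul_le_mul_of_nonneg_left (by linarith) h20)).trans hgen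
  have f3 : (1 + η) ^ 2 * ((1 - d) * (b / 2) * (Real.log T ^ 2 / T)) ≤
      Real.log T ^ 2 / T * (B - 1) := by
    have h1 : (1 + η) ^ 2 * ((1 - d) * (b / 2)) ≤ B - 1 := by
      have g1 : (1 + η) ^ 2 * (1 - e) ^ 2 ≤ 1 := by
        have : (1 + η) * (1 - e) ≤ 1 := by nlinarith
        have h0 : 0 ≤ (1 + η) * (1 - e) := mul_nonneg (by linarith) (by linarith)
        calc (1 + η) ^ 2 * (1 - e) ^ 2 = ((1 + η) * (1 - e)) ^ 2 := by ring
          _ ≤ 1 := by nlinarith
      have g2 : (1 - d) * (b / 2) ≤ (1 - e) ^ 2 * (B - 1) := by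
        rw [hB]
        have g3 : 1 - 5 * e ≤ (1 - e) ^ 2 * ((1 - e) ^ 2 * (1 - e)) := by
          have : (1 - e) ^ 2 * ((1 - e) ^ 2 * (1 - e)) = (1 - e) ^ 5 := by ring
          rw [this]
          have := one_add_mul_le_pow (a := -e) (by linarith) 5
          push_cast at this
          have h9 : 1 + -e = 1 - e := by ring
          rw [h9] at this
          linarith
        have g4 : (1 - e) ^ 2 * (C2 + 1) ≤ C2 + 1 := by
          refine mul_le_of_le_one_left (by linarith) ?_
          nlinarith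
        have g5 : (1 - 5 * e) * (b / 2) ≤ (1 - e) ^ 2 * ((1 - e) ^ 2 * (1 - e)) * (b / 2) :=
          mul_le_mul_of_nonneg_right g3 (by positivity)
        have g6 : (1 - d) * (b / 2) ≤ (1 - 5 * e) * (b / 2) - (C2 + 1) := by
          have : d = 10 * e := by linarith
          rw [this] at hb2 ⊢
          nlinarith
        nlinarith
      have g7 : 0 ≤ B - 1 := by
        have : 0 ≤ (1 - d) * (b / 2) := by
          have : 0 < 1 - d := by linarith
          positivity
        have g8 : 0 ≤ (1 - e) ^ 2 * (B - 1) := this.trans g2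
        have g9 : 0 < (1 - e) ^ 2 := by
          have : 0 < 1 - e := by linarith
          positivity
        exact nonneg_of_mul_nonneg_right g8 g9
      calc (1 + η) ^ 2 * ((1 - d) * (b / 2)) ≤ (1 + η) ^ 2 * ((1 - e) ^ 2 * (B - 1)) :=
            mul_le_mul_of_nonneg_left g2 (by positivity)
        _ = ((1 + η) ^ 2 * (1 - e) ^ 2) * (B - 1) := by ring
        _ ≤ 1 * (B - 1) := mul_le_mul_of_nonneg_right g1 g7
        _ = B - 1 := one_mul _
    nlinarith [mul_le_mul_of_nonneg_left h1 h20]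
  have f4 : ENNReal.ofReal ((1 + η) ^ 2) * ENNReal.ofReal ((1 - d) * (b / 2) *
      (Real.log T ^ 2 / T)) ≤ ENNReal.ofReal ((1 + η) ^ 2) * Jf A b T := by
    rw [← ENNReal.ofReal_mul (by positivity)]
    exact (ENNReal.ofReal_le_ofReal f3).trans f2
  refine (ENNReal.mul_le_mul_iff_right ?_ ENNReal.ofReal_ne_top).1 f4
  rw [Ne, ENNReal.ofReal_eq_zero, not_le]
  positivity

end Pool.Agent.H7.LH
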