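import Pool.Agent.H7.PS.Zer3

/-! Windows inside a dyadic block: the side of the zeros. -/

open Filter Topology Complex MeasureTheory
open scoped ENNReal

namespace Pool.Agent.H7.LH

open H370 TH803TW Pool.Agent.Y744 Pool.Agent.H7.PS

/-- the explicit formula for a window -/
lemma ef_win (RH : RiemannHypothesis) {a : ℝ} (ha : 0 ≤ a) : ∃ C V0 : ℝ, 0 < C ∧ 10 ≤ V0 ∧
    ∀ V : ℝ, V0 ≤ V → ∀ P Q : ℝ, V ≤ P → Q ≤ 2 * V → ∀ u t : ℝ, 0 ≤ u → u ≤ a * Real.log V →
      P + Real.log V ≤ t → t ≤ Q - Real.log V →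
      ‖AA riemannZeta P Q u t - (1 / Real.sqrt (2 * Real.pi) : ℝ) *
        (Real.log V * cexp (I * u * t) * Real.exp (-u ^ 2 / 2) - PP H370.A2.lamC u t)‖ ≤ C := by
  classical
  obtain ⟨C, V0, hC, hV0, hEF⟩ := ef_block RH ha
  obtain ⟨C2, hC2, hN⟩ := NN_crude good_zeta
  have hlim : ∀ᶠ V : ℝ in atTop, V * Real.log V * Real.exp (-(Real.log V) ^ 2 / 2) ≤ 1 := by
    filter_upwards [Real.tendsto_log_atTop.eventually_ge_atTop 8, eventually_gt_atTop 0]
      with V hV hV0
    have h1 : V = Real.exp (Real.log V) := (Real.exp_log hV0).symm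
    have h2 : Real.log V ≤ Real.exp (Real.log V) := by
      have := Real.add_one_le_exp (Real.log V)
      linarith
    have h3 : V * Real.log V ≤ Real.exp (2 * Real.log V) := by
      rw [two_mul, Real.exp_add, ← h1]
      rw [← h1] at h2
      exact mul_le_mul_of_nonneg_left h2 hV0.le
    calc V * Real.log V * Real.exp (-(Real.log V) ^ 2 / 2) ≤
        Real.exp (2 * Real.log V) * Real.exp (-(Real.log V) ^ 2 / 2) :=
          mul_le_mul_of_nonneg_right h3 (Real.exp_pos _).le
      _ ≤ 1 := by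
          rw [← Real.exp_add]
          apply Real.exp_le_one_iff.mpr
          nlinarith
  obtain ⟨V1, hV1⟩ := hlim.exists_forall_of_atTop
  refine ⟨C + C2, max V0 V1, by positivity, hV0.trans (le_max_left _ _),
    fun V hV P Q hP hQ u t hu hua h1 h2 => ?_⟩
  have hVV0 : V0 ≤ V := (le_max_left _ _).trans hV
  have hVV1 := hV1 V ((le_max_right _ _).trans hV)
  have hV10 : 10 ≤ V := hV0.trans hVV0
  have hm := hEF V hVV0 u t hu hua (by linarith) (by linarith)
  have hU : 1 ≤ P := by linarith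
  have hV1' : 1 ≤ V := by linarith
  have hsub : Zf riemannZeta P Q ⊆ Zf riemannZeta V (2 * V) := by
    intro s hs
    rw [mem_Zf good_zeta hU] at hs
    rw [mem_Zf good_zeta hV1']
    exact ⟨hs.1, hs.2.1, by linarith [hs.2.2.1], by linarith [hs.2.2.2.1], hs.2.2.2.2⟩
  have hdiff : AA riemannZeta V (2 * V) u t - AA riemannZeta P Q u t =
      ∑ s ∈ Zf riemannZeta V (2 * V) \ Zf riemannZeta P Q, (mult riemannZeta s : ℂ) * hh u t s := by
    rw [AA_eq good_zeta hU, AA_eq good_zeta hV1', ← Finset.sum_sdiff hsub]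
    ring
  have hL1 : 1 ≤ Real.log V := by
    rw [Real.le_log_iff_exp_le (by linarith)]
    linarith [Real.exp_one_lt_d9]
  have hnorm : ‖AA riemannZeta V (2 * V) u t - AA riemannZeta P Q u t‖ ≤ C2 := by
    rw [hdiff]
    have h3 : ∀ s ∈ Zf riemannZeta V (2 * V) \ Zf riemannZeta P Q,
        ‖(mult riemannZeta s : ℂ) * hh u t s‖ ≤
        (mult riemannZeta s : ℝ) * Real.exp (-(Real.log V) ^ 2 / 2) := by
      intro s hs
      rw [Finset.mem_sdiff, mem_Zf good_zeta hU, mem_Zf good_zeta hV1'] at hs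
      obtain ⟨hs1, hs2⟩ := hs
      rw [norm_mul, Complex.norm_natCast, hh_rh RH hs1]
      apply mul_le_mul_of_nonneg_left _ (Nat.cast_nonneg _)
      have h4 : s.im ≤ P ∨ Q < s.im := by
        by_contra hcon
        push Not at hcon
        exact hs2 ⟨hs1.1, hs1.2.1, hcon.1, hcon.2, hs1.2.2.2.2⟩
      have h5 : (Real.log V) ^ 2 ≤ (s.im - t) ^ 2 := by
        rcases h4 with h4 | h4
        · nlinarith
        · nlinarith
      apply Real.exp_le_exp.mpr
      linarith
    refine (norm_sum_le _ _).trans ((Finset.sum_le_sum h3).trans ?_)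
    rw [← Finset.sum_mul]
    have h4 : ∑ s ∈ Zf riemannZeta V (2 * V) \ Zf riemannZeta P Q, (mult riemannZeta s : ℝ) ≤
        C2 * (V * Real.log V) := by
      refine le_trans ?_ (hN V (by linarith) V (2 * V) le_rfl le_rfl)
      rw [NN_eq good_zeta hV1', Nat.cast_sum]
      exact Finset.sum_le_sum_of_subset_of_nonneg Finset.sdiff_subset fun _ _ _ => by positivity
    calc (∑ s ∈ Zf riemannZeta V (2 * V) \ Zf riemannZeta P Q, (mult riemannZeta s : ℝ)) *
          Real.exp (-(Real.log V) ^ 2 / 2) ≤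
          C2 * (V * Real.log V) * Real.exp (-(Real.log V) ^ 2 / 2) :=
            mul_le_mul_of_nonneg_right h4 (Real.exp_pos _).le
      _ = C2 * (V * Real.log V * Real.exp (-(Real.log V) ^ 2 / 2)) := by ring
      _ ≤ C2 * 1 := mul_le_mul_of_nonneg_left hVV1 hC2.le
      _ = C2 := mul_one _
  calc ‖AA riemannZeta P Q u t - (1 / Real.sqrt (2 * Real.pi) : ℝ) *
        (Real.log V * cexp (I * u * t) * Real.exp (-u ^ 2 / 2) - PP H370.A2.lamC u t)‖ =
      ‖(AA riemannZeta V (2 * V) u t - (1 / Real.sqrt (2 * Real.pi) : ℝ) *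
        (Real.log V * cexp (I * u * t) * Real.exp (-u ^ 2 / 2) - PP H370.A2.lamC u t)) -
        (AA riemannZeta V (2 * V) u t - AA riemannZeta P Q u t)‖ := by
        congr 1
        ring
    _ ≤ _ := norm_sub_le _ _
    _ ≤ C + C2 := add_le_add hm hnorm

/-- the pointwise bound -/
lemma AA_pt (RH : RiemannHypothesis) {a : ℝ} (ha : 0 ≤ a) : ∃ C V0 : ℝ, 0 < C ∧ 10 ≤ V0 ∧
    ∀ V : ℝ, V0 ≤ V → ∀ P Q : ℝ, V ≤ P → Q ≤ 2 * V → ∀ u t : ℝ, Real.log V / 4 ≤ u →
      u ≤ a * Real.log V → P + Real.log V ≤ t → t ≤ Q - Real.log V →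
      ‖AA riemannZeta P Q u t‖ ≤ 1 / Real.sqrt (2 * Real.pi) * ‖ph u t‖ + C := by
  obtain ⟨C, V0, hC, hV0, h⟩ := ef_win RH ha
  have ev1 : ∀ᶠ V : ℝ in atTop, Real.log V * Real.exp (-(Real.log V / 4) ^ 2 / 2) ≤ 1 := by
    filter_upwards [Real.tendsto_log_atTop.eventually_ge_atTop 32] with V hV
    have h1 : Real.log V ≤ Real.exp (Real.log V) := by
      have := Real.add_one_le_exp (Real.log V)
      linarith
    calc Real.log V * Real.exp (-(Real.log V / 4) ^ 2 / 2) ≤
        Real.exp (Real.log V) * Real.exp (-(Real.log V / 4) ^ 2 / 2) :=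
          mul_le_mul_of_nonneg_right h1 (Real.exp_pos _).le
      _ ≤ 1 := by
          rw [← Real.exp_add]
          apply Real.exp_le_one_iff.mpr
          nlinarith
  have ev2 : ∀ᶠ V : ℝ in atTop, a * Real.log V / 2 + 1 / 8 - V ^ 2 / 2 ≤ 0 := by
    have h1 := (Real.isLittleO_log_id_atTop).bound (show (0 : ℝ) < 1 / (a + 1) by positivity)
    filter_upwards [h1, eventually_ge_atTop 2] with V hV hV2
    have hl : 0 ≤ Real.log V := Real.log_nonneg (by linarith)
    rw [Real.norm_of_nonneg hl, id, Real.norm_of_nonneg (by linarith)] at hV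
    have h2 : (a + 1) * Real.log V ≤ V := by
      have h3 : (a + 1) * Real.log V ≤ (a + 1) * (1 / (a + 1) * V) :=
        mul_le_mul_of_nonneg_left hV (by linarith)
      have h4 : (a + 1) * (1 / (a + 1) * V) = V := by field_simp
      linarith
    nlinarith
  obtain ⟨V1, hV1⟩ := (ev1.and ev2).exists_forall_of_atTop
  refine ⟨C + 2, max V0 V1, by positivity, hV0.trans (le_max_left _ _),
    fun V hV P Q hP hQ u t hu hua h1 h2 => ?_⟩
  have hVV0 : V0 ≤ V := (le_max_left _ _).trans hV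
  obtain ⟨e1, e2⟩ := hV1 V ((le_max_right _ _).trans hV)
  have hV10 : 10 ≤ V := hV0.trans hVV0
  have hl1 : 1 ≤ Real.log V := by
    rw [Real.le_log_iff_exp_le (by linarith)]
    linarith [Real.exp_one_lt_d9]
  have hu0 : 0 ≤ u := by linarith
  have hm := h V hVV0 P Q hP hQ u t hu0 hua h1 h2
  have hpi := Real.pi_gt_three
  obtain ⟨c0, hc0⟩ : ∃ c0, c0 = 1 / Real.sqrt (2 * Real.pi) := ⟨_, rfl⟩
  have hc00 : 0 < c0 := by rw [hc0]; positivity
  have hc01 : c0 ≤ 1 := by
    rw [hc0, div_le_one (by positivity)]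
    exact Real.one_le_sqrt.2 (by linarith)
  rw [← hc0] at hm ⊢
  -- the pole
  have hpole : ‖(Real.log V : ℂ) * cexp (I * u * t) * Real.exp (-u ^ 2 / 2)‖ ≤ 1 := by
    rw [norm_mul, norm_mul, Complex.norm_real, Complex.norm_real,
        Real.norm_of_nonneg (by linarith), Real.norm_of_nonneg (Real.exp_pos _).le,
        show (I * u * t : ℂ) = ((u * t : ℝ) : ℂ) * I by push_cast; ring,
        Complex.norm_exp_ofReal_mul_I, mul_one]
    refine le_trans ?_ e1
    refine mul_le_mul_of_nonneg_left (Real.exp_le_exp.2 ?_) (by linarith)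
    have : (Real.log V / 4) ^ 2 ≤ u ^ 2 := pow_le_pow_left₀ (by positivity) hu 2
    linarith
  -- the primes
  have hPP : ‖PP H370.A2.lamC u t‖ ≤ ‖ph u t‖ + Real.sqrt (2 * Real.pi) := by
    rw [charFun_mu1, norm_mul, show (u * t * I : ℂ) = ((u * t : ℝ) : ℂ) * I by push_cast; ring,
      Complex.norm_exp_ofReal_mul_I, one_mul]
    have h3 : charFun (mu rho1 u) (-t) = ph u (-t) + charFun (mu rho2 u) (-t) := by
      unfold ph
      ring
    rw [h3]
    refine (norm_add_le _ _).trans (add_le_add (le_of_eq ?_) ?_)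
    · have h4 := ph_neg u t
      rw [← ofReal_norm, ← ofReal_norm, ENNReal.ofReal_eq_ofReal_iff (norm_nonneg _)
        (norm_nonneg _)] at h4
      exact h4
    · rw [charFun_mu2]
      refine mul_le_of_le_one_right (Real.sqrt_nonneg _) (Real.exp_le_one_iff.2 ?_)
      have h5 : V ^ 2 ≤ (-t) ^ 2 := by
        have h6 : V ≤ t := by linarith
        nlinarith
      linarith
  have h3 : AA riemannZeta P Q u t = (AA riemannZeta P Q u t - (c0 : ℂ) *
      (Real.log V * cexp (I * u * t) * Real.exp (-u ^ 2 / 2) - PP H370.A2.lamC u t)) +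
      (c0 : ℂ) * (Real.log V * cexp (I * u * t) * Real.exp (-u ^ 2 / 2) -
        PP H370.A2.lamC u t) := by ring
  rw [h3]
  refine (norm_add_le _ _).trans ?_
  have h4 : ‖(c0 : ℂ) * (Real.log V * cexp (I * u * t) * Real.exp (-u ^ 2 / 2) -
        PP H370.A2.lamC u t)‖ ≤ c0 * (1 + (‖ph u t‖ + Real.sqrt (2 * Real.pi))) := by
    rw [norm_mul, Complex.norm_real, Real.norm_of_nonneg hc00.le]
    refine mul_le_mul_of_nonneg_left ?_ hc00.le
    exact (norm_sub_le _ _).trans (add_le_add hpole hPP)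
  have h5 : c0 * Real.sqrt (2 * Real.pi) = 1 := by
    rw [hc0]
    have : Real.sqrt (2 * Real.pi) ≠ 0 := by positivity
    field_simp
  have h6 : c0 * (1 + (‖ph u t‖ + Real.sqrt (2 * Real.pi))) = c0 * ‖ph u t‖ + (c0 + 1) := by
    rw [mul_add, mul_add, h5]
    ring
  linarith

/-- the mean square of a window -/
lemma JJ_win (RH : RiemannHypothesis) {a η : ℝ} (ha : 0 ≤ a) (hη : 0 < η) :
    ∃ C V0 : ℝ, 0 < C ∧ 10 ≤ V0 ∧ ∀ V : ℝ, V0 ≤ V → ∀ P Q : ℝ, V ≤ P → Q ≤ 2 * V →
      P + 2 * Real.log V ≤ Q → ∀ u : ℝ, Real.log V / 4 ≤ u →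
      u ≤ a * Real.log V → JJ riemannZeta P Q u ≤
        (1 + η) / (2 * Real.pi) * (∫ t in P..Q, ‖ph u t‖ ^ 2) + C * V := by
  obtain ⟨C, V0, hC, hV0, h⟩ := AA_pt RH ha
  obtain ⟨Co, T1, hCo, hT1, hout⟩ := H370.AS.Zg_outer good_zeta
  have ev1 : ∀ᶠ V : ℝ in atTop, Real.log V ^ 3 ≤ V := by
    have h1 := (Real.isLittleO_pow_log_id_atTop (n := 3)).bound (show (0 : ℝ) < 1 by norm_num)
    filter_upwards [h1, eventually_ge_atTop (1 : ℝ)] with V hV hV1
    rw [Real.norm_eq_abs, Real.norm_eq_abs, id, abs_of_pos (by linarith : (0 : ℝ) < V),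
      one_mul] at hV
    exact (le_abs_self _).trans hV
  obtain ⟨V1, hV1⟩ := ev1.exists_forall_of_atTop
  refine ⟨(1 + 1 / η) * C ^ 2 + Co, max (max V0 T1) V1, by positivity,
    hV0.trans ((le_max_left _ _).trans (le_max_left _ _)),
    fun V hV P Q hP hQ hPQ u hu hua => ?_⟩
  have hVV0 : V0 ≤ V := ((le_max_left _ _).trans (le_max_left _ _)).trans hV
  have hVT1 : T1 ≤ V := ((le_max_right _ _).trans (le_max_left _ _)).trans hV
  have e1 := hV1 V ((le_max_right _ _).trans hV)
  have hV10 : 10 ≤ V := hV0.trans hVV0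
  have hU : 1 ≤ P := by linarith
  have hpi := Real.pi_gt_three
  have hl1 : 1 ≤ Real.log V := by
    rw [Real.le_log_iff_exp_le (by linarith)]
    linarith [Real.exp_one_lt_d9]
  have hab : P + Real.log V ≤ Q - Real.log V := by linarith
  have hint := AA_sq_int good_zeta (U2 := Q) hU u
  have hsplit : JJ riemannZeta P Q u =
      (∫ t in (P + Real.log V)..(Q - Real.log V), ‖AA riemannZeta P Q u t‖ ^ 2) +
      ∫ t in (Set.Icc (P + Real.log V) (Q - Real.log V))ᶜ,
        ‖AA riemannZeta P Q u t‖ ^ 2 := by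
    unfold JJ
    rw [← integral_add_compl measurableSet_Icc hint, intervalIntegral.integral_of_le hab,
      integral_Icc_eq_integral_Ioc]
  have houter : ∫ t in (Set.Icc (P + Real.log V) (Q - Real.log V))ᶜ,
        ‖AA riemannZeta P Q u t‖ ^ 2 ≤ Co * V := by
    have h1 : ∫ t in (Set.Icc (P + Real.log V) (Q - Real.log V))ᶜ,
        ‖AA riemannZeta P Q u t‖ ^ 2 ≤
        ∫ t in (Set.Icc (P + Real.log V) (Q - Real.log V))ᶜ, Zg riemannZeta P Q t ^ 2 :=
      integral_mono hint.integrableOn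
        (H370.AS.Zg_sq_int good_zeta (b := Q) hU).integrableOn fun t =>
          pow_le_pow_left₀ (norm_nonneg _) (AA_le_Zg RH hU u t) 2
    refine (h1.trans (hout V hVT1 P Q hP hQ)).trans ?_
    exact mul_le_mul_of_nonneg_left e1 hCo.le
  have hphc : Continuous fun t => ‖ph u t‖ ^ 2 := (ph_cont u).norm.pow 2
  have hinner : ∫ t in (P + Real.log V)..(Q - Real.log V),
      ‖AA riemannZeta P Q u t‖ ^ 2 ≤
      (1 + η) / (2 * Real.pi) * (∫ t in P..Q, ‖ph u t‖ ^ 2) + (1 + 1 / η) * C ^ 2 * V := by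
    calc ∫ t in (P + Real.log V)..(Q - Real.log V), ‖AA riemannZeta P Q u t‖ ^ 2 ≤
        ∫ t in (P + Real.log V)..(Q - Real.log V),
          ((1 + η) / (2 * Real.pi) * ‖ph u t‖ ^ 2 + (1 + 1 / η) * C ^ 2) := by
          refine intervalIntegral.integral_mono_on hab ?_ ?_ fun t ht => ?_
          · exact ((AA_cont good_zeta hU u).norm.pow 2).intervalIntegrable _ _
          · exact ((continuous_const.mul hphc).add continuous_const).intervalIntegrable _ _
          · have h1 := h V hVV0 P Q hP hQ u t hu hua ht.1 ht.2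
            have h2 := pow_le_pow_left₀ (norm_nonneg _) h1 2
            refine h2.trans ((young hη).trans (le_of_eq ?_))
            rw [mul_pow, div_pow, one_pow, Real.sq_sqrt (by positivity)]
            ring
      _ ≤ ∫ t in P..Q, ((1 + η) / (2 * Real.pi) * ‖ph u t‖ ^ 2 + (1 + 1 / η) * C ^ 2) := by
          refine intervalIntegral.integral_mono_interval (by linarith) hab (by linarith)
            (Eventually.of_forall fun t => ?_) ?_
          · show 0 ≤ (1 + η) / (2 * Real.pi) * ‖ph u t‖ ^ 2 + (1 + 1 / η) * C ^ 2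
            positivity
          · exact ((continuous_const.mul hphc).add continuous_const).intervalIntegrable _ _
      _ = (1 + η) / (2 * Real.pi) * (∫ t in P..Q, ‖ph u t‖ ^ 2) +
          (1 + 1 / η) * C ^ 2 * (Q - P) := by
          have hc3 : Continuous fun t => (1 + η) / (2 * Real.pi) * ‖ph u t‖ ^ 2 :=
            continuous_const.mul hphc
          rw [intervalIntegral.integral_add (hc3.intervalIntegrable _ _)
            (continuous_const.intervalIntegrable _ _), intervalIntegral.integral_const_mul,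
            intervalIntegral.integral_const, smul_eq_mul]
          ring
      _ ≤ _ := by
          have : (1 + 1 / η) * C ^ 2 * (Q - P) ≤ (1 + 1 / η) * C ^ 2 * V :=
            mul_le_mul_of_nonneg_left (by linarith) (by positivity)
          linarith
  rw [hsplit]
  calc _ ≤ ((1 + η) / (2 * Real.pi) * (∫ t in P..Q, ‖ph u t‖ ^ 2) +
      (1 + 1 / η) * C ^ 2 * V) + Co * V := add_le_add hinner houter
    _ = _ := by ring

end Pool.Agent.H7.LH
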