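import Pool.Agent.H7.LH.Blk

/-! Windows: pairs of zeros and the truncated mean squares. -/

open Filter Topology Complex MeasureTheory
open scoped ENNReal

namespace Pool.Agent.H7.LH

open H370 TH803TW Pool.Agent.Y744 Pool.Agent.H7.PS

variable {κ : ℝ} {K : ℝ → ℝ}

lemma JN_contw (RH : RiemannHypothesis) {P Q : ℝ} (hP : 1 ≤ P) (L : ℝ) :
    Continuous fun α : ℝ => H370.A2.JN riemannZeta P Q (α * L) := by
  simp_rw [H370.A2.JN_rh RH hP]
  fun_prop

lemma JN_evenw (RH : RiemannHypothesis) {P Q : ℝ} (hP : 1 ≤ P) (u : ℝ) :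
    H370.A2.JN riemannZeta P Q (-u) = H370.A2.JN riemannZeta P Q u := by
  rw [H370.A2.JN_rh RH hP, H370.A2.JN_rh RH hP]
  refine Finset.sum_congr rfl fun s _ => Finset.sum_congr rfl fun s' _ => ?_
  rw [neg_mul, Real.cos_neg]

lemma JN_nonnegw (P Q u : ℝ) : 0 ≤ H370.A2.JN riemannZeta P Q u := by
  unfold H370.A2.JN JJ
  have : 0 ≤ ∫ t : ℝ, ‖AA riemannZeta P Q u t‖ ^ 2 :=
    integral_nonneg fun t => by positivity
  positivity

lemma PH_intw (u P Q : ℝ) (hPQ : P ≤ Q) : ENNReal.ofReal (∫ t in P..Q, ‖ph u t‖ ^ 2) =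
    ∫⁻ t in Set.Ioc P Q, PH (u, t) := by
  have hc : Continuous fun t => ‖ph u t‖ ^ 2 := (ph_cont u).norm.pow 2
  rw [intervalIntegral.integral_of_le (by linarith), ofReal_integral_eq_lintegral_ofReal]
  · refine lintegral_congr fun t => ?_
    unfold PH
    show ENNReal.ofReal (‖ph u t‖ ^ 2) = ‖ph u t‖ₑ ^ 2
    rw [ENNReal.ofReal_pow (norm_nonneg _), ofReal_norm]
  · exact (hc.integrableOn_Icc (μ := volume)).mono_set Set.Ioc_subset_Icc_self
  · exact Eventually.of_forall fun t => by positivity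

/-- removal of the Gaussian weight -/
lemma weight_win (RH : RiemannHypothesis) (hK : TK κ K) (hκ : 0 ≤ κ) : ∃ C V0 : ℝ, 0 < C ∧ 10 ≤ V0 ∧
    ∀ V : ℝ, V0 ≤ V → ∀ P Q : ℝ, V ≤ P → Q ≤ 2 * V → ∀ L : ℝ, Real.log V / 2 ≤ L →
      QS (Zb P Q) (Zb P Q) mz (fun s => s.im) (ct K) L ≤
        2 * (∫ α in (0 : ℝ)..(κ + 1), K α * H370.A2.JN riemannZeta P Q (α * L)) + C * V := by
  obtain ⟨Cw, hCw, hw⟩ := H370.A2.pair_weight good_zeta
  obtain ⟨C2, hC2, hN⟩ := NN_crude good_zeta
  obtain ⟨D, hD, hdec⟩ := hK.decay 1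
  refine ⟨200 * D * Cw * C2 + 1, 10, by positivity, le_rfl, fun V hV P Q hP hQ L hL => ?_⟩
  have hV1 : 1 ≤ P := by linarith
  have hl1 : 1 ≤ Real.log V := by
    rw [Real.le_log_iff_exp_le (by linarith)]
    linarith [Real.exp_one_lt_d9]
  have hL0 : 0 < L := by linarith
  have h1 := H370.A2.int_JN RH (A := P) (B := Q) hV1 hK.cont (κ + 1) L
  have hcont : Continuous fun α : ℝ => K α * H370.A2.JN riemannZeta P Q (α * L) :=
    hK.cont.mul (JN_contw RH hV1 L)
  have h2 : ∫ α in (-(κ + 1))..(κ + 1), K α * H370.A2.JN riemannZeta P Q (α * L) =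
      2 * ∫ α in (0 : ℝ)..(κ + 1), K α * H370.A2.JN riemannZeta P Q (α * L) := by
    rw [← intervalIntegral.integral_add_adjacent_intervals (b := 0)
      (hcont.intervalIntegrable _ _) (hcont.intervalIntegrable _ _)]
    have h3 : ∫ α in (-(κ + 1))..0, K α * H370.A2.JN riemannZeta P Q (α * L) =
        ∫ α in (0 : ℝ)..(κ + 1), K α * H370.A2.JN riemannZeta P Q (α * L) := by
      have h4 := intervalIntegral.integral_comp_neg (a := 0) (b := κ + 1)
        (fun α => K α * H370.A2.JN riemannZeta P Q (α * L))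
      rw [neg_zero] at h4
      rw [← h4]
      refine intervalIntegral.integral_congr fun α _ => ?_
      show K (-α) * H370.A2.JN riemannZeta P Q (-α * L) =
        K α * H370.A2.JN riemannZeta P Q (α * L)
      rw [hK.even, neg_mul, JN_evenw RH hV1]
    rw [h3]
    ring
  rw [h2] at h1
  have hdiff : |(∑ s ∈ Zf riemannZeta P Q, ∑ s' ∈ Zf riemannZeta P Q,
      (mult riemannZeta s : ℝ) * (mult riemannZeta s' : ℝ) *
        (H370.A2.RR K (κ + 1) ((s.im - s'.im) * L / (2 * Real.pi)) *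
          Real.exp (-(s.im - s'.im) ^ 2 / 4))) -
      QS (Zb P Q) (Zb P Q) mz (fun s => s.im) (ct K) L| ≤
      50 * D / L ^ 2 * (Cw * Real.log V * NN riemannZeta P Q) := by
    have hQ : QS (Zb P Q) (Zb P Q) mz (fun s => s.im) (ct K) L =
        ∑ s ∈ Zf riemannZeta P Q, ∑ s' ∈ Zf riemannZeta P Q,
        (mult riemannZeta s : ℝ) * (mult riemannZeta s' : ℝ) *
        ct K ((s.im - s'.im) * L / (2 * Real.pi)) := rfl
    rw [hQ, ← Finset.sum_sub_distrib]
    simp_rw [← Finset.sum_sub_distrib]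
    have h3 := hw V hV P Q hP (by linarith)
    calc _ ≤ ∑ s ∈ Zf riemannZeta P Q, ∑ s' ∈ Zf riemannZeta P Q,
        |(mult riemannZeta s : ℝ) * (mult riemannZeta s' : ℝ) *
        (H370.A2.RR K (κ + 1) ((s.im - s'.im) * L / (2 * Real.pi)) *
          Real.exp (-(s.im - s'.im) ^ 2 / 4)) -
        (mult riemannZeta s : ℝ) * (mult riemannZeta s' : ℝ) *
        ct K ((s.im - s'.im) * L / (2 * Real.pi))| :=
          (Finset.abs_sum_le_sum_abs _ _).trans (Finset.sum_le_sum fun s _ =>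
            Finset.abs_sum_le_sum_abs _ _)
      _ ≤ ∑ s ∈ Zf riemannZeta P Q, ∑ s' ∈ Zf riemannZeta P Q,
          50 * D / L ^ 2 * ((mult riemannZeta s : ℝ) * (mult riemannZeta s' : ℝ) *
          (1 / (1 + (s.im - s'.im) ^ 2))) := by
          refine Finset.sum_le_sum fun s _ => Finset.sum_le_sum fun s' _ => ?_
          rw [← mul_sub, abs_mul, abs_of_nonneg (by positivity : (0 : ℝ) ≤
            (mult riemannZeta s : ℝ) * (mult riemannZeta s' : ℝ)), RR_ct hK hκ]
          have h4 : |ct K ((s.im - s'.im) * L / (2 * Real.pi))| *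
              ((s.im - s'.im) * L / (2 * Real.pi)) ^ 2 ≤ D := by
            obtain ⟨y, hy⟩ : ∃ y, y = (s.im - s'.im) * L / (2 * Real.pi) := ⟨_, rfl⟩
            rw [← hy]
            have h5 := hdec y
            rw [pow_one, le_div_iff₀ (by positivity)] at h5
            have h6 := abs_nonneg (ct K y)
            nlinarith
          have h2 := H370.A2.weight_free L (s.im - s'.im) D _ hL0 hD h4
          calc _ ≤ (mult riemannZeta s : ℝ) * (mult riemannZeta s' : ℝ) *
              (50 * D / L ^ 2 * (1 / (1 + (s.im - s'.im) ^ 2))) := by gcongr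
            _ = _ := by ring
      _ = 50 * D / L ^ 2 * ∑ s ∈ Zf riemannZeta P Q, ∑ s' ∈ Zf riemannZeta P Q,
          ((mult riemannZeta s : ℝ) * (mult riemannZeta s' : ℝ) *
          (1 / (1 + (s.im - s'.im) ^ 2))) := by
          rw [Finset.mul_sum]
          refine Finset.sum_congr rfl fun s _ => ?_
          rw [Finset.mul_sum]
      _ ≤ _ := by gcongr
  rw [← h1] at hdiff
  have h5 := (abs_le.1 hdiff).1
  have h6 : 50 * D / L ^ 2 * (Cw * Real.log V * NN riemannZeta P Q) ≤
      200 * D * Cw * C2 * V := by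
    have h7 := hN V (by linarith) P Q hP hQ
    have h8 : (Real.log V / 2) ^ 2 ≤ L ^ 2 := pow_le_pow_left₀ (by positivity) hL 2
    calc 50 * D / L ^ 2 * (Cw * Real.log V * NN riemannZeta P Q) ≤
        50 * D / (Real.log V / 2) ^ 2 * (Cw * Real.log V * (C2 * (V * Real.log V))) := by gcongr
      _ = _ := by
          field_simp
          ring
  linarith

/-- **one block** -/
lemma QS_win (RH : RiemannHypothesis) (hK : TK κ K) (hκ : 0 ≤ κ) (hpos : ∀ x, 0 ≤ K x)
    (h0 : ∀ x, 0 < x → x < 1 / 2 → K x = 0) {η : ℝ} (hη : 0 < η) :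
    ∃ C V0 : ℝ, 0 < C ∧ 10 ≤ V0 ∧ ∀ V : ℝ, V0 ≤ V → ∀ P Q : ℝ, V ≤ P → Q ≤ 2 * V →
      P + 2 * Real.log V ≤ Q → ∀ L : ℝ, Real.log V / 2 ≤ L → L ≤ 2 * Real.log V →
      ENNReal.ofReal (QS (Zb P Q) (Zb P Q) mz (fun s => s.im) (ct K) L) ≤
      ENNReal.ofReal ((1 + η) / (Real.pi * Real.sqrt Real.pi)) *
        (∫⁻ α in Set.Ioi (0 : ℝ), ENNReal.ofReal (K α) *
          ∫⁻ t in Set.Ioc P Q, PH (α * L, t)) + ENNReal.ofReal (C * V) := by
  obtain ⟨C1, V1, hC1, hV1, hW⟩ := weight_win RH hK hκ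
  obtain ⟨C3, V3, hC3, hV3, hJ⟩ := JJ_win RH (a := 2 * κ) (by positivity) hη
  obtain ⟨I, hI⟩ : ∃ I, I = ∫ α in (0 : ℝ)..(κ + 1), K α := ⟨_, rfl⟩
  have hI0 : 0 ≤ I := by
    rw [hI]
    exact intervalIntegral.integral_nonneg (by linarith) fun x _ => hpos x
  have hspi : 0 < Real.sqrt Real.pi := by positivity
  refine ⟨C1 + 2 * C3 / Real.sqrt Real.pi * I, max V1 V3, by positivity,
    hV1.trans (le_max_left _ _), fun V hV P Q hP hQ hPQ L hL1 hL2 => ?_⟩
  have hVV1 : V1 ≤ V := (le_max_left _ _).trans hV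
  have hVV3 : V3 ≤ V := (le_max_right _ _).trans hV
  have hV10 : 10 ≤ V := hV1.trans hVV1
  have hU : 1 ≤ P := by linarith
  have hl1 : 1 ≤ Real.log V := by
    rw [Real.le_log_iff_exp_le (by linarith)]
    linarith [Real.exp_one_lt_d9]
  have hL0 : 0 < L := by linarith
  have h1 := hW V hVV1 P Q hP hQ L hL1
  have hcont : Continuous fun α : ℝ => K α * H370.A2.JN riemannZeta P Q (α * L) :=
    hK.cont.mul (JN_contw RH hU L)
  have hnn : ∀ α, 0 ≤ K α * H370.A2.JN riemannZeta P Q (α * L) := fun α =>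
    mul_nonneg (hpos α) (JN_nonnegw P Q _)
  obtain ⟨G, hG⟩ : ∃ G : ℝ → ℝ≥0∞, G = fun α => ∫⁻ t in Set.Ioc P Q, PH (α * L, t) :=
    ⟨_, rfl⟩
  have h2 : ENNReal.ofReal (∫ α in (0 : ℝ)..(κ + 1),
      K α * H370.A2.JN riemannZeta P Q (α * L)) ≤
      ENNReal.ofReal ((1 + η) / (2 * Real.pi * Real.sqrt Real.pi)) *
        (∫⁻ α in Set.Ioi (0 : ℝ), ENNReal.ofReal (K α) * G α) +
        ENNReal.ofReal (C3 * V / Real.sqrt Real.pi * I) := by
    rw [intervalIntegral.integral_of_le (by linarith), ofReal_integral_eq_lintegral_ofReal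
      ((hcont.integrableOn_Icc (μ := volume)).mono_set Set.Ioc_subset_Icc_self)
      (Eventually.of_forall hnn)]
    have h3 : ∫⁻ α in Set.Ioc 0 (κ + 1),
        ENNReal.ofReal (K α * H370.A2.JN riemannZeta P Q (α * L)) ≤
        ∫⁻ α in Set.Ioc 0 (κ + 1), (ENNReal.ofReal ((1 + η) / (2 * Real.pi * Real.sqrt Real.pi)) *
          (ENNReal.ofReal (K α) * G α) + ENNReal.ofReal (C3 * V / Real.sqrt Real.pi) *
            ENNReal.ofReal (K α)) := by
      refine setLIntegral_mono' measurableSet_Ioc fun α hα => ?_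
      have hα0 : 0 < α := hα.1
      by_cases hKα : K α = 0
      · rw [hKα, zero_mul, ENNReal.ofReal_zero]
        exact zero_le
      · have a1 : 1 / 2 ≤ α := by
          by_contra hcon
          exact hKα (h0 α hα0 (not_le.1 hcon))
        have a2 : α ≤ κ := by
          by_contra hcon
          refine hKα (hK.supp α ?_)
          rw [abs_of_pos hα0]
          exact not_le.1 hcon
        have a3 := hJ V hVV3 P Q hP hQ hPQ (α * L) (by nlinarith) (by nlinarith)
        have a4 : H370.A2.JN riemannZeta P Q (α * L) ≤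
            (1 + η) / (2 * Real.pi * Real.sqrt Real.pi) *
              (∫ t in P..Q, ‖ph (α * L) t‖ ^ 2) + C3 * V / Real.sqrt Real.pi := by
          unfold H370.A2.JN
          rw [div_le_iff₀ hspi]
          refine a3.trans (le_of_eq ?_)
          field_simp
        have a5 : 0 ≤ ∫ t in P..Q, ‖ph (α * L) t‖ ^ 2 :=
          intervalIntegral.integral_nonneg (by linarith) fun t _ => by positivity
        have hKp := hpos α
        calc ENNReal.ofReal (K α * H370.A2.JN riemannZeta P Q (α * L)) ≤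
            ENNReal.ofReal (K α * ((1 + η) / (2 * Real.pi * Real.sqrt Real.pi) *
              (∫ t in P..Q, ‖ph (α * L) t‖ ^ 2) + C3 * V / Real.sqrt Real.pi)) :=
              ENNReal.ofReal_le_ofReal (mul_le_mul_of_nonneg_left a4 hKp)
          _ = ENNReal.ofReal ((1 + η) / (2 * Real.pi * Real.sqrt Real.pi)) *
              (ENNReal.ofReal (K α) * ENNReal.ofReal (∫ t in P..Q, ‖ph (α * L) t‖ ^ 2)) +
              ENNReal.ofReal (C3 * V / Real.sqrt Real.pi) * ENNReal.ofReal (K α) := by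
              rw [← ENNReal.ofReal_mul hKp, ← ENNReal.ofReal_mul (by positivity),
                ← ENNReal.ofReal_mul (by positivity), ← ENNReal.ofReal_add (by positivity)
                  (by positivity)]
              congr 1
              ring
          _ = _ := by rw [PH_intw _ _ _ (by linarith), hG]
    refine h3.trans ?_
    have hmK : Measurable fun α => ENNReal.ofReal (C3 * V / Real.sqrt Real.pi) *
            ENNReal.ofReal (K α) := hK.cont.measurable.ennreal_ofReal.const_mul _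
    rw [lintegral_add_right _ hmK, lintegral_const_mul' _ _ ENNReal.ofReal_ne_top,
      lintegral_const_mul' _ _ ENNReal.ofReal_ne_top]
    refine add_le_add (mul_le_mul_right (lintegral_mono_set Set.Ioc_subset_Ioi_self) _)
      (le_of_eq ?_)
    rw [← ofReal_integral_eq_lintegral_ofReal
      ((hK.cont.integrableOn_Icc (μ := volume)).mono_set Set.Ioc_subset_Icc_self)
      (Eventually.of_forall hpos), ← intervalIntegral.integral_of_le (by linarith), ← hI,
      ← ENNReal.ofReal_mul (by positivity)]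
  have h4 : ENNReal.ofReal (QS (Zb P Q) (Zb P Q) mz (fun s => s.im) (ct K) L) ≤
      2 * ENNReal.ofReal (∫ α in (0 : ℝ)..(κ + 1),
      K α * H370.A2.JN riemannZeta P Q (α * L)) + ENNReal.ofReal (C1 * V) := by
    refine (ENNReal.ofReal_le_ofReal h1).trans ?_
    have h5 : 0 ≤ ∫ α in (0 : ℝ)..(κ + 1), K α * H370.A2.JN riemannZeta P Q (α * L) :=
      intervalIntegral.integral_nonneg (by linarith) fun x _ => hnn x
    rw [ENNReal.ofReal_add (by positivity) (by positivity), ENNReal.ofReal_mul (by norm_num),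
      ENNReal.ofReal_ofNat]
  refine h4.trans ?_
  refine (add_le_add (mul_le_mul_right h2 2) le_rfl).trans (le_of_eq ?_)
  have e1 : ENNReal.ofReal ((1 + η) / (Real.pi * Real.sqrt Real.pi)) =
      2 * ENNReal.ofReal ((1 + η) / (2 * Real.pi * Real.sqrt Real.pi)) := by
    rw [← ENNReal.ofReal_ofNat 2, ← ENNReal.ofReal_mul (by norm_num)]
    congr 1
    field_simp
  have e2 : ENNReal.ofReal ((C1 + 2 * C3 / Real.sqrt Real.pi * I) * V) =
      2 * ENNReal.ofReal (C3 * V / Real.sqrt Real.pi * I) + ENNReal.ofReal (C1 * V) := by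
    rw [← ENNReal.ofReal_ofNat 2, ← ENNReal.ofReal_mul (by norm_num),
      ← ENNReal.ofReal_add (by positivity) (by positivity)]
    congr 1
    ring
  rw [e1, e2, hG]
  ring

end Pool.Agent.H7.LH
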