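import Pool.Agent.H7.LH.Fls
import Pool.Graph.R_seed8.Y744.PCR.Fin2

/-! Essential simplicity from the upper half. -/

open MeasureTheory Filter Topology Real
open scoped ENNReal

namespace Pool.Agent.H7.LH

open H370 TH803TW Pool.Agent.Y744 Pool.Agent.H7.PS Pool.Agent.H7.FF

variable {G : ℝ → ℝ} {κ A : ℝ}

/-- the number of the close pairs -/
noncomputable def PZ (Z : Finset ℂ) (y L : ℝ) : ℝ := ∑ s ∈ Z, ∑ s' ∈ Z, mz s * mz s' *
  ({x : ℝ | |x| ≤ y}).indicator (fun _ => (1 : ℝ)) ((s.im - s'.im) * L / (2 * π))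

lemma PZ_PC (T y : ℝ) : PC T {x | |x| ≤ y} = PZ (Zt T) y (Real.log T) := rfl

lemma QS_close (hct : ∀ x, 0 ≤ ct G x) {c e b : ℝ} (hc : ∀ x, |x| ≤ c → ct G 0 - e ≤ ct G x)
    (hb : 0 < b) (Z : Finset ℂ) (L : ℝ) :
    b * (ct G 0 - e) * PZ Z (c / b) L ≤ QS Z Z mz (fun s => s.im) (ct (str G b)) L := by
  unfold PZ QS
  rw [Finset.mul_sum]
  refine Finset.sum_le_sum fun s _ => ?_
  rw [Finset.mul_sum]
  refine Finset.sum_le_sum fun s' _ => ?_
  have hm : 0 ≤ mz s * mz s' := mul_nonneg (mz_nonneg _) (mz_nonneg _)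
  obtain ⟨x, hx⟩ : ∃ x, x = (s.im - s'.im) * L / (2 * π) := ⟨_, rfl⟩
  show b * (ct G 0 - e) * (mz s * mz s' * ({x : ℝ | |x| ≤ c / b}).indicator (fun _ => (1 : ℝ))
    ((s.im - s'.im) * L / (2 * π))) ≤ mz s * mz s' * ct (str G b) ((s.im - s'.im) * L / (2 * π))
  rw [← hx, str_ct G hb]
  by_cases h : |x| ≤ c / b
  · rw [Set.indicator_of_mem (show x ∈ {x : ℝ | |x| ≤ c / b} from h)]
    have h1 : |b * x| ≤ c := by
      rw [abs_mul, abs_of_pos hb]
      rw [le_div_iff₀ hb] at h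
      linarith
    have h2 := mul_le_mul_of_nonneg_left (hc _ h1) (mul_nonneg hm hb.le)
    linarith
  · rw [Set.indicator_of_notMem (show x ∉ {x : ℝ | |x| ≤ c / b} from h), mul_zero, mul_zero]
    exact mul_nonneg hm (mul_nonneg hb.le (hct _))

/-- the upper half -/
def UH (A : ℝ) : Prop := ∀ ε : ℝ, 0 < ε → ∃ b1 : ℝ, ∀ b : ℝ, b1 ≤ b → ∀ᶠ T : ℝ in atTop,
  Jf A b T ≤ ENNReal.ofReal ((1 + ε) * (b / 2) * (Real.log T ^ 2 / T))

lemma cover {a h T t : ℝ} {N : ℕ} (hh : 0 < h) (hT : 0 < T) (ha : a ≤ 1 / 4) (hN : 1 ≤ a + N * h)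
    (ht : t ∈ Set.Ioc (1 / 2 * T) (1 * T)) :
    ∃ j < N, t ∈ Set.Ioc ((a + j * h) * T) ((a + j * h + h) * T) := by
  obtain ⟨x, hx⟩ : ∃ x, x = (t / T - a) / h := ⟨_, rfl⟩
  have htT1 : 1 / 2 < t / T := by
    rw [lt_div_iff₀ hT]
    exact ht.1
  have htT2 : t / T ≤ 1 := by
    rw [div_le_iff₀ hT]
    exact ht.2
  have hx0 : 0 < x := by
    rw [hx]
    exact div_pos (by linarith) hh
  have hxt : t / T = a + x * h := by
    rw [hx]
    field_simp
    ring
  have hc0 : 0 < ⌈x⌉₊ := Nat.ceil_pos.2 hx0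
  refine ⟨⌈x⌉₊ - 1, ?_, ?_, ?_⟩
  · have h1 : x ≤ N := by
      rw [hx, div_le_iff₀ hh]
      linarith
    have h2 : ⌈x⌉₊ ≤ N := Nat.ceil_le.2 h1
    omega
  · have h1 : (⌈x⌉₊ : ℝ) < x + 1 := Nat.ceil_lt_add_one hx0.le
    have h2 : ((⌈x⌉₊ - 1 : ℕ) : ℝ) = (⌈x⌉₊ : ℝ) - 1 := by
      rw [Nat.cast_sub hc0]
      simp
    rw [← lt_div_iff₀ hT, hxt, h2]
    nlinarith
  · have h1 : x ≤ (⌈x⌉₊ : ℝ) := Nat.le_ceil x
    have h2 : ((⌈x⌉₊ - 1 : ℕ) : ℝ) = (⌈x⌉₊ : ℝ) - 1 := by
      rw [Nat.cast_sub hc0]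
      simp
    rw [← div_le_iff₀ hT, hxt, h2]
    nlinarith

/-- the number of the windows which meet the long window -/
lemma card_I {a h : ℝ} (hh : 0 < h) (N : ℕ) {P : ℕ → Prop} [DecidablePred P]
    (hP : ∀ j : ℕ, P j → a + j * h ≤ 1 ∧ 1 / 2 ≤ a + j * h + h) :
    (((Finset.range N).filter P).card : ℝ) * h ≤ 1 / 2 + 2 * h := by
  obtain ⟨x, hx⟩ : ∃ x, x = (1 / 2 - h - a) / h := ⟨_, rfl⟩
  obtain ⟨y, hy⟩ : ∃ y, y = (1 - a) / h := ⟨_, rfl⟩
  have h1 : ((Finset.range N).filter P).card ≤ (Finset.Icc ⌈x⌉ ⌊y⌋).card := by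
    refine Finset.card_le_card_of_injOn (fun j : ℕ => (j : ℤ)) (fun j hj => ?_) (fun i _ j _ hij => ?_)
    · have hj2 := hP j (Finset.mem_filter.1 (Finset.mem_coe.1 hj)).2
      rw [Finset.mem_coe, Finset.mem_Icc, Int.ceil_le, Int.le_floor]
      push_cast
      rw [hx, hy, div_le_iff₀ hh, le_div_iff₀ hh]
      constructor <;> linarith [hj2.1, hj2.2]
    · exact Nat.cast_injective (R := ℤ) hij
  rw [Int.card_Icc] at h1
  have h2 : (((⌊y⌋ + 1 - ⌈x⌉).toNat : ℕ) : ℝ) ≤ y - x + 1 := by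
    have h3 := Int.floor_le y
    have h4 := Int.le_ceil x
    have hyx : 0 ≤ y - x + 1 := by
      rw [hx, hy, ← sub_div]
      have : 0 ≤ (1 - a - (1 / 2 - h - a)) / h := div_nonneg (by linarith) hh.le
      linarith
    rcases le_total 0 (⌊y⌋ + 1 - ⌈x⌉) with h5 | h5
    · have h6 : (((⌊y⌋ + 1 - ⌈x⌉).toNat : ℕ) : ℝ) = ((⌊y⌋ + 1 - ⌈x⌉ : ℤ) : ℝ) := by
        exact_mod_cast congrArg (Int.cast : ℤ → ℝ) (Int.toNat_of_nonneg h5)
      rw [h6]
      push_cast
      linarith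
    · rw [Int.toNat_of_nonpos h5]
      simpa using hyx
  have h3 : (((Finset.range N).filter P).card : ℝ) ≤ y - x + 1 :=
    le_trans (by exact_mod_cast h1) h2
  have h4 := mul_le_mul_of_nonneg_right h3 hh.le
  refine h4.trans (le_of_eq ?_)
  rw [hx, hy]
  field_simp
  ring

lemma num1 {e : ℝ} (h0 : 0 ≤ e) (h1 : e ≤ 1 / 10) : (1 + e) ^ 2 * (1 + e) ≤ 1 + 4 * e := by
  nlinarith [mul_nonneg h0 h0, mul_nonneg (mul_nonneg h0 h0) h0,
    mul_nonneg h0 (by linarith : 0 ≤ 1 / 10 - e),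
    mul_nonneg (mul_nonneg h0 h0) (by linarith : 0 ≤ 1 / 10 - e)]

lemma num2 {e : ℝ} (h0 : 0 ≤ e) (h1 : e ≤ 1 / 10) : 1 / 2 + 96 * e ≤
    (1 - 2 * e) * (1 / 2 + 130 * e) := by
  nlinarith [mul_nonneg h0 (by linarith : 0 ≤ 1 / 10 - e)]

lemma num3 {e : ℝ} (h1 : e ≤ 1 / 10) : 1 - 3 * e ≤ (1 - e) ^ 3 := by
  have := one_add_mul_le_pow (a := -e) (by linarith) 3
  push_cast at this
  have h9 : 1 + -e = 1 - e := by ring
  rw [h9] at this
  linarith

lemma num4 {e : ℝ} : 1 - e ≤ (1 - 3 * (e / 6)) ^ 2 := by nlinarith [sq_nonneg e]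

/-- the numerical part -/
lemma num5 {e g u v w D p : ℝ} (h0 : 0 < e) (h1 : e ≤ 1 / 10) (hg : 1 - e ≤ g) (hp : 0 ≤ p)
    (hu : (1 - e) * (π * (1 - e) - (1 / 8 + e / 2)) ≤ u) (hv : v ≤ 1 + 4 * e) (hD : D ≤ e)
    (hw : g * u + 1 / 4 * ((g - e) * p) ≤ π * v + D) (hww : w = 130 * e) : p ≤ 1 / 2 + w := by
  have hpi := Real.pi_pos
  have hpi3 := Real.pi_gt_three
  have hpi4 := Real.pi_lt_d2
  have f11 : (1 - e) * ((1 - e) * (π * (1 - e) - (1 / 8 + e / 2))) ≤ g * u := by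
    have k0 : 0 ≤ π * (1 - e) - (1 / 8 + e / 2) := by
      have : 3 * (1 - e) ≤ π * (1 - e) := mul_le_mul_of_nonneg_right hpi3.le (by linarith)
      linarith
    have k2 : 0 ≤ (1 - e) * (π * (1 - e) - (1 / 8 + e / 2)) := mul_nonneg (by linarith) k0
    exact mul_le_mul hg hu k2 (by linarith)
  have f12 : (1 - 2 * e) * p ≤ (g - e) * p := mul_le_mul_of_nonneg_right (by linarith) hp
  have f13 : π * (1 - 3 * e) - (1 / 8 + e / 2) ≤
      (1 - e) * ((1 - e) * (π * (1 - e) - (1 / 8 + e / 2))) := by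
    have k2 := mul_le_mul_of_nonneg_left (num3 h1) hpi.le
    have k4 : (1 - e) * (1 - e) ≤ 1 := mul_le_one₀ (by linarith) (by linarith) (by linarith)
    have k3 : (1 - e) * (1 - e) * (1 / 8 + e / 2) ≤ 1 * (1 / 8 + e / 2) :=
      mul_le_mul_of_nonneg_right k4 (by linarith)
    have k5 : (1 - e) * ((1 - e) * (π * (1 - e) - (1 / 8 + e / 2))) =
        π * (1 - e) ^ 3 - (1 - e) * (1 - e) * (1 / 8 + e / 2) := by ring
    rw [k5]
    linarith
  have f14 : 1 / 4 * ((1 - 2 * e) * p) ≤ 1 / 8 + 24 * e := by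
    have k1 : π * v ≤ π * (1 + 4 * e) := mul_le_mul_of_nonneg_left hv hpi.le
    have k2 : π * (7 * e) ≤ 3.15 * (7 * e) := mul_le_mul_of_nonneg_right hpi4.le (by linarith)
    have k3 : π * (1 + 4 * e) = π * (1 - 3 * e) + π * (7 * e) := by ring
    have k4 : 1 / 4 * ((1 - 2 * e) * p) ≤ 1 / 4 * ((g - e) * p) := by linarith
    have k5 : π * (1 - 3 * e) - (1 / 8 + e / 2) ≤ g * u := f13.trans f11
    linarith
  have k1 : (1 - 2 * e) * p ≤ 1 / 2 + 96 * e := by linarith
  have k3 := k1.trans (num2 h0.le h1)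
  rw [hww]
  exact le_of_mul_le_mul_left k3 (by linarith)

open Classical in
/-- the excess of the close pairs in the long window -/
theorem win_excess (RH : RiemannHypothesis) (hA : 0 ≤ A) (hU : UH A) {s : ℝ} (hs : 0 < s) :
    ∃ y0 : ℝ, 0 < y0 ∧ ∀ᶠ T : ℝ in atTop,
      PZ (Zb (1 / 2 * T) (1 * T)) y0 (Real.log T) ≤ (1 / 2 + s) * Xf T := by
  obtain ⟨e, he0, he1, hes⟩ : ∃ e : ℝ, 0 < e ∧ e ≤ 1 / 10 ∧ 130 * e ≤ s :=
    ⟨min (s / 130) (1 / 10), lt_min (by positivity) (by norm_num), min_le_right _ _, by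
      have := min_le_left (s / 130) (1 / 10)
      linarith⟩
  obtain ⟨G, hG, hG0, hct, hGt, hctG⟩ := exists_tri (ε := e / 6) (by linarith) (by linarith)
  obtain ⟨a, h, N, m, hh, hha, ha4, hhe, hN1, hmlow, hm, hsum, hev⟩ := riem he0 (by linarith)
  have ha : 0 < a := by linarith
  -- continuity
  obtain ⟨c, hc0, hc⟩ : ∃ c : ℝ, 0 < c ∧ ∀ x, |x| ≤ c → ct G 0 - e ≤ ct G x := by
    have h1 := Metric.continuousAt_iff.1 (hG.ct_cont.continuousAt (x := 0)) e he0
    obtain ⟨δ, hδ, h2⟩ := h1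
    refine ⟨δ / 2, by positivity, fun x hx => ?_⟩
    have h3 := h2 (show dist x 0 < δ by
      rw [Real.dist_eq, sub_zero]
      linarith)
    rw [Real.dist_eq] at h3
    have := neg_abs_le (ct G x - ct G 0)
    linarith
  obtain ⟨η, hη⟩ : ∃ η, η = e * min h 1 := ⟨_, rfl⟩
  have hmin : 0 < min h 1 := lt_min hh one_pos
  have hη0 : 0 < η := by rw [hη]; positivity
  have hηe : η ≤ e := by
    rw [hη]
    exact mul_le_of_le_one_right he0.le (min_le_right _ _)
  have hηh : η ≤ e * h := by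
    rw [hη]
    exact mul_le_mul_of_nonneg_left (min_le_left _ _) he0.le
  have hjh : ∀ j : ℕ, 0 ≤ (j : ℝ) * h := fun j => by positivity
  obtain ⟨P, hP⟩ : ∃ P : ℕ → Prop, P = fun j : ℕ => a + j * h ≤ 1 ∧ 1 / 2 ≤ a + j * h + h :=
    ⟨_, rfl⟩
  have hPm : ∀ j, P j → 1 / 4 ≤ m j := fun j hj => by
    rw [hP] at hj
    exact hmlow j hj.1
  obtain ⟨m', hm'⟩ : ∃ m' : ℕ → ℝ, m' = fun j => if j < N then
    (m j - if P j then 1 / 4 else 0) else 1 / 4 := ⟨_, rfl⟩
  obtain ⟨aw, haw⟩ : ∃ aw : ℕ → ℝ, aw = fun j => if j < N then a + j * h else 1 / 2 := ⟨_, rfl⟩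
  obtain ⟨cw, hcw⟩ : ∃ cw : ℕ → ℝ, cw = fun j => if j < N then a + j * h + h else 1 := ⟨_, rfl⟩
  have hm'0 : ∀ j, 0 ≤ m' j := fun j => by
    rw [hm']
    show 0 ≤ if j < N then (m j - if P j then 1 / 4 else 0) else 1 / 4
    split_ifs with h1 h2
    · linarith [hPm j h2]
    · linarith [hm j]
    · norm_num
  have hm'N : m' N = 1 / 4 := by rw [hm']; simp
  have hawN : aw N = 1 / 2 := by rw [haw]; simp
  have hcwN : cw N = 1 := by rw [hcw]; simp
  have hm'j : ∀ j < N, m' j = m j - if P j then 1 / 4 else 0 := fun j hj => by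
    rw [hm']
    show (if j < N then (m j - if P j then 1 / 4 else 0) else 1 / 4) = _
    rw [if_pos hj]
  have hawj : ∀ j < N, aw j = a + j * h := fun j hj => by
    rw [haw]
    show (if j < N then a + j * h else 1 / 2) = _
    rw [if_pos hj]
  have hcwj : ∀ j < N, cw j = a + j * h + h := fun j hj => by
    rw [hcw]
    show (if j < N then a + j * h + h else 1) = _
    rw [if_pos hj]
  have q1 : ∀ j, 0 < aw j := fun j => by
    rcases lt_or_ge j N with hj | hj
    · rw [hawj j hj]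
      linarith [hjh j]
    · rw [haw]
      show 0 < if j < N then a + j * h else 1 / 2
      rw [if_neg (not_lt.2 hj)]
      norm_num
  have q2 : ∀ j, aw j < cw j := fun j => by
    rcases lt_or_ge j N with hj | hj
    · rw [hawj j hj, hcwj j hj]
      linarith
    · rw [haw, hcw]
      show (if j < N then a + j * h else 1 / 2) < if j < N then a + j * h + h else 1
      rw [if_neg (not_lt.2 hj), if_neg (not_lt.2 hj)]
      norm_num
  have q3 : ∀ j, cw j ≤ 2 * aw j := fun j => by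
    rcases lt_or_ge j N with hj | hj
    · rw [hawj j hj, hcwj j hj]
      linarith [hjh j]
    · rw [haw, hcw]
      show (if j < N then a + j * h + h else 1) ≤ 2 * if j < N then a + j * h else 1 / 2
      rw [if_neg (not_lt.2 hj), if_neg (not_lt.2 hj)]
      norm_num
  have hev2 : ∀ᶠ T : ℝ in atTop, ∀ t, ∑ j ∈ Finset.range (N + 1),
      (Set.Ioc (aw j * T) (cw j * T)).indicator
        (fun _ => ENNReal.ofReal (m' j / T ^ 2)) t ≤ wd (Real.log (1 + 1 / T)) t := by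
    filter_upwards [hev, eventually_gt_atTop 0] with T h1 hT t
    rw [Finset.sum_range_succ, hawN, hcwN, hm'N]
    have e1 : ∑ j ∈ Finset.range N, (Set.Ioc (aw j * T) (cw j * T)).indicator
        (fun _ => ENNReal.ofReal (m' j / T ^ 2)) t =
        ∑ j ∈ Finset.range N, (Set.Ioc ((a + j * h) * T) ((a + j * h + h) * T)).indicator
        (fun _ => ENNReal.ofReal (m' j / T ^ 2)) t := by
      refine Finset.sum_congr rfl fun j hj => ?_
      rw [hawj j (Finset.mem_range.1 hj), hcwj j (Finset.mem_range.1 hj)]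
    rw [e1]
    rcases pt_one (a := a) hh hT N (fun j => ENNReal.ofReal (m' j / T ^ 2)) t with
      ⟨h3, h2⟩ | ⟨j, hj, ht, h2⟩
    · rw [h2, zero_add, Set.indicator_of_notMem]
      · exact zero_le
      · intro h4
        obtain ⟨j, hj, hj2⟩ := cover hh hT ha4 hN1 h4
        exact h3 j hj hj2
    · rw [h2]
      have h5 := h1 j hj t ht
      by_cases h4 : t ∈ Set.Ioc (1 / 2 * T) (1 * T)
      · have hPj : P j := by
          rw [hP]
          constructor
          · have : (a + j * h) * T < 1 * T := lt_of_lt_of_le ht.1 h4.2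
            exact (lt_of_mul_lt_mul_right this hT.le).le
          · have : 1 / 2 * T < (a + j * h + h) * T := lt_of_lt_of_le h4.1 ht.2
            exact (lt_of_mul_lt_mul_right this hT.le).le
        rw [Set.indicator_of_mem h4, hm'j j hj, if_pos hPj,
          ← ENNReal.ofReal_add (div_nonneg (by linarith [hPm j hPj]) (by positivity))
            (by positivity)]
        refine le_trans (le_of_eq ?_) h5
        congr 1
        ring
      · rw [Set.indicator_of_notMem h4, add_zero]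
        refine le_trans (ENNReal.ofReal_le_ofReal ?_) h5
        refine div_le_div_of_nonneg_right ?_ (by positivity)
        rw [hm'j j hj]
        split_ifs <;> linarith
  obtain ⟨C1, hC1, hgen⟩ := rh_gen RH hA (by linarith) (by linarith) hG hG0 hGt hη0
    (N := N + 1) q1 q2 q3 hm'0 hev2
  obtain ⟨C2, hC2⟩ : ∃ C2, C2 = ∑ j ∈ Finset.range (N + 1), m' j * C1 j := ⟨_, rfl⟩
  have hC20 : 0 ≤ C2 := by
    rw [hC2]
    exact Finset.sum_nonneg fun j _ => mul_nonneg (hm'0 j) (hC1 j).le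
  obtain ⟨b1, hb1⟩ := hU e he0
  have hpi := Real.pi_pos
  obtain ⟨b, hb⟩ : ∃ b, b = max (max b1 (A + 2)) (2 * π * (C2 + 1) / e) := ⟨_, rfl⟩
  have hbb1 : b1 ≤ b := by rw [hb]; exact (le_max_left _ _).trans (le_max_left _ _)
  have hbA : A + 2 ≤ b := by rw [hb]; exact (le_max_right _ _).trans (le_max_left _ _)
  have hbC : 2 * π * (C2 + 1) / e ≤ b := by rw [hb]; exact le_max_right _ _
  rw [div_le_iff₀ he0] at hbC
  have hb0 : 0 < b := by linarith
  refine ⟨c / b, by positivity, ?_⟩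
  have hall : ∀ᶠ T : ℝ in atTop, ∀ j ∈ Finset.range N, ∀ b : ℝ, 0 < b →
      b * ct G 0 * (cw j - aw j - η) / (2 * π) ≤ Pw G (aw j) (cw j) b T :=
    (Filter.eventually_all_finset _).2 fun j _ => QS_count hct (q1 j) (q2 j) hη0
  filter_upwards [hall, hgen b hbA, hb1 b hbb1, eventually_gt_atTop 1] with T hall hgen hup hT
  have hTp : 0 < T := by linarith
  have hL : 0 < Real.log T := Real.log_pos hT
  have hX := Xf_pos hT
  obtain ⟨p, hp⟩ : ∃ p, p = PZ (Zb (1 / 2 * T) (1 * T)) (c / b) (Real.log T) / Xf T := ⟨_, rfl⟩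
  have h20 : 0 < Real.log T ^ 2 / T := by positivity
  -- the inequality
  have f1 : ∑ j ∈ Finset.range (N + 1), m' j * (Pw G (aw j) (cw j) b T - C1 j) - 1 ≤
      (1 + η) ^ 2 * ((1 + e) * (b / 2)) := by
    have g1 := hgen.trans (mul_le_mul_right hup _)
    rw [← ENNReal.ofReal_mul (by positivity), ENNReal.ofReal_le_ofReal_iff (by positivity)] at g1
    have g2 : (1 + η) ^ 2 * ((1 + e) * (b / 2) * (Real.log T ^ 2 / T)) =
        Real.log T ^ 2 / T * ((1 + η) ^ 2 * ((1 + e) * (b / 2))) := by ring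
    rw [g2] at g1
    exact le_of_mul_le_mul_left g1 h20
  have f2 : b * ct G 0 * (h - η) / (2 * π) * (∑ j ∈ Finset.range N, m' j) +
      1 / 4 * (b * (ct G 0 - e) / (2 * π) * p) ≤
      ∑ j ∈ Finset.range (N + 1), m' j * Pw G (aw j) (cw j) b T := by
    rw [Finset.sum_range_succ, Finset.mul_sum]
    refine add_le_add (Finset.sum_le_sum fun j hj => ?_) ?_
    · have k1 := mul_le_mul_of_nonneg_left (hall j hj b hb0) (hm'0 j)
      rw [hawj j (Finset.mem_range.1 hj), hcwj j (Finset.mem_range.1 hj)] at k1 ⊢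
      have k2 : (a + j * h + h) - (a + j * h) - η = h - η := by ring
      rw [k2] at k1
      linarith
    · rw [hm'N, hawN, hcwN]
      refine mul_le_mul_of_nonneg_left ?_ (by norm_num)
      unfold Pw
      rw [le_div_iff₀ (by positivity)]
      have k1 := QS_close hct hc hb0 (Zb (1 / 2 * T) (1 * T)) (Real.log T)
      refine le_trans (le_of_eq ?_) k1
      rw [hp]
      unfold Xf
      field_simp
  have f3 : ∑ j ∈ Finset.range (N + 1), m' j * (Pw G (aw j) (cw j) b T - C1 j) =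
      ∑ j ∈ Finset.range (N + 1), m' j * Pw G (aw j) (cw j) b T - C2 := by
    rw [hC2, ← Finset.sum_sub_distrib]
    refine Finset.sum_congr rfl fun j _ => ?_
    ring
  rw [f3] at f1
  -- the mass of the windows
  obtain ⟨S, hS⟩ : ∃ S, S = ∑ j ∈ Finset.range N, m j := ⟨_, rfl⟩
  obtain ⟨S', hS'⟩ : ∃ S', S' = ∑ j ∈ Finset.range N, m' j := ⟨_, rfl⟩
  rw [← hS'] at f2
  rw [← hS] at hsum
  obtain ⟨I, hI⟩ : ∃ I : ℝ, I = ((Finset.range N).filter P).card := ⟨_, rfl⟩
  have f5 : I * h ≤ 1 / 2 + 2 * h := by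
    rw [hI]
    exact card_I hh N fun j hj => by
      rw [hP] at hj
      exact hj
  have f4 : S' = S - 1 / 4 * I := by
    have k2 : S' = ∑ j ∈ Finset.range N, (m j - if P j then (1 / 4 : ℝ) else 0) := by
      rw [hS']
      exact Finset.sum_congr rfl fun j hj => hm'j j (Finset.mem_range.1 hj)
    rw [k2, Finset.sum_sub_distrib, ← Finset.sum_filter, Finset.sum_const, nsmul_eq_mul, ← hI, hS,
      mul_comm I]
  have f6 : π * (1 - e) - (1 / 8 + e / 2) ≤ h * S' := by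
    rw [f4]
    have : h * (S - 1 / 4 * I) = h * S - 1 / 4 * (I * h) := by ring
    rw [this]
    linarith
  have hS'0 : 0 ≤ S' := by rw [hS']; exact Finset.sum_nonneg fun j _ => hm'0 j
  have f7 : (1 - e) * (π * (1 - e) - (1 / 8 + e / 2)) ≤ (h - η) * S' := by
    have k1 : (1 - e) * (π * (1 - e) - (1 / 8 + e / 2)) ≤ (1 - e) * (h * S') :=
      mul_le_mul_of_nonneg_left f6 (by linarith)
    have k2 : (1 - e) * h * S' ≤ (h - η) * S' := mul_le_mul_of_nonneg_right (by linarith) hS'0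
    linarith
  have h6 : 1 - e ≤ ct G 0 := num4.trans hctG
  have hp0 : 0 ≤ p := by
    rw [hp]
    refine div_nonneg ?_ hX.le
    unfold PZ
    refine Finset.sum_nonneg fun s _ => Finset.sum_nonneg fun s' _ => ?_
    exact mul_nonneg (mul_nonneg (mz_nonneg _) (mz_nonneg _)) (ind_nonneg _ _)
  -- conclusion
  have f8 : ct G 0 * ((h - η) * S') + 1 / 4 * ((ct G 0 - e) * p) ≤
      π * ((1 + η) ^ 2 * (1 + e)) + 2 * π * (C2 + 1) / b := by
    have k1 : b * ct G 0 * (h - η) / (2 * π) * S' + 1 / 4 * (b * (ct G 0 - e) / (2 * π) * p) ≤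
        (1 + η) ^ 2 * ((1 + e) * (b / 2)) + (C2 + 1) := by linarith
    have k2 := mul_le_mul_of_nonneg_left k1 (show 0 ≤ 2 * π / b by positivity)
    have k3 : 2 * π / b * (b * ct G 0 * (h - η) / (2 * π) * S' +
        1 / 4 * (b * (ct G 0 - e) / (2 * π) * p)) =
        ct G 0 * ((h - η) * S') + 1 / 4 * ((ct G 0 - e) * p) := by
      field_simp
    have k4 : 2 * π / b * ((1 + η) ^ 2 * ((1 + e) * (b / 2)) + (C2 + 1)) =
        π * ((1 + η) ^ 2 * (1 + e)) + 2 * π * (C2 + 1) / b := by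
      field_simp
    rw [k3, k4] at k2
    exact k2
  have f9 : 2 * π * (C2 + 1) / b ≤ e := by
    rw [div_le_iff₀ hb0]
    linarith
  have f10 : (1 + η) ^ 2 * (1 + e) ≤ 1 + 4 * e := by
    have k1 : (1 + η) ^ 2 ≤ (1 + e) ^ 2 := pow_le_pow_left₀ (by linarith) (by linarith) 2
    exact (mul_le_mul_of_nonneg_right k1 (by linarith)).trans (num1 he0.le he1)
  have f15 : p ≤ 1 / 2 + 130 * e := num5 he0 he1 h6 hp0 f7 f10 f9 f8 rfl
  have f16 : PZ (Zb (1 / 2 * T) (1 * T)) (c / b) (Real.log T) = p * Xf T := by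
    rw [hp]
    field_simp
  rw [f16]
  exact mul_le_mul_of_nonneg_right (by linarith) hX.le

lemma PZ_mono_L (Z : Finset ℂ) {y L L' : ℝ} (hL : 0 ≤ L) (h : L ≤ L') :
    PZ Z y L' ≤ PZ Z y L := by
  unfold PZ
  refine Finset.sum_le_sum fun s _ => Finset.sum_le_sum fun s' _ => ?_
  refine mul_le_mul_of_nonneg_left ?_ (mul_nonneg (mz_nonneg _) (mz_nonneg _))
  by_cases hx : |(s.im - s'.im) * L' / (2 * π)| ≤ y
  · have h2 : |(s.im - s'.im) * L / (2 * π)| ≤ y := by
      refine le_trans ?_ hx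
      rw [abs_div, abs_div, abs_mul _ L, abs_mul _ L', abs_of_nonneg hL,
        abs_of_nonneg (hL.trans h)]
      exact div_le_div_of_nonneg_right (mul_le_mul_of_nonneg_left h (abs_nonneg _)) (abs_nonneg _)
    rw [Set.indicator_of_mem (show (s.im - s'.im) * L' / (2 * π) ∈ {x : ℝ | |x| ≤ y} from hx),
      Set.indicator_of_mem (show (s.im - s'.im) * L / (2 * π) ∈ {x : ℝ | |x| ≤ y} from h2)]
  · rw [Set.indicator_of_notMem (show (s.im - s'.im) * L' / (2 * π) ∉ {x : ℝ | |x| ≤ y} from hx)]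
    exact ind_nonneg _ _

lemma PZ_mono_y (Z : Finset ℂ) {y y' : ℝ} (h : y ≤ y') (L : ℝ) :
    PZ Z y L ≤ PZ Z y' L := by
  unfold PZ
  refine Finset.sum_le_sum fun s _ => Finset.sum_le_sum fun s' _ => ?_
  refine mul_le_mul_of_nonneg_left ?_ (mul_nonneg (mz_nonneg _) (mz_nonneg _))
  exact Set.indicator_le_indicator_of_subset (fun x (hx : |x| ≤ y) => hx.trans h)
    (fun _ => zero_le_one) _

/-- **essential simplicity** -/
theorem esh (RH : RiemannHypothesis) (hA : 0 ≤ A) (hU : UH A) {ε : ℝ} (hε : 0 < ε) :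
    ∃ y0 : ℝ, 0 < y0 ∧ ∀ᶠ T : ℝ in atTop, Aa T y0 ≤ 1 + ε := by
  classical
  obtain ⟨s, hs⟩ : ∃ s, s = ε / 8 := ⟨_, rfl⟩
  have hs0 : 0 < s := by linarith
  obtain ⟨y1, hy1, hwin⟩ := win_excess RH hA hU hs0
  obtain ⟨y0, hy0⟩ : ∃ y0, y0 = min y1 1 := ⟨_, rfl⟩
  have hy0p : 0 < y0 := by rw [hy0]; exact lt_min hy1 one_pos
  have hy0y : y0 ≤ y1 := by rw [hy0]; exact min_le_left _ _
  have hy01 : y0 ≤ 1 := by rw [hy0]; exact min_le_right _ _
  refine ⟨y0, hy0p, ?_⟩
  obtain ⟨C0, T0, hT0, hAb⟩ := Aa_bound RH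
  have hpi := Real.pi_pos
  obtain ⟨V1, hV1, hcr⟩ := cross_gen RH (K := 2) (by norm_num) (η := s / (2 * π)) (by positivity)
  -- the recursion
  have hrec : ∀ᶠ T : ℝ in atTop, Aa T y0 ≤ 1 / 2 * Aa (T / 2) y0 + (1 / 2 + 2 * s) := by
    filter_upwards [hwin, eventually_ge_atTop (2 * V1), eventually_ge_atTop 4] with T hw hTV hT4
    have hT1 : 1 < T := by linarith
    have hTp : 0 < T := by linarith
    have hX := Xf_pos hT1
    have hX2 := Xf_pos (V := T / 2) (by linarith)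
    have hl2 : 0 < Real.log (T / 2) := Real.log_pos (by linarith)
    have hl3 : Real.log (T / 2) ≤ Real.log T := Real.log_le_log (by linarith) (by linarith)
    have hl4 : 0 < Real.log T := by linarith
    have e1 : (1 : ℝ) / 2 * T = T / 2 := by ring
    have e2 : (1 : ℝ) * T = 2 * (T / 2) := by ring
    rw [e1, e2] at hw
    have hspl := split_pairs (Zt_split (V := T / 2) (T := T) (by linarith) (by linarith))
      (Zt_disj (T := T) (by linarith)) (fun s s' : ℂ => mz s * mz s' *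
        ({x : ℝ | |x| ≤ y0}).indicator (fun _ => (1 : ℝ)) ((s.im - s'.im) * Real.log T / (2 * π)))
      (fun s s' => by
        show mz s * mz s' * _ = mz s' * mz s * _
        have : (s'.im - s.im) * Real.log T / (2 * π) = -((s.im - s'.im) * Real.log T / (2 * π)) := by
          ring
        rw [this, mul_comm (mz s')]
        congr 1
        by_cases hx : |(s.im - s'.im) * Real.log T / (2 * π)| ≤ y0
        · rw [Set.indicator_of_mem (show _ ∈ {x : ℝ | |x| ≤ y0} from hx),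
            Set.indicator_of_mem (show _ ∈ {x : ℝ | |x| ≤ y0} from by
              show |-_| ≤ y0
              rw [abs_neg]
              exact hx)]
        · rw [Set.indicator_of_notMem (show _ ∉ {x : ℝ | |x| ≤ y0} from hx),
            Set.indicator_of_notMem (show _ ∉ {x : ℝ | |x| ≤ y0} from by
              show ¬ |-_| ≤ y0
              rw [abs_neg]
              exact hx)])
    have e3 : T = 2 * (T / 2) := by ring
    have hcross := hcr (T / 2) (by linarith) (Real.log T) (by linarith)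
      (fun x => ({x : ℝ | |x| ≤ y0}).indicator (fun _ => (1 : ℝ)) x) (fun x => by
        rw [abs_of_nonneg (ind_nonneg _ _)]
        by_cases hx : |x| ≤ y0
        · rw [Set.indicator_of_mem (show x ∈ {x : ℝ | |x| ≤ y0} from hx), le_div_iff₀ (by positivity)]
          have : x ^ 2 ≤ 1 := by
            rw [← sq_abs]
            nlinarith [abs_nonneg x]
          linarith
        · rw [Set.indicator_of_notMem (show x ∉ {x : ℝ | |x| ≤ y0} from hx)]
          positivity)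
    have h1 : PZ (Zt T) y0 (Real.log T) ≤ PZ (Zt (T / 2)) y0 (Real.log (T / 2)) +
        (1 / 2 + s) * Xf T + 2 * (s / (2 * π) * (T / 2 * Real.log (T / 2))) := by
      have g1 : PZ (Zt T) y0 (Real.log T) = _ := hspl
      rw [g1]
      have g2 : ∑ s ∈ Zt (T / 2), ∑ s' ∈ Zt (T / 2), mz s * mz s' *
          ({x : ℝ | |x| ≤ y0}).indicator (fun _ => (1 : ℝ))
          ((s.im - s'.im) * Real.log T / (2 * π)) ≤ PZ (Zt (T / 2)) y0 (Real.log (T / 2)) :=
        PZ_mono_L (Zt (T / 2)) hl2.le hl3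
      have g3 : ∑ s ∈ Zb (T / 2) T, ∑ s' ∈ Zb (T / 2) T, mz s * mz s' *
          ({x : ℝ | |x| ≤ y0}).indicator (fun _ => (1 : ℝ))
          ((s.im - s'.im) * Real.log T / (2 * π)) ≤ (1 / 2 + s) * Xf T := by
        have := (PZ_mono_y (Zb (T / 2) (2 * (T / 2))) hy0y (Real.log T)).trans hw
        rw [← e3] at this
        exact this
      have g4 : ∑ s ∈ Zt (T / 2), ∑ s' ∈ Zb (T / 2) T, mz s * mz s' *
          ({x : ℝ | |x| ≤ y0}).indicator (fun _ => (1 : ℝ))
          ((s.im - s'.im) * Real.log T / (2 * π)) ≤ s / (2 * π) * (T / 2 * Real.log (T / 2)) := by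
        have := (le_abs_self _).trans hcross
        rw [← e3] at this
        exact this
      linarith
    have h2 : Aa T y0 = PZ (Zt T) y0 (Real.log T) / Xf T := by
      unfold Aa
      rw [PZ_PC, inv_mul_eq_div]
    have h3 : PZ (Zt (T / 2)) y0 (Real.log (T / 2)) = Aa (T / 2) y0 * Xf (T / 2) := by
      unfold Aa
      rw [PZ_PC]
      field_simp
    have h4 : Xf (T / 2) ≤ 1 / 2 * Xf T := by
      unfold Xf
      rw [← mul_div_assoc]
      refine div_le_div_of_nonneg_right ?_ (by positivity)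
      have : T / 2 * Real.log (T / 2) ≤ T / 2 * Real.log T :=
        mul_le_mul_of_nonneg_left hl3 (by positivity)
      linarith
    have h5 : 2 * (s / (2 * π) * (T / 2 * Real.log (T / 2))) ≤ s * Xf T := by
      have g1 : 2 * (s / (2 * π) * (T / 2 * Real.log (T / 2))) = 2 * s * Xf (T / 2) := by
        unfold Xf
        ring
      rw [g1]
      nlinarith
    have h6 : 0 ≤ Aa (T / 2) y0 := by
      unfold Aa
      exact mul_nonneg (inv_nonneg.2 hX2.le) (PC_nonneg _ _)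
    rw [h2, div_le_iff₀ hX]
    have h7 : Aa (T / 2) y0 * Xf (T / 2) ≤ Aa (T / 2) y0 * (1 / 2 * Xf T) :=
      mul_le_mul_of_nonneg_left h4 h6
    rw [h3] at h1
    linarith
  -- iteration
  have hC0 : 0 ≤ C0 := by
    have := (abs_nonneg _).trans (hAb T0 le_rfl 0)
    simpa using this
  obtain ⟨C, hC⟩ : ∃ C, C = C0 * (1 + y0 ^ 2) := ⟨_, rfl⟩
  have hCp : 0 ≤ C := by rw [hC]; positivity
  have hit : ∀ n : ℕ, ∀ᶠ T : ℝ in atTop, Aa T y0 ≤ (1 + 4 * s) + C / 2 ^ n := by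
    intro n
    induction n with
    | zero =>
      filter_upwards [eventually_ge_atTop T0] with T hT
      have := (le_abs_self _).trans (hAb T hT y0)
      rw [pow_zero, div_one, hC]
      linarith
    | succ n ih =>
      have h2 : Tendsto (fun T : ℝ => T / 2) atTop atTop := tendsto_id.atTop_div_const (by norm_num)
      filter_upwards [hrec, h2.eventually ih] with T h3 h4
      have e : C / 2 ^ (n + 1) = 1 / 2 * (C / 2 ^ n) := by
        rw [pow_succ]
        field_simp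
      rw [e]
      linarith
  obtain ⟨n, hn⟩ := exists_nat_gt (C / (ε / 2))
  filter_upwards [hit n] with T hT
  have h1 : C / 2 ^ n ≤ ε / 2 := by
    rw [div_lt_iff₀ (by positivity)] at hn
    rw [div_le_iff₀ (by positivity)]
    have : (n : ℝ) ≤ 2 ^ n := by exact_mod_cast (Nat.lt_two_pow_self (n := n)).le
    nlinarith
  linarith

end Pool.Agent.H7.LH
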