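import Pool.Agent.H7.LH.Tru
import Pool.Agent.H7.PS.Bnd
import Pool.Graph.R_pool_sql_team_seeded_2aa45f1a.Q32.Si.M

/-! The lower bound if the Riemann hypothesis is false. -/

open MeasureTheory Filter Topology Real
open scoped ENNReal

namespace Pool.Agent.H7.LH

open Pool.Agent.H7.PS

/-- the error term of the prime number theorem -/
noncomputable def er (v : ℝ) : ℝ := Chebyshev.psi (Real.exp v) - Real.exp v

lemma er_meas : Measurable er :=
  (Chebyshev.psi_mono.measurable.comp Real.measurable_exp).sub Real.measurable_exp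

lemma dn_er (v δ : ℝ) : dn v δ = er (v + δ) - er v := by
  unfold dn er
  ring

/-- the energy of a window -/
noncomputable def En (u w : ℝ) : ℝ≥0∞ :=
  ∫⁻ v in Set.Ioc u w, ENNReal.ofReal (Real.exp (-v) * er v ^ 2)

lemma shift_lint (g : ℝ → ℝ≥0∞) (u w δ : ℝ) :
    ∫⁻ v in Set.Ioc u w, g (v - δ) = ∫⁻ v in Set.Ioc (u - δ) (w - δ), g v := by
  rw [← lintegral_indicator measurableSet_Ioc, ← lintegral_indicator measurableSet_Ioc,
    ← lintegral_sub_right_eq_self (μ := volume)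
      (fun v => (Set.Ioc (u - δ) (w - δ)).indicator g v) δ]
  refine lintegral_congr fun v => ?_
  by_cases h : v ∈ Set.Ioc u w
  · rw [Set.indicator_of_mem h, Set.indicator_of_mem]
    exact ⟨by linarith [h.1], by linarith [h.2]⟩
  · rw [Set.indicator_of_notMem h, Set.indicator_of_notMem]
    intro h2
    exact h ⟨by linarith [h2.1], by linarith [h2.2]⟩

lemma En_step {δ : ℝ} (hδ : 0 < δ) (u w : ℝ) :
    En u w ≤ ENNReal.ofReal (Real.exp (-δ / 2)) * En (u - δ) (w - δ) +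
      ENNReal.ofReal (2 / δ) * ∫⁻ v in Set.Ioc (u - δ) (w - δ), qd (v, δ) := by
  unfold En
  rw [← shift_lint (fun v => ENNReal.ofReal (Real.exp (-v) * er v ^ 2)) u w δ,
    ← shift_lint (fun v => qd (v, δ)) u w δ, ← lintegral_const_mul' _ _ ENNReal.ofReal_ne_top,
    ← lintegral_const_mul' _ _ ENNReal.ofReal_ne_top]
  have m1 : Measurable fun v => ENNReal.ofReal (2 / δ) * qd (v - δ, δ) :=
    (qd_meas.comp ((measurable_id.sub_const δ).prodMk measurable_const)).const_mul _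
  rw [← lintegral_add_right _ m1]
  refine lintegral_mono fun v => ?_
  unfold qd
  show ENNReal.ofReal (Real.exp (-v) * er v ^ 2) ≤ ENNReal.ofReal (Real.exp (-δ / 2)) *
    ENNReal.ofReal (Real.exp (-(v - δ)) * er (v - δ) ^ 2) + ENNReal.ofReal (2 / δ) *
    ENNReal.ofReal (Real.exp (-(v - δ)) * dn (v - δ) δ ^ 2)
  rw [← ENNReal.ofReal_mul (Real.exp_pos _).le, ← ENNReal.ofReal_mul (by positivity),
    ← ENNReal.ofReal_add (by positivity) (by positivity)]
  refine ENNReal.ofReal_le_ofReal ?_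
  obtain ⟨x, hx⟩ : ∃ x, x = er (v - δ) := ⟨_, rfl⟩
  obtain ⟨y, hy⟩ : ∃ y, y = dn (v - δ) δ := ⟨_, rfl⟩
  have e1 : er v = x + y := by
    rw [hx, hy, dn_er, sub_add_cancel]
    ring
  rw [e1, ← hx, ← hy]
  obtain ⟨q, hq⟩ : ∃ q, q = Real.exp (δ / 2) := ⟨_, rfl⟩
  have hq1 : 1 + δ / 2 ≤ q := by
    rw [hq]
    linarith [Real.add_one_le_exp (δ / 2)]
  have hq0 : 0 < q := by linarith
  have e2 : Real.exp (-v) = Real.exp (-(v - δ)) * (q⁻¹ * q⁻¹) := by
    rw [hq, ← Real.exp_neg, ← Real.exp_add, ← Real.exp_add]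
    congr 1
    ring
  have e3 : Real.exp (-δ / 2) = q⁻¹ := by
    rw [hq, ← Real.exp_neg]
    congr 1
    ring
  rw [e2, e3]
  obtain ⟨E, hE⟩ : ∃ E, E = Real.exp (-(v - δ)) := ⟨_, rfl⟩
  rw [← hE]
  have hE0 : 0 < E := by rw [hE]; exact Real.exp_pos _
  have h1 : q⁻¹ * q⁻¹ * (x + y) ^ 2 ≤ q⁻¹ * x ^ 2 + 2 / δ * y ^ 2 := by
    have h2 : (x + y) ^ 2 ≤ q * x ^ 2 + q / (q - 1) * y ^ 2 := by
      have hq2 : 0 < q - 1 := by linarith
      have h3 : 0 ≤ ((q - 1) * x - y) ^ 2 / (q - 1) := by positivity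
      have h4 : ((q - 1) * x - y) ^ 2 / (q - 1) = (q - 1) * x ^ 2 - 2 * x * y +
          1 / (q - 1) * y ^ 2 := by
        field_simp
        ring
      have h5 : q / (q - 1) = 1 + 1 / (q - 1) := by
        field_simp
        ring
      rw [h5]
      nlinarith
    have h3 : q⁻¹ * q⁻¹ * (x + y) ^ 2 ≤ q⁻¹ * q⁻¹ * (q * x ^ 2 + q / (q - 1) * y ^ 2) :=
      mul_le_mul_of_nonneg_left h2 (by positivity)
    have hq2 : 0 < q - 1 := by linarith
    have h4 : q⁻¹ * q⁻¹ * (q * x ^ 2 + q / (q - 1) * y ^ 2) = q⁻¹ * x ^ 2 +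
        q⁻¹ * (1 / (q - 1)) * y ^ 2 := by
      field_simp
    have h5 : q⁻¹ * (1 / (q - 1)) ≤ 2 / δ := by
      have a1 : q⁻¹ ≤ 1 := inv_le_one_of_one_le₀ (by linarith)
      have a2 : 1 / (q - 1) ≤ 2 / δ := by
        rw [div_le_div_iff₀ hq2 hδ]
        linarith
      calc q⁻¹ * (1 / (q - 1)) ≤ 1 * (2 / δ) := mul_le_mul a1 a2 (by positivity) (by norm_num)
        _ = _ := one_mul _
    have h6 := mul_le_mul_of_nonneg_right h5 (sq_nonneg y)
    linarith
  calc E * (q⁻¹ * q⁻¹) * (x + y) ^ 2 = E * (q⁻¹ * q⁻¹ * (x + y) ^ 2) := by ring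
    _ ≤ E * (q⁻¹ * x ^ 2 + 2 / δ * y ^ 2) := mul_le_mul_of_nonneg_left h1 hE0.le
    _ = _ := by ring

lemma En_iter {δ : ℝ} (hδ : 0 < δ) (hδ1 : δ ≤ 1) {S : Set ℝ} (M : ℕ) : ∀ u w : ℝ,
    Set.Ioc (u - M * δ) w ⊆ S →
    En u w ≤ En (u - M * δ) (w - M * δ) + ENNReal.ofReal (8 / δ ^ 2) * ∫⁻ v in S, qd (v, δ) := by
  induction M with
  | zero =>
    intro u w _
    simp
  | succ n ih =>
    intro u w hS
    have hn : (0 : ℝ) ≤ n := Nat.cast_nonneg n
    have e1 : u - δ - n * δ = u - (n + 1 : ℕ) * δ := by push_cast; ring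
    have e2 : w - δ - n * δ = w - (n + 1 : ℕ) * δ := by push_cast; ring
    have h1 := ih (u - δ) (w - δ) (by
      rw [e1]
      exact (Set.Ioc_subset_Ioc_right (by linarith)).trans hS)
    rw [e1, e2] at h1
    have h2 := En_step hδ u w
    have h3 : ∫⁻ v in Set.Ioc (u - δ) (w - δ), qd (v, δ) ≤ ∫⁻ v in S, qd (v, δ) := by
      refine lintegral_mono_set ((Set.Ioc_subset_Ioc ?_ (by linarith)).trans hS)
      push_cast
      have : 0 ≤ (n : ℝ) * δ := by positivity
      linarith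
    obtain ⟨Q, hQ⟩ : ∃ Q, Q = ∫⁻ v in S, qd (v, δ) := ⟨_, rfl⟩
    rw [← hQ] at h1 h3 ⊢
    obtain ⟨B, hB⟩ : ∃ B, B = En (u - (n + 1 : ℕ) * δ) (w - (n + 1 : ℕ) * δ) := ⟨_, rfl⟩
    rw [← hB] at h1 ⊢
    have hexp : Real.exp (-δ / 2) ≤ 1 := Real.exp_le_one_iff.2 (by linarith)
    calc En u w ≤ _ := h2
      _ ≤ ENNReal.ofReal (Real.exp (-δ / 2)) * (B + ENNReal.ofReal (8 / δ ^ 2) * Q) +
          ENNReal.ofReal (2 / δ) * Q :=
          add_le_add (mul_le_mul_right h1 _) (mul_le_mul_right h3 _)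
      _ = ENNReal.ofReal (Real.exp (-δ / 2)) * B + (ENNReal.ofReal (Real.exp (-δ / 2)) *
          ENNReal.ofReal (8 / δ ^ 2) + ENNReal.ofReal (2 / δ)) * Q := by ring
      _ ≤ 1 * B + ENNReal.ofReal (8 / δ ^ 2) * Q := by
          refine add_le_add (mul_le_mul_left (ENNReal.ofReal_le_one.2 hexp) _)
            (mul_le_mul_left ?_ _)
          rw [← ENNReal.ofReal_mul (Real.exp_pos _).le, ← ENNReal.ofReal_add (by positivity)
            (by positivity)]
          refine ENNReal.ofReal_le_ofReal ?_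
          have h4 : Real.exp (-δ / 2) ≤ 1 - δ / 4 := by
            have a1 : 1 + δ / 2 ≤ Real.exp (δ / 2) := by linarith [Real.add_one_le_exp (δ / 2)]
            have a2 : Real.exp (-δ / 2) = (Real.exp (δ / 2))⁻¹ := by
              rw [← Real.exp_neg]
              congr 1
              ring
            rw [a2]
            have a3 : (Real.exp (δ / 2))⁻¹ ≤ (1 + δ / 2)⁻¹ := inv_anti₀ (by positivity) a1
            refine a3.trans ?_
            rw [inv_le_iff_one_le_mul₀ (by positivity)]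
            nlinarith
          have h5 : Real.exp (-δ / 2) * (8 / δ ^ 2) ≤ (1 - δ / 4) * (8 / δ ^ 2) :=
            mul_le_mul_of_nonneg_right h4 (by positivity)
          have h6 : (1 - δ / 4) * (8 / δ ^ 2) = 8 / δ ^ 2 - 2 / δ := by
            field_simp
            ring
          linarith
      _ = _ := by rw [one_mul]

lemma er_le (v : ℝ) : |er v| ≤ cC * Real.exp v := by
  have h := dP_abs (a := 0) (H := Real.exp v) le_rfl (Real.exp_pos v).le
  unfold dP at h
  rw [zero_add] at h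
  have h0 : Chebyshev.psi 0 = 0 := Chebyshev.psi_eq_zero_of_lt_two (by norm_num)
  rw [h0, sub_zero] at h
  exact h

lemma En_base {u w : ℝ} (hw1 : w ≤ u + 1) :
    En u w ≤ ENNReal.ofReal (cC ^ 2 * Real.exp w) := by
  have hc := cC_one
  have h1 : En u w ≤ ∫⁻ v in Set.Ioc u w, ENNReal.ofReal (cC ^ 2 * Real.exp w) := by
    unfold En
    refine setLIntegral_mono' measurableSet_Ioc fun v hv => ENNReal.ofReal_le_ofReal ?_
    have h2 := er_le v
    have h3 : er v ^ 2 ≤ (cC * Real.exp v) ^ 2 := by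
      rw [← sq_abs]
      exact pow_le_pow_left₀ (abs_nonneg _) h2 2
    calc Real.exp (-v) * er v ^ 2 ≤ Real.exp (-v) * (cC * Real.exp v) ^ 2 :=
          mul_le_mul_of_nonneg_left h3 (Real.exp_pos _).le
      _ = cC ^ 2 * (Real.exp (-v) * Real.exp v * Real.exp v) := by ring
      _ = cC ^ 2 * Real.exp v := by rw [← Real.exp_add, neg_add_cancel, Real.exp_zero, one_mul]
      _ ≤ cC ^ 2 * Real.exp w :=
          mul_le_mul_of_nonneg_left (Real.exp_le_exp.2 hv.2) (by positivity)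
  refine h1.trans ?_
  rw [setLIntegral_const, Real.volume_Ioc, ← ENNReal.ofReal_mul (by positivity)]
  refine ENNReal.ofReal_le_ofReal ?_
  exact mul_le_of_le_one_right (by positivity) (by linarith)

/-- the window of a zero off the line -/
lemma En_big {θ : ℝ} (hθ : 1 / 2 ≤ θ) (hz : ∃ s : ℂ, riemannZeta s = 0 ∧ θ < s.re) :
    ∀ᶠ u : ℝ in atTop, ENNReal.ofReal (Real.exp ((2 * θ - 1) * u)) ≤
      En u (u + Real.log (6 / 5)) := by
  have h1 := Pool.Agent.Q32.Si.fP_win θ hθ hz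
  have h2 := Real.tendsto_exp_atTop.eventually h1
  filter_upwards [h2] with u hu
  obtain ⟨x, hx⟩ : ∃ x, x = Real.exp u := ⟨_, rfl⟩
  have hx0 : 0 < x := by rw [hx]; exact Real.exp_pos u
  rw [← hx] at hu
  have hu0 := hu 0
  simp only [sub_zero] at hu0
  have hfe : ∀ y, Pool.Agent.Q32.Si.fP y = Chebyshev.psi y - y := fun y => by
    unfold Pool.Agent.Q32.Si.fP
    rw [Pool.Agent.W190.SF_psi]
  simp_rw [hfe] at hu0
  have h6 : x + x / 5 = Real.exp (u + Real.log (6 / 5)) := by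
    rw [Real.exp_add, Real.exp_log (by norm_num), hx]
    ring
  have hxx : x ≤ x + x / 5 := by linarith
  rw [intervalIntegral.integral_of_le hxx] at hu0
  have hint : IntegrableOn (fun y => |Chebyshev.psi y - y|) (Set.Ioc x (x + x / 5)) := by
    have : IntervalIntegrable (fun y => |Chebyshev.psi y - y|) volume x (x + x / 5) :=
      ((Chebyshev.psi_mono.intervalIntegrable).sub
        (continuous_id.intervalIntegrable _ _)).abs
    rwa [intervalIntegrable_iff_integrableOn_Ioc_of_le hxx] at this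
  have hcs := cs_lint hint
  have hpos : 0 < x ^ (1 + θ) := Real.rpow_pos_of_pos hx0 _
  have h7 : ENNReal.ofReal ((x ^ (1 + θ)) ^ 2) ≤ volume (Set.Ioc x (x + x / 5)) *
      ∫⁻ y in Set.Ioc x (x + x / 5), ENNReal.ofReal (|Chebyshev.psi y - y| ^ 2) :=
    (ENNReal.ofReal_le_ofReal (pow_le_pow_left₀ hpos.le hu0.le 2)).trans hcs
  rw [Real.volume_Ioc, add_sub_cancel_left] at h7
  have h8 : ∫⁻ y in Set.Ioc x (x + x / 5), ENNReal.ofReal (|Chebyshev.psi y - y| ^ 2) ≤
      ENNReal.ofReal ((x + x / 5) ^ 2) * En u (u + Real.log (6 / 5)) := by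
    have hE : En u (u + Real.log (6 / 5)) = ∫⁻ v, (Set.Ioc u
        (u + Real.log (6 / 5))).indicator (fun v => ENNReal.ofReal (Real.exp (-v) * er v ^ 2)) v := by
      rw [lintegral_indicator measurableSet_Ioc]
      rfl
    rw [hE, sub_log (g := (Set.Ioc u
      (u + Real.log (6 / 5))).indicator fun v => ENNReal.ofReal (Real.exp (-v) * er v ^ 2)),
      ← lintegral_const_mul' _ _ ENNReal.ofReal_ne_top]
    refine le_trans ?_ (lintegral_mono_set (s := Set.Ioc x (x + x / 5))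
      fun y hy => lt_trans hx0 hy.1)
    refine setLIntegral_mono' measurableSet_Ioc fun y hy => ?_
    have hy0 : 0 < y := lt_trans hx0 hy.1
    have hmem : Real.log y ∈ Set.Ioc u (u + Real.log (6 / 5)) := by
      constructor
      · rw [Real.lt_log_iff_exp_lt hy0, ← hx]
        exact hy.1
      · rw [Real.log_le_iff_le_exp hy0, ← h6]
        exact hy.2
    rw [Set.indicator_of_mem hmem, ← ENNReal.ofReal_mul (by positivity),
      ← ENNReal.ofReal_mul (by positivity)]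
    refine ENNReal.ofReal_le_ofReal ?_
    have e1 : er (Real.log y) = Chebyshev.psi y - y := by
      unfold er
      rw [Real.exp_log hy0]
    have e2 : Real.exp (-Real.log y) = 1 / y := by
      rw [Real.exp_neg, Real.exp_log hy0, one_div]
    rw [e1, e2, sq_abs]
    have e3 : (x + x / 5) ^ 2 * (1 / y * (1 / y * (Chebyshev.psi y - y) ^ 2)) =
        ((x + x / 5) / y) ^ 2 * (Chebyshev.psi y - y) ^ 2 := by
      field_simp
    rw [e3]
    refine le_mul_of_one_le_left (sq_nonneg _) ?_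
    have : 1 ≤ (x + x / 5) / y := by
      rw [le_div_iff₀ hy0, one_mul]
      exact hy.2
    exact one_le_pow₀ this
  have h9 := h7.trans (mul_le_mul_right h8 _)
  rw [← mul_assoc, ← ENNReal.ofReal_mul (by positivity)] at h9
  have e4 : (x ^ (1 + θ)) ^ 2 = x ^ 3 * Real.exp ((2 * θ - 1) * u) := by
    rw [Real.rpow_def_of_pos hx0, hx, Real.log_exp, ← Real.exp_nat_mul, ← Real.exp_nat_mul,
      ← Real.exp_add]
    congr 1
    push_cast
    ring
  have e5 : x / 5 * (x + x / 5) ^ 2 = x ^ 3 * (36 / 125) := by ring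
  rw [e4, e5, ENNReal.ofReal_mul (by positivity), ENNReal.ofReal_mul (by positivity),
    mul_assoc] at h9
  have hx3 : ENNReal.ofReal (x ^ 3) ≠ 0 := by
    rw [Ne, ENNReal.ofReal_eq_zero, not_le]
    positivity
  have h10 := (ENNReal.mul_le_mul_iff_right hx3 ENNReal.ofReal_ne_top).1 h9
  refine h10.trans ?_
  refine mul_le_of_le_one_left (zero_le) ?_
  exact ENNReal.ofReal_le_one.2 (by norm_num)

/-- **the lower bound if the Riemann hypothesis fails** -/
theorem rh_false (hRH : ¬ RiemannHypothesis) {A : ℝ} (hA : 0 ≤ A) : ∃ b0 : ℝ, 1 ≤ b0 ∧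
    ∀ b : ℝ, b0 ≤ b → ∀ᶠ T : ℝ in atTop, ENNReal.ofReal (T / 64) ≤ Jf A b T := by
  rw [Pool.Agent.W190.rh_free] at hRH
  push Not at hRH
  obtain ⟨s, hs, hs0⟩ := hRH
  obtain ⟨θ, hθ⟩ : ∃ θ, θ = (s.re + 1 / 2) / 2 := ⟨_, rfl⟩
  have hθ2 : 1 / 2 < θ := by linarith
  have hθs : θ < s.re := by linarith
  have hbig := En_big hθ2.le ⟨s, hs0, hθs⟩
  have hk0 : 0 < 2 * θ - 1 := by linarith
  have hk1 : 2 * θ - 1 ≤ 1 := by
    have : s.re < 1 := by
      by_contra hc
      exact riemannZeta_ne_zero_of_one_le_re (not_lt.1 hc) hs0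
    linarith
  refine ⟨max 1 (2 * (A + 4) / (2 * θ - 1)), le_max_left _ _, fun b hb => ?_⟩
  have hb1 : 1 ≤ b := (le_max_left _ _).trans hb
  have hb2 : 2 * (A + 4) / (2 * θ - 1) ≤ b := (le_max_right _ _).trans hb
  rw [div_le_iff₀ hk0] at hb2
  have hb0 : 0 < b := by linarith
  have hbA : A + 4 ≤ b / 2 := by nlinarith
  obtain ⟨ℓ, hℓ⟩ : ∃ ℓ, ℓ = Real.log (6 / 5) := ⟨_, rfl⟩
  have hℓ0 : 0 < ℓ := by rw [hℓ]; exact Real.log_pos (by norm_num)
  have hℓ1 : ℓ ≤ 1 := by
    rw [hℓ]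
    have := Real.log_le_sub_one_of_pos (x := 6 / 5) (by norm_num)
    linarith
  rw [← hℓ] at hbig
  have hcC := cC_one
  have hsub : Tendsto (fun T : ℝ => b / 2 * Real.log T - ℓ) atTop atTop :=
    tendsto_atTop_add_const_right _ _ (Real.tendsto_log_atTop.const_mul_atTop (by positivity))
  filter_upwards [hsub.eventually hbig,
    eventually_ge_atTop 1, eventually_ge_atTop (Real.exp 1 * (1 + cC ^ 2 * Real.exp 3)),
    Real.tendsto_log_atTop.eventually_ge_atTop 4] with T h1 hT hTe hTl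
  have hTp : 0 < T := by linarith
  have hL : 0 < Real.log T := by linarith
  obtain ⟨δ, hδ⟩ : ∃ δ, δ = Real.log (1 + 1 / T) := ⟨_, rfl⟩
  have hδT : δ ≤ 1 / T := by
    have h1 := Real.log_le_sub_one_of_pos (x := 1 + 1 / T) (by positivity)
    rw [hδ]
    linarith
  have hδT2 : 1 / (2 * T) ≤ δ := by
    have h1 := Real.one_sub_inv_le_log_of_pos (x := 1 + 1 / T) (by positivity)
    rw [← hδ] at h1
    have h2 : 1 - (1 + 1 / T)⁻¹ = 1 / (T + 1) := by
      field_simp
      ring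
    rw [h2] at h1
    exact (one_div_le_one_div_of_le (by positivity) (by linarith)).trans h1
  have hδ0 : 0 < δ := lt_of_lt_of_le (by positivity) hδT2
  have hδ1 : δ ≤ 1 := hδT.trans (by
    rw [div_le_one hTp]
    exact hT)
  obtain ⟨L, hLe⟩ : ∃ L, L = Real.log T := ⟨_, rfl⟩
  unfold Jf
  rw [← hδ]
  rw [← hLe] at hL hTl h1 ⊢
  obtain ⟨u, hu⟩ : ∃ u, u = b / 2 * L - ℓ := ⟨_, rfl⟩
  rw [← hu] at h1
  -- the number of the steps
  obtain ⟨M, hM⟩ : ∃ M, M = ⌊(u - A * L - 1) / δ⌋₊ := ⟨_, rfl⟩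
  have huA : 0 ≤ u - A * L - 1 := by
    have : (A + 4) * L ≤ b / 2 * L := mul_le_mul_of_nonneg_right hbA hL.le
    nlinarith
  have hM1 : M * δ ≤ u - A * L - 1 := by
    have := Nat.floor_le (a := (u - A * L - 1) / δ) (by positivity)
    rw [← hM, le_div_iff₀ hδ0] at this
    exact this
  have hM2 : u - A * L - 1 < (M + 1) * δ := by
    have := Nat.lt_floor_add_one ((u - A * L - 1) / δ)
    rw [← hM, div_lt_iff₀ hδ0] at this
    exact this
  have h3 := En_iter hδ0 hδ1 (S := Set.Ioc (A * L) (b / 2 * L)) M u (u + ℓ) (by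
    refine Set.Ioc_subset_Ioc (by linarith) (le_of_eq ?_)
    rw [hu]
    ring)
  have h4 : En (u - M * δ) (u + ℓ - M * δ) ≤ ENNReal.ofReal (cC ^ 2 * Real.exp (A * L + 3)) := by
    refine (En_base (by linarith)).trans (ENNReal.ofReal_le_ofReal ?_)
    refine mul_le_mul_of_nonneg_left (Real.exp_le_exp.2 ?_) (by positivity)
    linarith
  obtain ⟨Q, hQ⟩ : ∃ Q, Q = ∫⁻ v in Set.Ioc (A * L) (b / 2 * L), qd (v, δ) := ⟨_, rfl⟩
  rw [← hQ] at h3
  have h5 : ENNReal.ofReal (Real.exp ((2 * θ - 1) * u) - cC ^ 2 * Real.exp (A * L + 3)) ≤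
      ENNReal.ofReal (8 / δ ^ 2) * Q := by
    rw [ENNReal.ofReal_sub _ (by positivity)]
    refine tsub_le_iff_right.2 ?_
    rw [add_comm]
    exact h1.trans (h3.trans (add_le_add h4 le_rfl))
  have hTexp : Real.exp L = T := by rw [hLe, Real.exp_log hTp]
  have h6 : T ^ 3 ≤ Real.exp ((2 * θ - 1) * u) - cC ^ 2 * Real.exp (A * L + 3) := by
    have a1 : (A + 4) * L - 1 ≤ (2 * θ - 1) * u := by
      rw [hu]
      have : (A + 4) * L ≤ b * (2 * θ - 1) / 2 * L :=
        mul_le_mul_of_nonneg_right (by linarith) hL.le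
      nlinarith
    have a2 : Real.exp ((A + 4) * L - 1) ≤ Real.exp ((2 * θ - 1) * u) := Real.exp_le_exp.2 a1
    have a3 : Real.exp ((A + 4) * L - 1) = Real.exp (A * L) * T ^ 3 * (T / Real.exp 1) := by
      rw [Real.exp_sub, add_mul, Real.exp_add, show (4 : ℝ) * L = (4 : ℕ) * L by norm_num,
        Real.exp_nat_mul, hTexp]
      ring
    have a4 : Real.exp (A * L + 3) = Real.exp (A * L) * Real.exp 3 := Real.exp_add _ _
    have a5 : 1 + cC ^ 2 * Real.exp 3 ≤ T / Real.exp 1 := by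
      rw [le_div_iff₀ (Real.exp_pos 1)]
      linarith
    have a6 : 1 ≤ Real.exp (A * L) := Real.one_le_exp_iff.2 (by positivity)
    have a7 : Real.exp (A * L) * T ^ 3 * (1 + cC ^ 2 * Real.exp 3) ≤
        Real.exp (A * L) * T ^ 3 * (T / Real.exp 1) := mul_le_mul_of_nonneg_left a5 (by positivity)
    have a8 : T ^ 3 ≤ Real.exp (A * L) * T ^ 3 := le_mul_of_one_le_left (by positivity) a6
    have a9 : cC ^ 2 * (Real.exp (A * L) * Real.exp 3) ≤
        Real.exp (A * L) * T ^ 3 * (cC ^ 2 * Real.exp 3) := by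
      have b1 : 1 ≤ T ^ 3 := one_le_pow₀ hT
      have b2 : 0 ≤ cC ^ 2 * (Real.exp (A * L) * Real.exp 3) := by positivity
      nlinarith
    rw [a4]
    nlinarith
  have h7 : ENNReal.ofReal (T / 32) ≤ Q := by
    have b1 : ENNReal.ofReal (T ^ 3) ≤ ENNReal.ofReal (32 * T ^ 2) * Q := by
      refine (ENNReal.ofReal_le_ofReal h6).trans (h5.trans (mul_le_mul_left ?_ _))
      refine ENNReal.ofReal_le_ofReal ?_
      rw [div_le_iff₀ (by positivity)]
      have c1 : (1 / (2 * T)) ^ 2 ≤ δ ^ 2 := pow_le_pow_left₀ (by positivity) hδT2 2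
      have c2 : 32 * T ^ 2 * (1 / (2 * T)) ^ 2 = 8 := by
        field_simp
        ring
      have c3 : 32 * T ^ 2 * (1 / (2 * T)) ^ 2 ≤ 32 * T ^ 2 * δ ^ 2 :=
        mul_le_mul_of_nonneg_left c1 (by positivity)
      linarith
    have e1 : T ^ 3 = 32 * T ^ 2 * (T / 32) := by ring
    rw [e1, ENNReal.ofReal_mul (by positivity)] at b1
    refine (ENNReal.mul_le_mul_iff_right ?_ ENNReal.ofReal_ne_top).1 b1
    rw [Ne, ENNReal.ofReal_eq_zero, not_le]
    positivity
  have h8 : ENNReal.ofReal (1 / 2) * Q ≤ ∫⁻ v in Set.Ioi (A * L),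
      ENNReal.ofReal (1 - v / (b * L)) * qd (v, δ) := by
    rw [hQ, ← lintegral_const_mul' _ _ ENNReal.ofReal_ne_top]
    refine le_trans ?_ (lintegral_mono_set (s := Set.Ioc (A * L) (b / 2 * L))
      Set.Ioc_subset_Ioi_self)
    refine setLIntegral_mono' measurableSet_Ioc fun v hv => mul_le_mul_left ?_ _
    refine ENNReal.ofReal_le_ofReal ?_
    have : v / (b * L) ≤ 1 / 2 := by
      rw [div_le_iff₀ (by positivity)]
      linarith [hv.2]
    linarith
  refine le_trans ?_ ((mul_le_mul_right h7 _).trans h8)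
  rw [← ENNReal.ofReal_mul (by norm_num)]
  refine ENNReal.ofReal_le_ofReal ?_
  linarith

/-- the order of magnitude -/
lemma log_sq_small {c : ℝ} (hc : 0 < c) : ∀ᶠ T : ℝ in atTop, Real.log T ^ 2 / T < c := by
  have hlog2 : Tendsto (fun T : ℝ => Real.log T ^ 2 / T) atTop (𝓝 0) := by
    have := isLittleO_log_rpow_atTop (r := 1 / 2) (by norm_num)
    have h2 := this.tendsto_div_nhds_zero
    have h3 := h2.mul h2
    rw [mul_zero] at h3
    refine h3.congr' ?_
    filter_upwards [eventually_gt_atTop 0] with T hT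
    have : T ^ (1 / 2 : ℝ) * T ^ (1 / 2 : ℝ) = T := by
      rw [← Real.rpow_add hT]
      norm_num
    rw [div_mul_div_comm, this, sq]
  exact (tendsto_order.1 hlog2).2 c hc

/-- **the lower bound, without hypothesis** -/
theorem jf_lower {A : ℝ} (hA : 0 ≤ A) {d : ℝ} (hd : 0 < d) : ∃ b0 : ℝ, 1 ≤ b0 ∧
    ∀ b : ℝ, b0 ≤ b → ∀ᶠ T : ℝ in atTop,
      ENNReal.ofReal ((1 - d) * (b / 2) * (Real.log T ^ 2 / T)) ≤ Jf A b T := by
  obtain ⟨e, he0, he1, hed⟩ : ∃ e : ℝ, 0 < e ∧ e < 1 ∧ e ≤ d :=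
    ⟨min d (1 / 2), lt_min hd (by norm_num), (min_le_right _ _).trans_lt (by norm_num),
      min_le_left _ _⟩
  by_cases hRH : RiemannHypothesis
  · obtain ⟨b0, hb0, h⟩ := rh_true hRH hA he0 he1
    refine ⟨b0, hb0, fun b hb => ?_⟩
    filter_upwards [h b hb, eventually_gt_atTop 0] with T h1 hT
    refine le_trans (ENNReal.ofReal_le_ofReal ?_) h1
    have : 0 ≤ (b / 2) * (Real.log T ^ 2 / T) := by
      have : 0 < b := by linarith
      positivity
    nlinarith
  · obtain ⟨b0, hb0, h⟩ := rh_false hRH hA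
    refine ⟨b0, hb0, fun b hb => ?_⟩
    have hb' : 0 < b := by linarith
    filter_upwards [h b hb, log_sq_small (c := 1 / (32 * b)) (by positivity),
      eventually_ge_atTop 1] with T h1 h2 hT
    refine le_trans (ENNReal.ofReal_le_ofReal ?_) h1
    have h3 : 0 ≤ (b / 2) * (Real.log T ^ 2 / T) := by positivity
    have c1 : b / 2 * (Real.log T ^ 2 / T) ≤ b / 2 * (1 / (32 * b)) :=
      mul_le_mul_of_nonneg_left h2.le (by positivity)
    have c2 : b / 2 * (1 / (32 * b)) = 1 / 64 := by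
      field_simp
      norm_num
    nlinarith

/-- the upper half gives the Riemann hypothesis -/
theorem rh_of_upper {A : ℝ} (hA : 0 ≤ A) (h : ∃ᶠ b : ℝ in atTop, ∃ K : ℝ, ∃ᶠ T : ℝ in atTop,
    Jf A b T ≤ ENNReal.ofReal (K * (Real.log T ^ 2 / T))) : RiemannHypothesis := by
  by_contra hRH
  obtain ⟨b0, hb0, h1⟩ := rh_false hRH hA
  obtain ⟨b, ⟨K, hb⟩, hb2⟩ := (h.and_eventually (eventually_ge_atTop b0)).exists
  obtain ⟨T, hT, h2, h3, h4⟩ := (hb.and_eventually ((h1 b hb2).and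
    ((log_sq_small (c := 1 / (64 * (|K| + 1))) (by positivity)).and
      (eventually_ge_atTop 1)))).exists
  have h5 := h2.trans hT
  have h6 : K * (Real.log T ^ 2 / T) < T / 64 := by
    have a1 : K * (Real.log T ^ 2 / T) ≤ (|K| + 1) * (Real.log T ^ 2 / T) := by
      refine mul_le_mul_of_nonneg_right ?_ (by positivity)
      linarith [le_abs_self K]
    have a2 : (|K| + 1) * (Real.log T ^ 2 / T) < (|K| + 1) * (1 / (64 * (|K| + 1))) :=
      mul_lt_mul_of_pos_left h3 (by positivity)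
    have a3 : (|K| + 1) * (1 / (64 * (|K| + 1))) = 1 / 64 := by
      have : |K| + 1 ≠ 0 := by positivity
      field_simp
    linarith
  exact absurd h5 (not_le.2 ((ENNReal.ofReal_lt_ofReal_iff (by linarith)).2 h6))

end Pool.Agent.H7.LH
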