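import Pool.Agent.H7.LH.Esh
import Pool.Graph.R_seed8.Y744.PCR.Glue

/-! The functional as an integral over `x`. -/

open MeasureTheory Filter Topology Real
open scoped ENNReal

namespace Pool.Agent.H7.LH

open H370 TH803TW Pool.Agent.Y744 Pool.Agent.H7.PS Pool.Agent.H7.FF

/-- the error term in the interval `(x, x + x / T]` -/
noncomputable def Dx (T x : ℝ) : ℝ := Chebyshev.psi (x + x / T) - Chebyshev.psi x - x / T

lemma Dx_meas (T : ℝ) : Measurable (Dx T) := by
  unfold Dx
  have hψ : Measurable Chebyshev.psi := Chebyshev.psi_mono.measurable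
  exact ((hψ.comp (by fun_prop)).sub hψ).sub (by fun_prop)

/-- the integrand -/
noncomputable def Fx (b T x : ℝ) : ℝ := (1 - Real.log x / (b * Real.log T)) * Dx T x ^ 2 / x ^ 2

lemma Fx_meas (b T : ℝ) : Measurable (Fx b T) := by
  unfold Fx
  exact ((measurable_const.sub (Real.measurable_log.div_const _)).mul
    ((Dx_meas T).pow_const 2)).div (measurable_id.pow_const 2)

lemma Dx_le {T x : ℝ} (hT : 1 < T) (hx : 0 < x) : |Dx T x| ≤ 2 * cC * x := by
  have h := dP_abs (a := x) (H := x / T) hx.le (by positivity)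
  have h2 : x / T ≤ x := div_le_self hx.le hT.le
  have hc := cC_one
  have e : Dx T x = dP x (x / T) := rfl
  rw [e]
  refine h.trans ?_
  nlinarith

lemma rpow_exp {T : ℝ} (hT : 1 < T) (A : ℝ) : T ^ A = Real.exp (A * Real.log T) := by
  rw [Real.rpow_def_of_pos (by linarith), mul_comm]

lemma Fx_nonneg {b T x : ℝ} (hT : 1 < T) (hb : 0 < b) (hx : 0 < x) (hx2 : x ≤ T ^ b) :
    0 ≤ Fx b T x := by
  have hL : 0 < Real.log T := Real.log_pos hT
  have h1 : Real.log x ≤ b * Real.log T := by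
    rw [Real.log_le_iff_le_exp hx, ← rpow_exp hT]
    exact hx2
  have h2 : 0 ≤ 1 - Real.log x / (b * Real.log T) := by
    have : Real.log x / (b * Real.log T) ≤ 1 := div_le_one_of_le₀ h1 (by positivity)
    linarith
  unfold Fx
  positivity

lemma Fx_le {b T x : ℝ} (hT : 1 < T) (hb : 0 < b) (hx : 1 ≤ x) :
    Fx b T x ≤ 4 * cC ^ 2 := by
  have hL : 0 < Real.log T := Real.log_pos hT
  have hx0 : 0 < x := by linarith
  have h1 : 1 - Real.log x / (b * Real.log T) ≤ 1 := by
    have : 0 ≤ Real.log x / (b * Real.log T) := div_nonneg (Real.log_nonneg hx) (by positivity)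
    linarith
  have h2 : Dx T x ^ 2 ≤ (2 * cC * x) ^ 2 := by
    rw [← sq_abs]
    exact pow_le_pow_left₀ (abs_nonneg _) (Dx_le hT hx0) 2
  unfold Fx
  rw [div_le_iff₀ (by positivity)]
  calc (1 - Real.log x / (b * Real.log T)) * Dx T x ^ 2 ≤ 1 * Dx T x ^ 2 :=
        mul_le_mul_of_nonneg_right h1 (sq_nonneg _)
    _ ≤ (2 * cC * x) ^ 2 := by rw [one_mul]; exact h2
    _ = 4 * cC ^ 2 * x ^ 2 := by ring

lemma Fx_int {A b T : ℝ} (hT : 1 < T) (hb : 0 < b) (hA : 0 ≤ A) :
    IntegrableOn (Fx b T) (Set.Ioc (T ^ A) (T ^ b)) := by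
  have hTA : 1 ≤ T ^ A := Real.one_le_rpow hT.le hA
  refine Measure.integrableOn_of_bounded (M := 4 * cC ^ 2) (by simp [Real.volume_Ioc])
    (Fx_meas b T).aestronglyMeasurable ?_
  refine (ae_restrict_iff' measurableSet_Ioc).2 (Eventually.of_forall fun x hx => ?_)
  have hx1 : 1 ≤ x := by linarith [hx.1]
  rw [Real.norm_eq_abs, abs_of_nonneg (Fx_nonneg hT hb (by linarith) hx.2)]
  exact Fx_le hT hb hx1

lemma Jf_eq {A b T : ℝ} (hT : 1 < T) (hA : 0 ≤ A) (hb : 0 < b) (hAb : A ≤ b) :
    Jf A b T = ENNReal.ofReal (∫ x in (T ^ A)..(T ^ b), Fx b T x) := by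
  have hL : 0 < Real.log T := Real.log_pos hT
  have hTp : 0 < T := by linarith
  have hTA : 1 ≤ T ^ A := Real.one_le_rpow hT.le hA
  have hTAb : T ^ A ≤ T ^ b := Real.rpow_le_rpow_of_exponent_le hT.le hAb
  rw [intervalIntegral.integral_of_le hTAb, ofReal_integral_eq_lintegral_ofReal (Fx_int hT hb hA)
    ((ae_restrict_iff' measurableSet_Ioc).2 (Eventually.of_forall fun x hx =>
      Fx_nonneg hT hb (by linarith [hx.1]) hx.2))]
  unfold Jf
  rw [← lintegral_indicator measurableSet_Ioi, sub_log (g := (Set.Ioi (A * Real.log T)).indicator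
    fun v => ENNReal.ofReal (1 - v / (b * Real.log T)) * qd (v, Real.log (1 + 1 / T))),
    ← lintegral_indicator measurableSet_Ioi, ← lintegral_indicator measurableSet_Ioc]
  refine lintegral_congr fun x => ?_
  by_cases hx : 0 < x
  · rw [Set.indicator_of_mem (show x ∈ Set.Ioi (0 : ℝ) from hx)]
    by_cases h1 : T ^ A < x
    · have h2 : Real.log x ∈ Set.Ioi (A * Real.log T) := by
        show A * Real.log T < Real.log x
        rw [Real.lt_log_iff_exp_lt hx, ← rpow_exp hT]
        exact h1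
      rw [Set.indicator_of_mem h2]
      by_cases h3 : x ≤ T ^ b
      · rw [Set.indicator_of_mem (show x ∈ Set.Ioc (T ^ A) (T ^ b) from ⟨h1, h3⟩)]
        have h4 : Real.log x ≤ b * Real.log T := by
          rw [Real.log_le_iff_le_exp hx, ← rpow_exp hT]
          exact h3
        have h5 : 0 ≤ 1 - Real.log x / (b * Real.log T) := by
          have : Real.log x / (b * Real.log T) ≤ 1 := div_le_one_of_le₀ h4 (by positivity)
          linarith
        unfold qd
        show ENNReal.ofReal (1 / x) * (ENNReal.ofReal (1 - Real.log x / (b * Real.log T)) *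
          ENNReal.ofReal (Real.exp (-Real.log x) * dn (Real.log x) (Real.log (1 + 1 / T)) ^ 2)) = _
        rw [← ENNReal.ofReal_mul h5, ← ENNReal.ofReal_mul (by positivity)]
        congr 1
        have e1 : dn (Real.log x) (Real.log (1 + 1 / T)) = Dx T x := by
          unfold dn Dx
          have e2 : Real.exp (Real.log x + Real.log (1 + 1 / T)) = x + x / T := by
            rw [Real.exp_add, Real.exp_log hx, Real.exp_log (by positivity)]
            ring
          rw [e2, Real.exp_log hx]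
          ring
        rw [e1, Real.exp_neg, Real.exp_log hx]
        unfold Fx
        field_simp
      · rw [Set.indicator_of_notMem (fun h => h3 h.2)]
        have h4 : b * Real.log T ≤ Real.log x := by
          rw [Real.le_log_iff_exp_le hx, ← rpow_exp hT]
          exact (not_le.1 h3).le
        have h5 : 1 - Real.log x / (b * Real.log T) ≤ 0 := by
          have : 1 ≤ Real.log x / (b * Real.log T) := by
            rw [le_div_iff₀ (by positivity), one_mul]
            exact h4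
          linarith
        rw [ENNReal.ofReal_of_nonpos h5, zero_mul, mul_zero]
    · have h2 : Real.log x ∉ Set.Ioi (A * Real.log T) := by
        intro h
        have h3 : A * Real.log T < Real.log x := h
        rw [Real.lt_log_iff_exp_lt hx, ← rpow_exp hT] at h3
        exact h1 h3
      rw [Set.indicator_of_notMem h2, Set.indicator_of_notMem (fun h => h1 h.1), mul_zero]
  · rw [Set.indicator_of_notMem (show x ∉ Set.Ioi (0 : ℝ) from hx),
      Set.indicator_of_notMem (fun h => hx (by linarith [h.1]))]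

/-- the normalised mean over the scales -/
noncomputable def Mx (A b T : ℝ) : ℝ :=
  2 * T / (b * Real.log T ^ 2) * ∫ x in (T ^ A)..(T ^ b), Fx b T x

lemma Mx_iff {A b T c : ℝ} (hT : 1 < T) (hb : 0 < b) :
    (c ≤ Mx A b T ↔ c * (b / 2) * (Real.log T ^ 2 / T) ≤ ∫ x in (T ^ A)..(T ^ b), Fx b T x) ∧
    (Mx A b T ≤ c ↔ ∫ x in (T ^ A)..(T ^ b), Fx b T x ≤ c * (b / 2) * (Real.log T ^ 2 / T)) := by
  have hL : 0 < Real.log T := Real.log_pos hT
  have hTp : 0 < T := by linarith
  have h1 : 0 < b * Real.log T ^ 2 / (2 * T) := by positivity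
  have e1 : c * (b / 2) * (Real.log T ^ 2 / T) = c * (b * Real.log T ^ 2 / (2 * T)) := by ring
  have e2 : Mx A b T = (∫ x in (T ^ A)..(T ^ b), Fx b T x) / (b * Real.log T ^ 2 / (2 * T)) := by
    unfold Mx
    rw [div_div_eq_mul_div]
    ring
  rw [e1, e2]
  exact ⟨le_div_iff₀ h1, div_le_iff₀ h1⟩

theorem mean_lower {A : ℝ} (hA : 0 ≤ A) {ε : ℝ} (hε : 0 < ε) : ∃ b0 : ℝ, ∀ b : ℝ, b0 ≤ b →
    ∀ᶠ T : ℝ in atTop, 1 - ε ≤ Mx A b T := by
  obtain ⟨b0, hb0, h⟩ := jf_lower hA (d := min ε (1 / 2)) (lt_min hε (by norm_num))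
  refine ⟨max b0 A, fun b hb => ?_⟩
  have hbb0 : b0 ≤ b := (le_max_left _ _).trans hb
  have hbA : A ≤ b := (le_max_right _ _).trans hb
  have hb1 : 0 < b := by linarith
  filter_upwards [h b hbb0, eventually_gt_atTop 1] with T h1 hT
  rw [Jf_eq hT hA hb1 hbA] at h1
  have hL : 0 < Real.log T := Real.log_pos hT
  have hTp : 0 < T := by linarith
  have hd : 0 < 1 - min ε (1 / 2) := by
    have := min_le_right ε (1 / 2)
    linarith
  have h2 : 0 < (1 - min ε (1 / 2)) * (b / 2) * (Real.log T ^ 2 / T) := by positivity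
  have h3 : (1 - min ε (1 / 2)) * (b / 2) * (Real.log T ^ 2 / T) ≤
      ∫ x in (T ^ A)..(T ^ b), Fx b T x := by
    by_contra hc
    exact absurd h1 (not_le.2 ((ENNReal.ofReal_lt_ofReal_iff h2).2 (not_le.1 hc)))
  have h4 := (Mx_iff (A := A) (b := b) hT hb1).1.2 h3
  have := min_le_left ε (1 / 2)
  linarith

lemma UH_of {A : ℝ} (hA : 0 ≤ A) (h : ∀ ε : ℝ, 0 < ε → ∃ b0 : ℝ, ∀ b : ℝ, b0 ≤ b →
    ∀ᶠ T : ℝ in atTop, Mx A b T ≤ 1 + ε) : UH A := by
  intro ε hε
  obtain ⟨b0, h0⟩ := h ε hε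
  refine ⟨max b0 (A + 1), fun b hb => ?_⟩
  have hbb0 : b0 ≤ b := (le_max_left _ _).trans hb
  have hbA : A + 1 ≤ b := (le_max_right _ _).trans hb
  filter_upwards [h0 b hbb0, eventually_gt_atTop 1] with T h1 hT
  rw [Jf_eq hT hA (by linarith) (by linarith)]
  exact ENNReal.ofReal_le_ofReal ((Mx_iff (A := A) (b := b) hT (by linarith)).2.1 h1)

theorem UH.RH {A : ℝ} (hA : 0 ≤ A) (h : UH A) : RiemannHypothesis := by
  obtain ⟨b0, h0⟩ := h 1 one_pos
  refine rh_of_upper hA (Eventually.frequently ?_)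
  filter_upwards [eventually_ge_atTop b0] with b hb
  exact ⟨(1 + 1) * (b / 2), (h0 b hb).frequently⟩

/-- the number of the pairs, with the definitions of the library -/
lemma N_Aa {T y : ℝ} (hT : 1 < T) : (Pool.Agent.Y744.G.N T (-y) y : ℝ) = Xf T * Aa T y := by
  rw [Pool.Agent.Y744.G.N_eq hT]
  unfold Aa
  have h1 : {x : ℝ | |x| ≤ y} = Set.Icc (-y) y := by
    ext x
    rw [Set.mem_Icc, ← abs_le]
    rfl
  rw [h1, ← mul_assoc, mul_inv_cancel₀ (Xf_pos hT).ne', one_mul]

/-- the monotonicity: without the weight -/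
lemma plain_ge {A b T c : ℝ} (hT : 1 < T) (hA : 0 ≤ A) (hb : 0 < b) (hAb : A ≤ b)
    (h : c ≤ Mx A b T) : c / 2 * (b * (Real.log T ^ 2 / T)) ≤
      ∫ x in (T ^ A)..(T ^ b), Dx T x ^ 2 / x ^ 2 := by
  have h1 := (Mx_iff (A := A) (b := b) hT hb).1.1 h
  have hL : 0 < Real.log T := Real.log_pos hT
  have hTA : 1 ≤ T ^ A := Real.one_le_rpow hT.le hA
  have hTAb : T ^ A ≤ T ^ b := Real.rpow_le_rpow_of_exponent_le hT.le hAb
  have h2 : ∫ x in (T ^ A)..(T ^ b), Fx b T x ≤ ∫ x in (T ^ A)..(T ^ b), Dx T x ^ 2 / x ^ 2 := by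
    rw [intervalIntegral.integral_of_le hTAb, intervalIntegral.integral_of_le hTAb]
    refine setIntegral_mono_on (Fx_int hT hb hA) ?_ measurableSet_Ioc fun x hx => ?_
    · refine Measure.integrableOn_of_bounded (M := 4 * cC ^ 2) (by simp [Real.volume_Ioc])
        (((Dx_meas T).pow_const 2).div (measurable_id.pow_const 2)).aestronglyMeasurable ?_
      refine (ae_restrict_iff' measurableSet_Ioc).2 (Eventually.of_forall fun x hx => ?_)
      have hx0 : 0 < x := by linarith [hx.1]
      rw [Real.norm_eq_abs, abs_of_nonneg (by positivity), div_le_iff₀ (by positivity)]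
      have h2 : Dx T x ^ 2 ≤ (2 * cC * x) ^ 2 := by
        rw [← sq_abs]
        exact pow_le_pow_left₀ (abs_nonneg _) (Dx_le hT hx0) 2
      linarith
    · have hx1 : 1 ≤ x := by linarith [hx.1]
      unfold Fx
      refine div_le_div_of_nonneg_right ?_ (by positivity)
      refine mul_le_of_le_one_left (sq_nonneg _) ?_
      have : 0 ≤ Real.log x / (b * Real.log T) := div_nonneg (Real.log_nonneg hx1) (by positivity)
      linarith
  linarith

end Pool.Agent.H7.LH
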